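import Mathlib

set_option autoImplicit false

open Real Finset

namespace Pool.Agent.Riesz

section

variable {V : Type*} [NormedAddCommGroup V] [InnerProductSpace ℝ V]
variable {κ : Type*} [Fintype κ] {y : κ → V}

/-- Two nonnegative combinations of vectors at pairwise non-acute angles, with disjoint supports,
have non-positive inner product. -/
lemma inner_combo_nonpos (hneg : ∀ k l, k ≠ l → inner ℝ (y k) (y l) ≤ (0 : ℝ)) {b c : κ → ℝ}
    (hb : ∀ k, 0 ≤ b k) (hc : ∀ k, 0 ≤ c k) (hbc : ∀ k, b k * c k = 0) :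
    inner ℝ (∑ k, b k • y k) (∑ k, c k • y k) ≤ (0 : ℝ) := by
  rw [sum_inner]
  refine Finset.sum_nonpos (fun k _ => ?_)
  rw [inner_sum]
  refine Finset.sum_nonpos (fun l _ => ?_)
  rw [real_inner_smul_left, real_inner_smul_right]
  by_cases hkl : k = l
  · subst hkl
    rw [← mul_assoc, hbc k, zero_mul]
  · have h1 := hneg k l hkl
    have h2 := mul_nonneg (hb k) (hc l)
    nlinarith

lemma max_sub_max (a : ℝ) : a = max a 0 - max (-a) 0 := by
  rcases le_total 0 a with h | h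
  · rw [max_eq_left h, max_eq_right (by linarith)]; ring
  · rw [max_eq_right h, max_eq_left (by linarith)]; ring

lemma max_mul_max (a : ℝ) : max a 0 * max (-a) 0 = 0 := by
  rcases le_total 0 a with h | h
  · rw [max_eq_right (show -a ≤ 0 by linarith), mul_zero]
  · rw [max_eq_right h, zero_mul]

lemma combo_split (b : κ → ℝ) :
    ∑ k, b k • y k = ∑ k, max (b k) 0 • y k - ∑ k, max (-b k) 0 • y k := by
  rw [← Finset.sum_sub_distrib]
  refine Finset.sum_congr rfl (fun k _ => ?_)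
  rw [← sub_smul, ← max_sub_max]

/-- A vector of the span with nonnegative inner products with all `y k` is a nonnegative
combination. -/
lemma cone (hneg : ∀ k l, k ≠ l → inner ℝ (y k) (y l) ≤ (0 : ℝ)) {v : V}
    (hv : v ∈ Submodule.span ℝ (Set.range y)) (hpos : ∀ k, 0 ≤ inner ℝ v (y k)) :
    ∃ b : κ → ℝ, (∀ k, 0 ≤ b k) ∧ v = ∑ k, b k • y k := by
  obtain ⟨b, rfl⟩ := (Submodule.mem_span_range_iff_exists_fun ℝ).1 hv
  set u := ∑ k, max (-b k) 0 • y k with hu
  set p := ∑ k, max (b k) 0 • y k with hp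
  have hsplit : ∑ k, b k • y k = p - u := combo_split b
  have h1 : inner ℝ p u ≤ (0 : ℝ) :=
    inner_combo_nonpos hneg (fun k => le_max_right _ _) (fun k => le_max_right _ _)
      (fun k => max_mul_max _)
  have h2 : 0 ≤ inner ℝ (p - u) u := by
    rw [← hsplit, hu, inner_sum]
    refine Finset.sum_nonneg (fun k _ => ?_)
    rw [real_inner_smul_right]
    exact mul_nonneg (le_max_right _ _) (hpos k)
  rw [inner_sub_left] at h2
  have h3 : inner ℝ u u ≤ (0 : ℝ) := by linarith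
  have h4 : u = 0 := real_inner_self_nonpos.1 h3
  refine ⟨fun k => max (b k) 0, fun k => le_max_right _ _, ?_⟩
  rw [hsplit, h4, sub_zero]

lemma linIndep (hneg : ∀ k l, k ≠ l → inner ℝ (y k) (y l) ≤ (0 : ℝ)) {x : V}
    (hx : ∀ k, inner ℝ x (y k) < (0 : ℝ)) : LinearIndependent ℝ y := by
  rw [Fintype.linearIndependent_iff]
  have key : ∀ c : κ → ℝ, (∀ k, 0 ≤ c k) → ∑ k, c k • y k = 0 → ∀ k, c k = 0 := by
    intro c hc h0 k
    have h1 : ∑ k, c k * inner ℝ x (y k) = 0 := by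
      have : inner ℝ x (∑ k, c k • y k) = (0 : ℝ) := by rw [h0, inner_zero_right]
      rw [inner_sum] at this
      simpa [real_inner_smul_right] using this
    have h2 : ∀ k ∈ Finset.univ, 0 ≤ - (c k * inner ℝ x (y k)) := by
      intro k _
      nlinarith [hc k, hx k]
    have h3 : ∑ k, -(c k * inner ℝ x (y k)) = 0 := by
      rw [Finset.sum_neg_distrib, h1, neg_zero]
    have h4 := (Finset.sum_eq_zero_iff_of_nonneg h2).1 h3 k (Finset.mem_univ k)
    have h5 : c k * inner ℝ x (y k) = 0 := by linarith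
    rcases mul_eq_zero.1 h5 with h | h
    · exact h
    · exact absurd h (hx k).ne
  intro c hc k
  set u := ∑ k, max (-c k) 0 • y k with hu
  set p := ∑ k, max (c k) 0 • y k with hp
  have hsplit : ∑ k, c k • y k = p - u := combo_split c
  have h1 : inner ℝ p u ≤ (0 : ℝ) :=
    inner_combo_nonpos hneg (fun k => le_max_right _ _) (fun k => le_max_right _ _)
      (fun k => max_mul_max _)
  have hpu : p = u := by
    rw [hsplit] at hc
    exact sub_eq_zero.1 hc
  rw [hpu] at h1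
  have hu0 : u = 0 := real_inner_self_nonpos.1 h1
  have hp0 : p = 0 := by rw [hpu, hu0]
  have h2 := key _ (fun k => le_max_right _ _) hp0 k
  have h3 := key _ (fun k => le_max_right _ _) hu0 k
  rw [max_sub_max (c k), h2, h3, sub_zero]

/-- Existence of a vector of the span with prescribed inner products. -/
lemma exists_dual (hli : LinearIndependent ℝ y) (r : κ → ℝ) :
    ∃ v ∈ Submodule.span ℝ (Set.range y), ∀ k, inner ℝ v (y k) = r k := by
  classical
  let T : (κ → ℝ) →ₗ[ℝ] (κ → ℝ) :=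
    { toFun := fun c k => inner ℝ (∑ l, c l • y l) (y k)
      map_add' := by
        intro c c'
        ext k
        simp [add_smul, Finset.sum_add_distrib, inner_add_left]
      map_smul' := by
        intro a c
        ext k
        simp only [Pi.smul_apply, smul_eq_mul, RingHom.id_apply, mul_smul]
        rw [← Finset.smul_sum, real_inner_smul_left] }
  have hinj : Function.Injective T := by
    rw [injective_iff_map_eq_zero]
    intro c hc
    have h1 : ∀ k, inner ℝ (∑ l, c l • y l) (y k) = (0 : ℝ) := fun k => congrFun hc k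
    have h2 : inner ℝ (∑ l, c l • y l) (∑ l, c l • y l) = (0 : ℝ) := by
      conv_lhs => rw [inner_sum]
      refine Finset.sum_eq_zero (fun k _ => ?_)
      rw [real_inner_smul_right, h1 k, mul_zero]
    have h3 : ∑ l, c l • y l = 0 := inner_self_eq_zero.1 h2
    ext k
    exact Fintype.linearIndependent_iff.1 hli c h3 k
  have hsurj : Function.Surjective T := LinearMap.injective_iff_surjective.1 hinj
  obtain ⟨c, hc⟩ := hsurj r
  refine ⟨∑ l, c l • y l, ?_, fun k => congrFun hc k⟩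
  exact Submodule.sum_mem _ (fun l _ => Submodule.smul_mem _ _ (Submodule.subset_span ⟨l, rfl⟩))

/-- A vector of the span orthogonal to all `y k` vanishes. -/
lemma eq_zero_of_orth {v : V} (hv : v ∈ Submodule.span ℝ (Set.range y))
    (h : ∀ k, inner ℝ v (y k) = (0 : ℝ)) : v = 0 := by
  obtain ⟨b, rfl⟩ := (Submodule.mem_span_range_iff_exists_fun ℝ).1 hv
  refine (inner_self_eq_zero (𝕜 := ℝ)).1 ?_
  conv_lhs => rw [inner_sum]
  refine Finset.sum_eq_zero (fun k _ => ?_)
  rw [real_inner_smul_right, h k, mul_zero]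

lemma eq_of_inner_eq {v w : V} (hv : v ∈ Submodule.span ℝ (Set.range y))
    (hw : w ∈ Submodule.span ℝ (Set.range y))
    (h : ∀ k, inner ℝ v (y k) = (inner ℝ w (y k) : ℝ)) : v = w := by
  have := eq_zero_of_orth (Submodule.sub_mem _ hv hw)
    (fun k => by rw [inner_sub_left, h k, sub_self])
  exact sub_eq_zero.1 this

/-- The orthogonal complement of the span of `y` has the right dimension. -/
lemma finrank_orth [FiniteDimensional ℝ V] (hli : LinearIndependent ℝ y)
    {n : ℕ} (hn : Module.finrank ℝ V = Fintype.card κ + n) :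
    Module.finrank ℝ (Submodule.span ℝ (Set.range y))ᗮ = n := by
  have h1 := Submodule.finrank_add_finrank_orthogonal (Submodule.span ℝ (Set.range y))
  rw [finrank_span_eq_card hli, hn] at h1
  omega

lemma coeff_ge (hy1 : ∀ k, ‖y k‖ = 1)
    (hneg : ∀ k l, k ≠ l → inner ℝ (y k) (y l) ≤ (0 : ℝ)) {b : κ → ℝ}
    (hb : ∀ k, 0 ≤ b k) (k : κ) : inner ℝ (∑ l, b l • y l) (y k) ≤ b k := by
  classical
  rw [sum_inner, ← Finset.add_sum_erase Finset.univ _ (Finset.mem_univ k)]
  have h1 : inner ℝ (b k • y k) (y k) = b k := by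
    rw [real_inner_smul_left, real_inner_self_eq_norm_sq, hy1]; ring
  rw [h1]
  have h2 : ∑ l ∈ Finset.univ.erase k, inner ℝ (b l • y l) (y k) ≤ (0 : ℝ) := by
    refine Finset.sum_nonpos (fun l hl => ?_)
    rw [real_inner_smul_left]
    have := hneg l k (Finset.ne_of_mem_erase hl)
    nlinarith [hb l]
  linarith

/-- Inner products in the dual cone dominate the diagonal sum. -/
lemma inner_ge_sum (hy1 : ∀ k, ‖y k‖ = 1)
    (hneg : ∀ k l, k ≠ l → inner ℝ (y k) (y l) ≤ (0 : ℝ)) {v w : V}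
    (hv : v ∈ Submodule.span ℝ (Set.range y)) (hvp : ∀ k, 0 ≤ inner ℝ v (y k))
    (hwp : ∀ k, 0 ≤ inner ℝ w (y k)) :
    ∑ k, inner ℝ v (y k) * inner ℝ w (y k) ≤ (inner ℝ v w : ℝ) := by
  obtain ⟨b, hb, rfl⟩ := cone hneg hv hvp
  have h1 : inner ℝ (∑ k, b k • y k) w = ∑ k, b k * inner ℝ w (y k) := by
    rw [sum_inner]
    refine Finset.sum_congr rfl (fun k _ => ?_)
    rw [real_inner_smul_left, real_inner_comm]
  rw [h1]
  refine Finset.sum_le_sum (fun k _ => ?_)
  exact mul_le_mul_of_nonneg_right (coeff_ge hy1 hneg hb k) (hwp k)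

/-- If `w` has inner products at least `c` with all `y k`, then `c ‖v‖ ≤ ⟨v, w⟩` for `v` in the
dual cone. -/
lemma norm_le_inner (hy1 : ∀ k, ‖y k‖ = 1)
    (hneg : ∀ k l, k ≠ l → inner ℝ (y k) (y l) ≤ (0 : ℝ)) {v w : V} {c : ℝ} (hc : 0 ≤ c)
    (hv : v ∈ Submodule.span ℝ (Set.range y)) (hvp : ∀ k, 0 ≤ inner ℝ v (y k))
    (hwp : ∀ k, c ≤ inner ℝ w (y k)) :
    c * ‖v‖ ≤ (inner ℝ v w : ℝ) := by
  obtain ⟨b, hb, rfl⟩ := cone hneg hv hvp
  have h1 : inner ℝ (∑ k, b k • y k) w = ∑ k, b k * inner ℝ w (y k) := by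
    rw [sum_inner]
    refine Finset.sum_congr rfl (fun k _ => ?_)
    rw [real_inner_smul_left, real_inner_comm]
  have h2 : ‖∑ k, b k • y k‖ ≤ ∑ k, b k := by
    refine (norm_sum_le _ _).trans (Finset.sum_le_sum (fun k _ => ?_))
    rw [norm_smul, hy1, mul_one, Real.norm_of_nonneg (hb k)]
  rw [h1]
  calc c * ‖∑ k, b k • y k‖ ≤ c * ∑ k, b k := mul_le_mul_of_nonneg_left h2 hc
    _ = ∑ k, b k * c := by rw [Finset.mul_sum]; exact Finset.sum_congr rfl (fun k _ => by ring)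
    _ ≤ ∑ k, b k * inner ℝ w (y k) :=
        Finset.sum_le_sum (fun k _ => mul_le_mul_of_nonneg_left (hwp k) (hb k))

/-- Conditioning: a vector of the span with small inner products with all the `y k` is small. -/
lemma norm_le_of_small (hne : Nonempty κ) (hneg : ∀ k l, k ≠ l → inner ℝ (y k) (y l) ≤ (0 : ℝ)) {v n : V}
    {c ρ : ℝ} (hc : 0 < c) (hn : ‖n‖ ≤ 1) (hnp : ∀ k, c ≤ inner ℝ n (y k))
    (hv : v ∈ Submodule.span ℝ (Set.range y)) (hvp : ∀ k, |inner ℝ v (y k)| ≤ ρ) :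
    c * ‖v‖ ≤ 2 * ρ := by
  obtain ⟨b, hbv⟩ := (Submodule.mem_span_range_iff_exists_fun ℝ).1 hv
  set u := ∑ k, max (-b k) 0 • y k with hu
  set p := ∑ k, max (b k) 0 • y k with hp
  have hsplit : v = p - u := by rw [← hbv]; exact combo_split b
  have h1 : inner ℝ p u ≤ (0 : ℝ) :=
    inner_combo_nonpos hneg (fun k => le_max_right _ _) (fun k => le_max_right _ _)
      (fun k => max_mul_max _)
  have hbound : ∀ b' : κ → ℝ, (∀ k, 0 ≤ b' k) → c * ∑ k, b' k ≤ ‖∑ k, b' k • y k‖ := by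
    intro b' hb'
    have h2 : c * ∑ k, b' k ≤ inner ℝ n (∑ k, b' k • y k) := by
      rw [inner_sum, Finset.mul_sum]
      refine Finset.sum_le_sum (fun k _ => ?_)
      rw [real_inner_smul_right, mul_comm]
      exact mul_le_mul_of_nonneg_left (hnp k) (hb' k)
    have h3 : inner ℝ n (∑ k, b' k • y k) ≤ ‖n‖ * ‖∑ k, b' k • y k‖ := real_inner_le_norm _ _
    nlinarith [norm_nonneg (∑ k, b' k • y k)]
  have hp1 := hbound (fun k => max (b k) 0) (fun k => le_max_right _ _)
  have hu1 := hbound (fun k => max (-b k) 0) (fun k => le_max_right _ _)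
  rw [← hp] at hp1
  rw [← hu] at hu1
  have hvv : ‖v‖ ^ 2 = ‖p‖ ^ 2 - 2 * inner ℝ p u + ‖u‖ ^ 2 := by
    rw [hsplit]; exact norm_sub_sq_real p u
  have hρ : 0 ≤ ρ ∨ IsEmpty κ := by
    by_cases h : IsEmpty κ
    · right; exact h
    · left
      rw [not_isEmpty_iff] at h
      exact le_trans (abs_nonneg _) (hvp h.some)
  have hle : ‖v‖ ^ 2 ≤ ρ * (∑ k, max (b k) 0 + ∑ k, max (-b k) 0) := by
    have h2 : ‖v‖ ^ 2 = ∑ k, b k * inner ℝ v (y k) := by
      rw [← real_inner_self_eq_norm_sq]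
      conv_lhs => rw [← hbv, inner_sum]
      refine Finset.sum_congr rfl (fun k _ => ?_)
      rw [real_inner_smul_right, hbv]
    rw [h2, ← Finset.sum_add_distrib, Finset.mul_sum]
    refine Finset.sum_le_sum (fun k _ => ?_)
    have h3 : b k * inner ℝ v (y k) ≤ |b k| * |inner ℝ v (y k)| := by
      rw [← abs_mul]; exact le_abs_self _
    have h4 : |b k| = max (b k) 0 + max (-b k) 0 := by
      rcases le_total 0 (b k) with h | h
      · rw [abs_of_nonneg h, max_eq_left h, max_eq_right (by linarith)]; ring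
      · rw [abs_of_nonpos h, max_eq_right h, max_eq_left (by linarith)]; ring
    rw [← h4]
    calc b k * inner ℝ v (y k) ≤ |b k| * |inner ℝ v (y k)| := h3
      _ ≤ |b k| * ρ := mul_le_mul_of_nonneg_left (hvp k) (abs_nonneg _)
      _ = ρ * |b k| := by ring
  rcases hρ with hρ | hκ
  · have h5 : c * ‖v‖ ^ 2 ≤ ρ * (‖p‖ + ‖u‖) := by
      calc c * ‖v‖ ^ 2 ≤ c * (ρ * (∑ k, max (b k) 0 + ∑ k, max (-b k) 0)) :=
            mul_le_mul_of_nonneg_left hle hc.le
        _ = ρ * (c * (∑ k, max (b k) 0) + c * ∑ k, max (-b k) 0) := by ring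
        _ ≤ ρ * (‖p‖ + ‖u‖) := mul_le_mul_of_nonneg_left (add_le_add hp1 hu1) hρ
    have hp2 : ‖p‖ ≤ ‖v‖ := by
      apply le_of_sq_le_sq _ (norm_nonneg _)
      nlinarith [sq_nonneg ‖u‖]
    have hu2 : ‖u‖ ≤ ‖v‖ := by
      apply le_of_sq_le_sq _ (norm_nonneg _)
      nlinarith [sq_nonneg ‖p‖]
    have h6 : c * ‖v‖ ^ 2 ≤ ρ * (2 * ‖v‖) :=
      h5.trans (mul_le_mul_of_nonneg_left (by linarith) hρ)
    rcases (norm_nonneg v).eq_or_lt with h | h
    · rw [← h]; simpa using hρ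
    · by_contra hcon
      push Not at hcon
      nlinarith
  · exact absurd hκ (not_isEmpty_iff.2 hne)

/-- The dual family. -/
lemma exists_dual_family [DecidableEq κ] (hy1 : ∀ k, ‖y k‖ = 1)
    (hneg : ∀ k l, k ≠ l → inner ℝ (y k) (y l) ≤ (0 : ℝ))
    (hli : LinearIndependent ℝ y) :
    ∃ z : κ → V, (∀ k, z k ∈ Submodule.span ℝ (Set.range y)) ∧
      (∀ k l, inner ℝ (z k) (y l) = if k = l then (1 : ℝ) else 0) ∧
      (∀ k l, 0 ≤ (inner ℝ (z k) (z l) : ℝ)) := by
  choose z hz1 hz2 using fun k : κ => exists_dual hli (fun l => if k = l then (1 : ℝ) else 0)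
  refine ⟨z, hz1, hz2, fun k l => ?_⟩
  have hpos : ∀ k j, 0 ≤ (inner ℝ (z k) (y j) : ℝ) := by
    intro k j
    rw [hz2]; split_ifs <;> norm_num
  refine le_trans ?_ (inner_ge_sum hy1 hneg (hz1 k) (hpos k) (w := z l) (hpos l))
  exact Finset.sum_nonneg (fun j _ => mul_nonneg (hpos k j) (hpos l j))

lemma expand_dual [DecidableEq κ] {z : κ → V}
    (hz1 : ∀ k, z k ∈ Submodule.span ℝ (Set.range y))
    (hz2 : ∀ k l, inner ℝ (z k) (y l) = if k = l then (1 : ℝ) else 0) {v : V}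
    (hv : v ∈ Submodule.span ℝ (Set.range y)) : v = ∑ k, (inner ℝ v (y k) : ℝ) • z k := by
  refine eq_of_inner_eq hv (Submodule.sum_mem _ (fun l _ => Submodule.smul_mem _ _ (hz1 l))) ?_
  intro k
  rw [sum_inner, Finset.sum_eq_single k]
  · rw [real_inner_smul_left, hz2, if_pos rfl, mul_one]
  · intro l _ hl
    rw [real_inner_smul_left, hz2, if_neg hl, mul_zero]
  · intro h; exact absurd (Finset.mem_univ k) h

lemma inner_expand [DecidableEq κ] {z : κ → V}
    (hz1 : ∀ k, z k ∈ Submodule.span ℝ (Set.range y))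
    (hz2 : ∀ k l, inner ℝ (z k) (y l) = if k = l then (1 : ℝ) else 0) {v w : V}
    (hv : v ∈ Submodule.span ℝ (Set.range y)) (hw : w ∈ Submodule.span ℝ (Set.range y)) :
    (inner ℝ v w : ℝ) = ∑ k, ∑ l, inner ℝ v (y k) * inner ℝ w (y l) * inner ℝ (z k) (z l) := by
  conv_lhs => rw [expand_dual hz1 hz2 hv, expand_dual hz1 hz2 hw, sum_inner]
  refine Finset.sum_congr rfl (fun k _ => ?_)
  rw [inner_sum]
  refine Finset.sum_congr rfl (fun l _ => ?_)
  rw [real_inner_smul_left, real_inner_smul_right]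
  ring

lemma exp_tangent (m x : ℝ) : exp m * (1 + (x - m)) ≤ exp x := by
  have h : exp x = exp m * exp (x - m) := by rw [← exp_add]; ring_nf
  rw [h]
  exact mul_le_mul_of_nonneg_left (by linarith [add_one_le_exp (x - m)]) (exp_pos _).le

lemma exp_tangent2 (m x x' : ℝ) : exp m * (1 + (x + x' - m)) ≤ exp x * exp x' := by
  rw [← exp_add]; exact exp_tangent m (x + x')

/-- The geometric mean inequality in the dual cone. -/
lemma geo_mean (hy1 : ∀ k, ‖y k‖ = 1)
    (hneg : ∀ k l, k ≠ l → inner ℝ (y k) (y l) ≤ (0 : ℝ))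
    (hli : LinearIndependent ℝ y) {v0 v1 v2 v3 u : V} {t0 t1 t2 t3 : κ → ℝ}
    (hv0 : v0 ∈ Submodule.span ℝ (Set.range y)) (hv1 : v1 ∈ Submodule.span ℝ (Set.range y))
    (hv2 : v2 ∈ Submodule.span ℝ (Set.range y)) (hv3 : v3 ∈ Submodule.span ℝ (Set.range y))
    (hu : u ∈ Submodule.span ℝ (Set.range y))
    (h0 : ∀ k, inner ℝ v0 (y k) = exp (t0 k)) (h1 : ∀ k, inner ℝ v1 (y k) = exp (t1 k))
    (h2 : ∀ k, inner ℝ v2 (y k) = exp (t2 k)) (h3 : ∀ k, inner ℝ v3 (y k) = exp (t3 k))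
    (h4 : ∀ k, inner ℝ u (y k) = exp ((t0 k + t1 k + t2 k + t3 k) / 4)) :
    4 * ‖u‖ ^ 2 ≤ inner ℝ (v0 + v2) (v1 + v3) := by
  classical
  obtain ⟨z, hz1, hz2, hz3⟩ := exists_dual_family hy1 hneg hli
  rw [← real_inner_self_eq_norm_sq, inner_expand hz1 hz2 hu hu,
    inner_expand hz1 hz2 (Submodule.add_mem _ hv0 hv2) (Submodule.add_mem _ hv1 hv3)]
  set a : κ → ℝ := fun k => exp (t0 k) + exp (t2 k) with ha
  set b : κ → ℝ := fun k => exp (t1 k) + exp (t3 k) with hb
  set c : κ → ℝ := fun k => exp ((t0 k + t1 k + t2 k + t3 k) / 4) with hc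
  set Z : κ → κ → ℝ := fun k l => inner ℝ (z k) (z l) with hZ
  have e1 : ∑ k, ∑ l, inner ℝ (v0 + v2) (y k) * inner ℝ (v1 + v3) (y l) * inner ℝ (z k) (z l)
      = ∑ k, ∑ l, a k * b l * Z k l := by
    refine Finset.sum_congr rfl (fun k _ => Finset.sum_congr rfl (fun l _ => ?_))
    rw [inner_add_left, inner_add_left, h0, h2, h1, h3]
  have e2 : ∑ k, ∑ l, inner ℝ u (y k) * inner ℝ u (y l) * inner ℝ (z k) (z l)
      = ∑ k, ∑ l, c k * c l * Z k l := by
    refine Finset.sum_congr rfl (fun k _ => Finset.sum_congr rfl (fun l _ => ?_))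
    rw [h4, h4]
  rw [e1, e2]
  have e3 : ∑ k, ∑ l, a k * b l * Z k l = ∑ k, ∑ l, (a k * b l + a l * b k) / 2 * Z k l := by
    have h5 : ∑ k, ∑ l, a l * b k * Z k l = ∑ k, ∑ l, a k * b l * Z k l := by
      rw [Finset.sum_comm]
      refine Finset.sum_congr rfl (fun k _ => Finset.sum_congr rfl (fun l _ => ?_))
      simp only [hZ]
      rw [real_inner_comm]
    have h6 : ∑ k, ∑ l, (a k * b l + a l * b k) / 2 * Z k l
        = (∑ k, ∑ l, a k * b l * Z k l + ∑ k, ∑ l, a l * b k * Z k l) / 2 := by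
      rw [← Finset.sum_add_distrib, Finset.sum_div]
      refine Finset.sum_congr rfl (fun k _ => ?_)
      rw [← Finset.sum_add_distrib, Finset.sum_div]
      exact Finset.sum_congr rfl (fun l _ => by ring)
    rw [h6, h5]; ring
  rw [e3, Finset.mul_sum]
  refine Finset.sum_le_sum (fun k _ => ?_)
  rw [Finset.mul_sum]
  refine Finset.sum_le_sum (fun l _ => ?_)
  rw [← mul_assoc]
  refine mul_le_mul_of_nonneg_right ?_ (hz3 k l)
  simp only [ha, hb, hc]
  rw [← exp_add]
  set M := (t0 k + t1 k + t2 k + t3 k) / 4 + (t0 l + t1 l + t2 l + t3 l) / 4 with hM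
  have f1 := exp_tangent2 M (t0 k) (t1 l)
  have f2 := exp_tangent2 M (t0 k) (t3 l)
  have f3 := exp_tangent2 M (t2 k) (t1 l)
  have f4 := exp_tangent2 M (t2 k) (t3 l)
  have f5 := exp_tangent2 M (t0 l) (t1 k)
  have f6 := exp_tangent2 M (t0 l) (t3 k)
  have f7 := exp_tangent2 M (t2 l) (t1 k)
  have f8 := exp_tangent2 M (t2 l) (t3 k)
  have hsum : exp M * (1 + (t0 k + t1 l - M)) + exp M * (1 + (t0 k + t3 l - M))
      + exp M * (1 + (t2 k + t1 l - M)) + exp M * (1 + (t2 k + t3 l - M))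
      + exp M * (1 + (t0 l + t1 k - M)) + exp M * (1 + (t0 l + t3 k - M))
      + exp M * (1 + (t2 l + t1 k - M)) + exp M * (1 + (t2 l + t3 k - M)) = 8 * exp M := by
    rw [hM]; ring
  nlinarith

/-- Cauchy-Schwarz against the sum of the `y k`. -/
lemma cs_bound (u : V) :
    (∑ k, (inner ℝ u (y k) : ℝ)) ^ 2 ≤ ‖u‖ ^ 2 * ∑ k, ∑ l, (inner ℝ (y k) (y l) : ℝ) := by
  have h1 : (∑ k, (inner ℝ u (y k) : ℝ)) = inner ℝ u (∑ k, y k) := by rw [inner_sum]
  have h2 : ∑ k, ∑ l, (inner ℝ (y k) (y l) : ℝ) = ‖∑ k, y k‖ ^ 2 := by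
    rw [← real_inner_self_eq_norm_sq, sum_inner]
    exact Finset.sum_congr rfl (fun k _ => by rw [inner_sum])
  rw [h1, h2]
  have h3 := abs_real_inner_le_norm u (∑ k, y k)
  rw [← mul_pow, ← sq_abs (inner ℝ u (∑ k, y k) : ℝ)]
  exact pow_le_pow_left₀ (abs_nonneg _) h3 2

end

end Pool.Agent.Riesz
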