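import Mathlib

set_option autoImplicit false

open Real Finset

namespace Pool.Agent.Riesz

/-- `g ≤ - log (1 - g)` for `g < 1`. -/
lemma le_neg_log {g : ℝ} (hg : g < 1) : g ≤ - log (1 - g) := by
  have := Real.log_le_sub_one_of_pos (show 0 < 1 - g by linarith)
  linarith

/-- Young's inequality: `λ L + λ - λ log λ ≤ exp L` for `λ ≥ 0`. -/
lemma young {l L : ℝ} (hl : 0 ≤ l) : l * L + l - l * log l ≤ exp L := by
  rcases hl.eq_or_lt with h | h
  · subst h; simp [exp_nonneg]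
  · have h1 : (L - log l) + 1 ≤ exp (L - log l) := add_one_le_exp _
    have h2 : exp L = l * exp (L - log l) := by
      rw [exp_sub, exp_log h]; field_simp
    rw [h2]
    nlinarith

lemma neg_mul_log_ge {l : ℝ} (hl : 0 ≤ l) : l * (1 - l) ≤ - (l * log l) := by
  rcases hl.eq_or_lt with h | h
  · subst h; simp
  · have := Real.log_le_sub_one_of_pos h
    nlinarith

/-- `t^2/6 ≤ exp t - 1 - t` for `|t| ≤ 1`. -/
lemma sq_le_exp {t : ℝ} (ht : |t| ≤ 1) : t ^ 2 / 6 ≤ exp t - 1 - t := by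
  have h := Real.abs_exp_sub_one_sub_id_le ht
  -- use exp_bound with n = 3
  have h3 := Real.exp_bound (x := t) ht (n := 3) (by norm_num)
  have e : ∑ m ∈ Finset.range 3, t ^ m / (m.factorial : ℝ) = 1 + t + t ^ 2 / 2 := by
    simp [Finset.sum_range_succ, Nat.factorial]
  rw [e] at h3
  have h4 := (abs_le.1 h3).1
  have h5 : |t| ^ 3 ≤ t ^ 2 := by
    have : |t| ^ 3 = t ^ 2 * |t| := by
      rw [pow_succ, sq_abs]
    rw [this]
    nlinarith [sq_nonneg t, abs_nonneg t]
  norm_num [Nat.factorial] at h4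
  nlinarith [sq_nonneg t]

/-- if `exp t - 1 - t ≤ c` with `c < 1/6`, then `|t| ≤ 1`. -/
lemma abs_le_one_of {t c : ℝ} (hc : c < 1 / 6) (h : exp t - 1 - t ≤ c) : |t| ≤ 1 := by
  by_contra hcon
  push Not at hcon
  rcases lt_abs.1 hcon with h1 | h1
  · -- t > 1 : exp t - 1 - t ≥ t^2/2
    have := Real.quadratic_le_exp_of_nonneg (x := t) (by linarith)
    nlinarith
  · -- t < -1
    have h2 : 0 < exp t := exp_pos t
    have h3 : -1 - t > 0 := by linarith
    -- exp t ≥ ? use monotonicity: exp t - 1 - t, with s = t + 1 ≤ 0: exp t = exp (-1) * exp s ≥ exp(-1) (1 + s)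
    have h4 : exp t = exp (-1) * exp (t + 1) := by rw [← exp_add]; ring_nf
    have h5 : (t + 1) + 1 ≤ exp (t + 1) := add_one_le_exp _
    have h6 : (0.36 : ℝ) ≤ exp (-1) := by
      have := Real.exp_neg_one_gt_d9
      linarith
    have h7 : exp (-1) ≤ (0.37 : ℝ) := by
      have := Real.exp_neg_one_lt_d9
      linarith
    have h8 : exp (-1) * ((t + 1) + 1) ≤ exp t := by
      rw [h4]; exact mul_le_mul_of_nonneg_left h5 (exp_pos _).le
    -- exp t - 1 - t ≥ e^{-1} (1 + s) - s with s = t+1 ≤ 0 ; = e^{-1} + (e^{-1} - 1) s ≥ 0.36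
    nlinarith

lemma abs_le_of_bregman {t c : ℝ} (hc0 : 0 ≤ c) (hc : c < 1 / 6) (h : exp t - 1 - t ≤ c) :
    t ^ 2 ≤ 6 * c := by
  have := sq_le_exp (abs_le_one_of hc h)
  linarith

end Pool.Agent.Riesz
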