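import Mathlib
import Pool.Agent.Riesz.Cone
import Pool.Agent.Riesz.Scalar

set_option autoImplicit false

open Real Finset

namespace Pool.Agent.Riesz

section geometry

variable {V : Type*} [NormedAddCommGroup V] [InnerProductSpace ℝ V]

lemma span_plane {U : Submodule ℝ V} (hU : Module.finrank ℝ U = 2) {D E C : V}
    (hD : D ∈ U) (hE : E ∈ U) (hC : C ∈ U) (hD1 : 39 / 10 ≤ ‖D‖ ^ 2) (hE1 : 39 / 10 ≤ ‖E‖ ^ 2)
    (hDE : |inner ℝ D E| ≤ 1 / 10) : ∃ a b : ℝ, C = a • D + b • E := by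
  have : FiniteDimensional ℝ U := Module.finite_of_finrank_eq_succ hU
  have hli : LinearIndependent ℝ ![(⟨D, hD⟩ : U), (⟨E, hE⟩ : U)] := by
    rw [LinearIndependent.pair_iff]
    intro s t hst
    have h1 : s • D + t • E = 0 := by
      have := congrArg (Subtype.val) hst
      simpa using this
    have h2 : s * ‖D‖ ^ 2 + t * inner ℝ D E = 0 := by
      have : inner ℝ (s • D + t • E) D = (0 : ℝ) := by rw [h1, inner_zero_left]
      rw [inner_add_left, real_inner_smul_left, real_inner_smul_left, real_inner_self_eq_norm_sq,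
        real_inner_comm] at this
      exact this
    have h3 : s * inner ℝ D E + t * ‖E‖ ^ 2 = 0 := by
      have : inner ℝ (s • D + t • E) E = (0 : ℝ) := by rw [h1, inner_zero_left]
      rw [inner_add_left, real_inner_smul_left, real_inner_smul_left,
        real_inner_self_eq_norm_sq] at this
      exact this
    obtain ⟨h4, h5⟩ := abs_le.1 hDE
    have h6 : s ^ 2 * ‖D‖ ^ 2 = t ^ 2 * ‖E‖ ^ 2 := by
      linear_combination s * h2 - t * h3
    have h7 : (s ^ 2 + t ^ 2) * (39 / 10) ≤ s ^ 2 * ‖D‖ ^ 2 + t ^ 2 * ‖E‖ ^ 2 := by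
      nlinarith [sq_nonneg s, sq_nonneg t]
    have h8 : s ^ 2 * ‖D‖ ^ 2 + t ^ 2 * ‖E‖ ^ 2 = - 2 * (s * t) * inner ℝ D E := by
      linear_combination s * h2 + t * h3
    have h9 : - 2 * (s * t) * inner ℝ D E ≤ (s ^ 2 + t ^ 2) / 10 := by
      have h10 : |(s * t) * inner ℝ D E| ≤ |s * t| * (1 / 10) := by
        rw [abs_mul]; exact mul_le_mul_of_nonneg_left hDE (abs_nonneg _)
      have h11 : |s * t| ≤ (s ^ 2 + t ^ 2) / 2 := by
        rw [abs_le]; constructor <;> nlinarith [sq_nonneg (s + t), sq_nonneg (s - t)]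
      have h12 := (abs_le.1 h10).1
      linarith
    have h13 : s ^ 2 + t ^ 2 ≤ 0 := by nlinarith [sq_nonneg s, sq_nonneg t]
    constructor
    · nlinarith [sq_nonneg s, sq_nonneg t]
    · nlinarith [sq_nonneg s, sq_nonneg t]
  have htop : Submodule.span ℝ (Set.range ![(⟨D, hD⟩ : U), (⟨E, hE⟩ : U)]) = ⊤ := by
    apply hli.span_eq_top_of_card_eq_finrank'
    rw [hU, Fintype.card_fin]
  have hmem : (⟨C, hC⟩ : U) ∈ Submodule.span ℝ (Set.range ![(⟨D, hD⟩ : U), (⟨E, hE⟩ : U)]) := by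
    rw [htop]; exact Submodule.mem_top
  rw [Submodule.mem_span_range_iff_exists_fun] at hmem
  obtain ⟨c, hc⟩ := hmem
  refine ⟨c 0, c 1, ?_⟩
  have := congrArg (Subtype.val) hc
  simp [Fin.sum_univ_two] at this
  exact this.symm

lemma planar_weights {U : Submodule ℝ V} (hU : Module.finrank ℝ U = 2) {X0 X1 X2 X3 : V}
    (h0 : X0 ∈ U) (h1 : X1 ∈ U) (h2 : X2 ∈ U) (h3 : X3 ∈ U)
    (hD : 39 / 10 ≤ ‖X0 - X2‖ ^ 2) (hE : 39 / 10 ≤ ‖X1 - X3‖ ^ 2)
    (hDE : |inner ℝ (X0 - X2) (X1 - X3)| ≤ 1 / 10) :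
    ∃ ε δ : ℝ,
      |ε| + |δ| ≤ 27 / 100 * (|inner ℝ (X1 + X3) (X0 - X2)| + |inner ℝ (X0 + X2) (X1 - X3)|
        + |‖X0‖ ^ 2 - ‖X2‖ ^ 2| + |‖X1‖ ^ 2 - ‖X3‖ ^ 2|) ∧
      0 ≤ (1 + ε) * (1 + δ) * inner ℝ X0 X1 + (1 + ε) * (1 - δ) * inner ℝ X0 X3
        + (1 - ε) * (1 + δ) * inner ℝ X2 X1 + (1 - ε) * (1 - δ) * inner ℝ X2 X3 := by
  obtain ⟨ε, δ', h⟩ := span_plane hU (U.sub_mem h0 h2) (U.sub_mem h1 h3)
    (U.sub_mem (U.add_mem h1 h3) (U.add_mem h0 h2)) hD hE hDE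
  refine ⟨ε, -δ', ?_, ?_⟩
  · set D := X0 - X2 with hDdef
    set E := X1 - X3 with hEdef
    have e1 : ε * ‖D‖ ^ 2 + δ' * inner ℝ D E = inner ℝ (X1 + X3) D - (‖X0‖ ^ 2 - ‖X2‖ ^ 2) := by
      have h4 : inner ℝ (X1 + X3 - (X0 + X2)) D = inner ℝ (X1 + X3) D - (‖X0‖ ^ 2 - ‖X2‖ ^ 2) := by
        rw [inner_sub_left, hDdef]
        have : inner ℝ (X0 + X2) (X0 - X2) = ‖X0‖ ^ 2 - ‖X2‖ ^ 2 := by
          rw [inner_add_left, inner_sub_right, inner_sub_right, real_inner_self_eq_norm_sq,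
            real_inner_self_eq_norm_sq, real_inner_comm X2 X0]
          ring
        rw [this]
      rw [← h4, h, inner_add_left, real_inner_smul_left, real_inner_smul_left,
        real_inner_self_eq_norm_sq, real_inner_comm E D]
    have e2 : ε * inner ℝ D E + δ' * ‖E‖ ^ 2 = (‖X1‖ ^ 2 - ‖X3‖ ^ 2) - inner ℝ (X0 + X2) E := by
      have h4 : inner ℝ (X1 + X3 - (X0 + X2)) E = (‖X1‖ ^ 2 - ‖X3‖ ^ 2) - inner ℝ (X0 + X2) E := by
        rw [inner_sub_left, hEdef]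
        have : inner ℝ (X1 + X3) (X1 - X3) = ‖X1‖ ^ 2 - ‖X3‖ ^ 2 := by
          rw [inner_add_left, inner_sub_right, inner_sub_right, real_inner_self_eq_norm_sq,
            real_inner_self_eq_norm_sq, real_inner_comm X3 X1]
          ring
        rw [this]
      rw [← h4, h, inner_add_left, real_inner_smul_left, real_inner_smul_left,
        real_inner_self_eq_norm_sq]
    have f1 : |ε| * (39 / 10) ≤ |δ'| * (1 / 10) + |inner ℝ (X1 + X3) D| + |‖X0‖ ^ 2 - ‖X2‖ ^ 2| := by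
      have a1 : |ε| * (39 / 10) ≤ |ε * ‖D‖ ^ 2| := by
        rw [abs_mul, abs_of_nonneg (sq_nonneg ‖D‖)]
        exact mul_le_mul_of_nonneg_left hD (abs_nonneg _)
      have a2 : ε * ‖D‖ ^ 2 = - (δ' * inner ℝ D E) + inner ℝ (X1 + X3) D
          + - (‖X0‖ ^ 2 - ‖X2‖ ^ 2) := by linarith
      have a3 : |δ' * inner ℝ D E| ≤ |δ'| * (1 / 10) := by
        rw [abs_mul]; exact mul_le_mul_of_nonneg_left hDE (abs_nonneg _)
      have a4 := abs_add_three (- (δ' * inner ℝ D E)) (inner ℝ (X1 + X3) D)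
        (- (‖X0‖ ^ 2 - ‖X2‖ ^ 2))
      rw [abs_neg, abs_neg] at a4
      rw [a2] at a1
      linarith
    have f2 : |δ'| * (39 / 10) ≤ |ε| * (1 / 10) + |inner ℝ (X0 + X2) E| + |‖X1‖ ^ 2 - ‖X3‖ ^ 2| := by
      have a1 : |δ'| * (39 / 10) ≤ |δ' * ‖E‖ ^ 2| := by
        rw [abs_mul, abs_of_nonneg (sq_nonneg ‖E‖)]
        exact mul_le_mul_of_nonneg_left hE (abs_nonneg _)
      have a2 : δ' * ‖E‖ ^ 2 = - (ε * inner ℝ D E) + (‖X1‖ ^ 2 - ‖X3‖ ^ 2)
          + - inner ℝ (X0 + X2) E := by linarith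
      have a3 : |ε * inner ℝ D E| ≤ |ε| * (1 / 10) := by
        rw [abs_mul]; exact mul_le_mul_of_nonneg_left hDE (abs_nonneg _)
      have a4 := abs_add_three (- (ε * inner ℝ D E)) (‖X1‖ ^ 2 - ‖X3‖ ^ 2)
        (- inner ℝ (X0 + X2) E)
      rw [abs_neg, abs_neg] at a4
      rw [a2] at a1
      linarith
    rw [abs_neg]
    linarith [abs_nonneg (inner ℝ (X1 + X3) D : ℝ), abs_nonneg (inner ℝ (X0 + X2) E : ℝ),
      abs_nonneg (‖X0‖ ^ 2 - ‖X2‖ ^ 2), abs_nonneg (‖X1‖ ^ 2 - ‖X3‖ ^ 2)]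
  · have hZ : (1 + ε) • X0 + (1 - ε) • X2 = (1 + -δ') • X1 + (1 - -δ') • X3 := by
      have h5 : (1 + ε) • X0 + (1 - ε) • X2 = (X0 + X2) + ε • (X0 - X2) := by module
      have h6 : (1 + -δ') • X1 + (1 - -δ') • X3 = (X1 + X3 - (X0 + X2)) + (X0 + X2)
          - δ' • (X1 - X3) := by module
      rw [h5, h6, h]
      module
    have h7 : inner ℝ ((1 + ε) • X0 + (1 - ε) • X2) ((1 + -δ') • X1 + (1 - -δ') • X3)
        = (1 + ε) * (1 + -δ') * inner ℝ X0 X1 + (1 + ε) * (1 - -δ') * inner ℝ X0 X3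
        + (1 - ε) * (1 + -δ') * inner ℝ X2 X1 + (1 - ε) * (1 - -δ') * inner ℝ X2 X3 := by
      simp only [inner_add_left, inner_add_right, real_inner_smul_left, real_inner_smul_right]
      ring
    rw [← h7, hZ]
    exact real_inner_self_nonneg

lemma inner_decomp {W : Submodule ℝ V} {x x' v v' : V} (hv : v ∈ W) (hv' : v' ∈ W)
    (hx : x + v ∈ Wᗮ) (hx' : x' + v' ∈ Wᗮ) :
    (inner ℝ x x' : ℝ) = inner ℝ (x + v) (x' + v') + inner ℝ v v' := by
  have h1 : (inner ℝ v (x' + v') : ℝ) = 0 := (Submodule.mem_orthogonal W _).1 hx' v hv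
  have h2 : (inner ℝ v' (x + v) : ℝ) = 0 := (Submodule.mem_orthogonal W _).1 hx v' hv'
  rw [real_inner_comm] at h2
  rw [inner_add_right] at h1
  rw [inner_add_left] at h2
  rw [inner_add_left, inner_add_right, inner_add_right]
  linarith

end geometry

section scalar

/-- Sum of four exponentials. -/
lemma four_exp {L01 L03 L21 L23 M0 M1 M2 M3 : ℝ}
    (hM0 : M0 = (L01 + L03 + L21 + L23) / 4) (hM1 : M1 = (L01 + L03 - L21 - L23) / 4)
    (hM2 : M2 = (L01 + L21 - L03 - L23) / 4) (hM3 : M3 = (L01 + L23 - L03 - L21) / 4)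
    (h01 : |L01| ≤ 1 / 2) (h03 : |L03| ≤ 1 / 2) (h21 : |L21| ≤ 1 / 2) (h23 : |L23| ≤ 1 / 2) :
    4 * exp M0 * (1 + (|M1| + |M2| + |M3|) ^ 2 / 18) ≤ exp L01 + exp L03 + exp L21 + exp L23 := by
  obtain ⟨a1, a2⟩ := abs_le.1 h01
  obtain ⟨b1, b2⟩ := abs_le.1 h03
  obtain ⟨c1, c2⟩ := abs_le.1 h21
  obtain ⟨d1, d2⟩ := abs_le.1 h23
  have key : ∀ L : ℝ, |L - M0| ≤ 1 →
      exp M0 * (1 + (L - M0) + (L - M0) ^ 2 / 6) ≤ exp L := by
    intro L hL
    have h := sq_le_exp hL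
    have h' : exp L = exp M0 * exp (L - M0) := by rw [← exp_add]; ring_nf
    rw [h']
    exact mul_le_mul_of_nonneg_left (by linarith) (exp_pos _).le
  have k1 := key L01 (by rw [abs_le]; constructor <;> linarith)
  have k2 := key L03 (by rw [abs_le]; constructor <;> linarith)
  have k3 := key L21 (by rw [abs_le]; constructor <;> linarith)
  have k4 := key L23 (by rw [abs_le]; constructor <;> linarith)
  have hsq : (L01 - M0) ^ 2 + (L03 - M0) ^ 2 + (L21 - M0) ^ 2 + (L23 - M0) ^ 2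
      = 4 * (M1 ^ 2 + M2 ^ 2 + M3 ^ 2) := by
    rw [hM0, hM1, hM2, hM3]; ring
  have hsum : (L01 - M0) + (L03 - M0) + (L21 - M0) + (L23 - M0) = 0 := by rw [hM0]; ring
  have hcs : (|M1| + |M2| + |M3|) ^ 2 ≤ 3 * (M1 ^ 2 + M2 ^ 2 + M3 ^ 2) := by
    rw [← sq_abs M1, ← sq_abs M2, ← sq_abs M3]
    nlinarith [sq_nonneg (|M1| - |M2|), sq_nonneg (|M1| - |M3|), sq_nonneg (|M2| - |M3|)]
  have hfin : exp M0 * (1 + (L01 - M0) + (L01 - M0) ^ 2 / 6)
      + exp M0 * (1 + (L03 - M0) + (L03 - M0) ^ 2 / 6)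
      + exp M0 * (1 + (L21 - M0) + (L21 - M0) ^ 2 / 6)
      + exp M0 * (1 + (L23 - M0) + (L23 - M0) ^ 2 / 6)
      = exp M0 * (4 + 4 * (M1 ^ 2 + M2 ^ 2 + M3 ^ 2) / 6) := by
    rw [← hsq]
    linear_combination exp M0 * hsum
  have h5 : exp M0 * (4 + 4 * ((|M1| + |M2| + |M3|) ^ 2 / 3) / 6)
      ≤ exp M0 * (4 + 4 * (M1 ^ 2 + M2 ^ 2 + M3 ^ 2) / 6) :=
    mul_le_mul_of_nonneg_left (by linarith) (exp_pos _).le
  have h6 : exp M0 * (4 + 4 * ((|M1| + |M2| + |M3|) ^ 2 / 3) / 6)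
      = 4 * exp M0 * (1 + (|M1| + |M2| + |M3|) ^ 2 / 18) := by ring
  linarith

lemma exp_lip {a b c : ℝ} (ha : a ≤ c) (hb : b ≤ c) :
    |exp a - exp b| ≤ exp c * |a - b| := by
  have h1 := exp_tangent a b
  have h2 := exp_tangent b a
  have h3 : exp a ≤ exp c := exp_le_exp.2 ha
  have h4 : exp b ≤ exp c := exp_le_exp.2 hb
  have h5 : 0 < exp a := exp_pos a
  have h6 : 0 < exp b := exp_pos b
  rw [abs_le]
  rcases le_total a b with h | h
  · rw [abs_of_nonpos (by linarith : a - b ≤ 0)]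
    constructor
    · nlinarith
    · nlinarith
  · rw [abs_of_nonneg (by linarith : 0 ≤ a - b)]
    constructor
    · nlinarith
    · nlinarith

/-- inner products versus logarithms. -/
lemma g_lip {β g h : ℝ} (hβ : 100 ≤ β) (hg : g < 1) (hh : h < 1)
    (hgL : |(-β) * log (1 - g)| ≤ 1 / 2) (hhL : |(-β) * log (1 - h)| ≤ 1 / 2) :
    |g - h| ≤ 51 / 50 / β * |(-β) * log (1 - g) - (-β) * log (1 - h)| := by
  have hβ0 : 0 < β := by linarith
  have e1 : exp (log (1 - g)) = 1 - g := exp_log (by linarith)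
  have e2 : exp (log (1 - h)) = 1 - h := exp_log (by linarith)
  have h1 : g - h = exp (log (1 - h)) - exp (log (1 - g)) := by rw [e1, e2]; ring
  have b1 : ∀ t : ℝ, |(-β) * t| ≤ 1 / 2 → t ≤ 1 / 200 := by
    intro t ht
    have h3 := (abs_le.1 ht).1
    by_contra hcon
    push Not at hcon
    nlinarith
  have h2 := exp_lip (b1 _ hhL) (b1 _ hgL)
  have h3 : exp (1 / 200) ≤ 51 / 50 := by
    have := Real.exp_bound_div_one_sub_of_interval (x := 1 / 200) (by norm_num) (by norm_num)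
    refine this.trans (by norm_num)
  rw [h1]
  have h4 : (-β) * log (1 - g) - (-β) * log (1 - h) = β * (log (1 - h) - log (1 - g)) := by ring
  rw [h4, abs_mul, abs_of_pos hβ0]
  have h5 : 51 / 50 / β * (β * |log (1 - h) - log (1 - g)|) = 51 / 50 * |log (1 - h) - log (1 - g)| := by
    field_simp
  rw [h5]
  exact h2.trans (mul_le_mul_of_nonneg_right h3 (abs_nonneg _))

/-- Weighted concavity of the logarithm. -/
lemma log_weighted {β Ω ε δ g01 g03 g21 g23 : ℝ} (hβ : 0 < β) (hε : |ε| ≤ 1) (hδ : |δ| ≤ 1)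
    (hΩ : Ω < 1) (h01 : g01 < 1) (h03 : g03 < 1) (h21 : g21 < 1) (h23 : g23 < 1)
    (h : 4 * Ω ≤ (1 + ε) * (1 + δ) * g01 + (1 + ε) * (1 - δ) * g03
        + (1 - ε) * (1 + δ) * g21 + (1 - ε) * (1 - δ) * g23) :
    4 * (-β * log (1 - Ω)) ≤ (1 + ε) * (1 + δ) * (-β * log (1 - g01))
      + (1 + ε) * (1 - δ) * (-β * log (1 - g03))
      + (1 - ε) * (1 + δ) * (-β * log (1 - g21))
      + (1 - ε) * (1 - δ) * (-β * log (1 - g23)) := by
  obtain ⟨e1, e2⟩ := abs_le.1 hε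
  obtain ⟨d1, d2⟩ := abs_le.1 hδ
  have hc : 0 < 1 - Ω := by linarith
  have key : ∀ g : ℝ, g < 1 → log (1 - g) ≤ log (1 - Ω) + ((1 - g) / (1 - Ω) - 1) := by
    intro g hg
    have h1 := Real.log_le_sub_one_of_pos (show 0 < (1 - g) / (1 - Ω) by
      apply div_pos <;> linarith)
    rw [Real.log_div (by linarith) (by linarith)] at h1
    linarith
  have w1 : 0 ≤ (1 + ε) * (1 + δ) := mul_nonneg (by linarith) (by linarith)
  have w2 : 0 ≤ (1 + ε) * (1 - δ) := mul_nonneg (by linarith) (by linarith)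
  have w3 : 0 ≤ (1 - ε) * (1 + δ) := mul_nonneg (by linarith) (by linarith)
  have w4 : 0 ≤ (1 - ε) * (1 - δ) := mul_nonneg (by linarith) (by linarith)
  have k1 := mul_le_mul_of_nonneg_left (key g01 h01) w1
  have k2 := mul_le_mul_of_nonneg_left (key g03 h03) w2
  have k3 := mul_le_mul_of_nonneg_left (key g21 h21) w3
  have k4 := mul_le_mul_of_nonneg_left (key g23 h23) w4
  have hs : (1 + ε) * (1 + δ) * ((1 - g01) / (1 - Ω) - 1)
      + (1 + ε) * (1 - δ) * ((1 - g03) / (1 - Ω) - 1)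
      + (1 - ε) * (1 + δ) * ((1 - g21) / (1 - Ω) - 1)
      + (1 - ε) * (1 - δ) * ((1 - g23) / (1 - Ω) - 1) ≤ 0 := by
    have e : (1 + ε) * (1 + δ) * ((1 - g01) / (1 - Ω) - 1)
      + (1 + ε) * (1 - δ) * ((1 - g03) / (1 - Ω) - 1)
      + (1 - ε) * (1 + δ) * ((1 - g21) / (1 - Ω) - 1)
      + (1 - ε) * (1 - δ) * ((1 - g23) / (1 - Ω) - 1)
      = (4 * Ω - ((1 + ε) * (1 + δ) * g01 + (1 + ε) * (1 - δ) * g03
        + (1 - ε) * (1 + δ) * g21 + (1 - ε) * (1 - δ) * g23)) / (1 - Ω) := by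
      field_simp
      ring
    rw [e]
    exact div_nonpos_of_nonpos_of_nonneg (by linarith) hc.le
  have hfin : (1 + ε) * (1 + δ) * log (1 - g01) + (1 + ε) * (1 - δ) * log (1 - g03)
      + (1 - ε) * (1 + δ) * log (1 - g21) + (1 - ε) * (1 - δ) * log (1 - g23)
      ≤ 4 * log (1 - Ω) := by
    have e : (1 + ε) * (1 + δ) + (1 + ε) * (1 - δ) + (1 - ε) * (1 + δ) + (1 - ε) * (1 - δ) = 4 := by
      ring
    have e' : 4 * log (1 - Ω) = (1 + ε) * (1 + δ) * log (1 - Ω) + (1 + ε) * (1 - δ) * log (1 - Ω)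
      + (1 - ε) * (1 + δ) * log (1 - Ω) + (1 - ε) * (1 - δ) * log (1 - Ω) := by ring
    rw [e']
    linarith
  have := mul_le_mul_of_nonneg_left hfin hβ.le
  linarith

end scalar

end Pool.Agent.Riesz
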