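import Mathlib
import Pool.Agent.Riesz.Planar

set_option autoImplicit false

open Real Finset

namespace Pool.Agent.Riesz

/-- the size of the non-uniformity of four numbers. -/
noncomputable def muL (a b c d : ℝ) : ℝ :=
  |(a + b - c - d) / 4| + |(a + c - b - d) / 4| + |(a + d - b - c) / 4|

lemma muL_nonneg (a b c d : ℝ) : 0 ≤ muL a b c d := by unfold muL; positivity

section core

variable {V : Type*} [NormedAddCommGroup V] [InnerProductSpace ℝ V]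

/-- the size of the asymmetry of the four apex components. -/
noncomputable def RR (v0 v1 v2 v3 : V) : ℝ :=
  |inner ℝ (v0 - v2) (v1 + v3)| + |inner ℝ (v0 + v2) (v1 - v3)| + |inner ℝ (v0 - v2) (v1 - v3)|
    + |‖v0‖ ^ 2 - ‖v2‖ ^ 2| + |‖v1‖ ^ 2 - ‖v3‖ ^ 2|

lemma RR_nonneg (v0 v1 v2 v3 : V) : 0 ≤ RR v0 v1 v2 v3 := by unfold RR; positivity

/-- the mean of the four products. -/
noncomputable def Obar (v0 v1 v2 v3 : V) : ℝ := inner ℝ (v0 + v2) (v1 + v3) / 4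

lemma diag_norms {W : Submodule ℝ V} {x x' v v' : V} {η : ℝ}
    (hv : v ∈ W) (hv' : v' ∈ W) (hx : x + v ∈ Wᗮ) (hx' : x' + v' ∈ Wᗮ)
    (n : ‖x‖ = 1) (n' : ‖x'‖ = 1) (hg : inner ℝ x x' ≤ -1 + η) (hp : 0 ≤ (inner ℝ v v' : ℝ)) :
    ‖v + v'‖ ^ 2 ≤ 2 * η ∧ ‖v - v'‖ ^ 2 ≤ 2 * η ∧ ‖v‖ ^ 2 ≤ 2 * η ∧ ‖v'‖ ^ 2 ≤ 2 * η ∧
      4 - 4 * η ≤ ‖(x + v) - (x' + v')‖ ^ 2 := by
  have h1 : ‖x + x'‖ ^ 2 = 2 + 2 * inner ℝ x x' := by
    rw [norm_add_sq_real, n, n']; ring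
  have h2 : ‖x + x'‖ ^ 2 = ‖(x + x') + (v + v')‖ ^ 2 + ‖v + v'‖ ^ 2 := by
    have := inner_decomp (W := W) (x := x + x') (x' := x + x') (W.add_mem hv hv') (W.add_mem hv hv')
      (by rw [show x + x' + (v + v') = (x + v) + (x' + v') by abel]; exact Wᗮ.add_mem hx hx')
      (by rw [show x + x' + (v + v') = (x + v) + (x' + v') by abel]; exact Wᗮ.add_mem hx hx')
    rw [real_inner_self_eq_norm_sq, real_inner_self_eq_norm_sq, real_inner_self_eq_norm_sq] at this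
    exact this
  have h3 : ‖v + v'‖ ^ 2 ≤ 2 * η := by
    nlinarith [sq_nonneg ‖(x + x') + (v + v')‖]
  have h4 : ‖v + v'‖ ^ 2 = ‖v‖ ^ 2 + 2 * inner ℝ v v' + ‖v'‖ ^ 2 := norm_add_sq_real v v'
  have h5 : ‖v - v'‖ ^ 2 = ‖v‖ ^ 2 - 2 * inner ℝ v v' + ‖v'‖ ^ 2 := norm_sub_sq_real v v'
  have h6 : ‖x - x'‖ ^ 2 = 2 - 2 * inner ℝ x x' := by
    rw [norm_sub_sq_real, n, n']; ring
  have h7 : ‖x - x'‖ ^ 2 = ‖(x + v) - (x' + v')‖ ^ 2 + ‖v - v'‖ ^ 2 := by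
    have := inner_decomp (W := W) (x := x - x') (x' := x - x') (W.sub_mem hv hv') (W.sub_mem hv hv')
      (by rw [show x - x' + (v - v') = (x + v) - (x' + v') by abel]; exact Wᗮ.sub_mem hx hx')
      (by rw [show x - x' + (v - v') = (x + v) - (x' + v') by abel]; exact Wᗮ.sub_mem hx hx')
    rw [real_inner_self_eq_norm_sq, real_inner_self_eq_norm_sq, real_inner_self_eq_norm_sq,
      show x - x' + (v - v') = (x + v) - (x' + v') by abel] at this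
    exact this
  refine ⟨h3, ?_, ?_, ?_, ?_⟩
  · linarith
  · nlinarith [sq_nonneg ‖v'‖]
  · nlinarith [sq_nonneg ‖v‖]
  · nlinarith

lemma abs_inner_le_of_sq {a b : V} {η : ℝ} (ha : ‖a‖ ^ 2 ≤ 2 * η) (hb : ‖b‖ ^ 2 ≤ 2 * η) :
    |(inner ℝ a b : ℝ)| ≤ 2 * η := by
  refine (abs_real_inner_le_norm a b).trans ?_
  nlinarith [sq_nonneg (‖a‖ - ‖b‖)]

/-- abbreviation for `-β log (1 - g)`. -/
noncomputable def LL (β g : ℝ) : ℝ := -β * log (1 - g)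

lemma diff_bound {β g01 g03 g21 g23 : ℝ} (hβ : 100 ≤ β)
    (h01 : g01 < 1) (h03 : g03 < 1) (h21 : g21 < 1) (h23 : g23 < 1)
    (k01 : |LL β g01| ≤ 1 / 2) (k03 : |LL β g03| ≤ 1 / 2)
    (k21 : |LL β g21| ≤ 1 / 2) (k23 : |LL β g23| ≤ 1 / 2) :
    |g01 + g03 - g21 - g23| + |g01 + g21 - g03 - g23|
      ≤ 9 / β * muL (LL β g01) (LL β g03) (LL β g21) (LL β g23) := by
  have hβ0 : 0 < β := by linarith
  have a1 := g_lip hβ h01 h21 k01 k21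
  have a2 := g_lip hβ h03 h23 k03 k23
  have a3 := g_lip hβ h01 h03 k01 k03
  have a4 := g_lip hβ h21 h23 k21 k23
  change |g01 - g21| ≤ 51 / 50 / β * |LL β g01 - LL β g21| at a1
  change |g03 - g23| ≤ 51 / 50 / β * |LL β g03 - LL β g23| at a2
  change |g01 - g03| ≤ 51 / 50 / β * |LL β g01 - LL β g03| at a3
  change |g21 - g23| ≤ 51 / 50 / β * |LL β g21 - LL β g23| at a4
  set A := LL β g01
  set B := LL β g03
  set C := LL β g21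
  set D := LL β g23
  have t1 : |g01 + g03 - g21 - g23| ≤ |g01 - g21| + |g03 - g23| := by
    rw [show g01 + g03 - g21 - g23 = (g01 - g21) + (g03 - g23) by ring]; exact abs_add_le _ _
  have t2 : |g01 + g21 - g03 - g23| ≤ |g01 - g03| + |g21 - g23| := by
    rw [show g01 + g21 - g03 - g23 = (g01 - g03) + (g21 - g23) by ring]; exact abs_add_le _ _
  have s1 : |A - C| ≤ 2 * |(A + B - C - D) / 4| + 2 * |(A + D - B - C) / 4| := by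
    rw [show A - C = 2 * ((A + B - C - D) / 4) + 2 * ((A + D - B - C) / 4) by ring]
    refine (abs_add_le _ _).trans ?_
    rw [abs_mul, abs_mul, abs_of_pos (show (0 : ℝ) < 2 by norm_num)]
  have s2 : |B - D| ≤ 2 * |(A + B - C - D) / 4| + 2 * |(A + D - B - C) / 4| := by
    rw [show B - D = 2 * ((A + B - C - D) / 4) - 2 * ((A + D - B - C) / 4) by ring]
    refine (abs_sub _ _).trans ?_
    rw [abs_mul, abs_mul, abs_of_pos (show (0 : ℝ) < 2 by norm_num)]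
  have s3 : |A - B| ≤ 2 * |(A + C - B - D) / 4| + 2 * |(A + D - B - C) / 4| := by
    rw [show A - B = 2 * ((A + C - B - D) / 4) + 2 * ((A + D - B - C) / 4) by ring]
    refine (abs_add_le _ _).trans ?_
    rw [abs_mul, abs_mul, abs_of_pos (show (0 : ℝ) < 2 by norm_num)]
  have s4 : |C - D| ≤ 2 * |(A + C - B - D) / 4| + 2 * |(A + D - B - C) / 4| := by
    rw [show C - D = 2 * ((A + C - B - D) / 4) - 2 * ((A + D - B - C) / 4) by ring]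
    refine (abs_sub _ _).trans ?_
    rw [abs_mul, abs_mul, abs_of_pos (show (0 : ℝ) < 2 by norm_num)]
  have hc : 0 ≤ 51 / 50 / β := by positivity
  have hm0 := muL_nonneg A B C D
  unfold muL at hm0 ⊢
  set m1 := |(A + B - C - D) / 4|
  set m2 := |(A + C - B - D) / 4|
  set m3 := |(A + D - B - C) / 4|
  have m1n : 0 ≤ m1 := abs_nonneg _
  have m2n : 0 ≤ m2 := abs_nonneg _
  have m3n : 0 ≤ m3 := abs_nonneg _
  have tot : |g01 + g03 - g21 - g23| + |g01 + g21 - g03 - g23|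
      ≤ 51 / 50 / β * (4 * m1 + 4 * m2 + 8 * m3) := by
    have u1 := mul_le_mul_of_nonneg_left s1 hc
    have u2 := mul_le_mul_of_nonneg_left s2 hc
    have u3 := mul_le_mul_of_nonneg_left s3 hc
    have u4 := mul_le_mul_of_nonneg_left s4 hc
    linarith
  refine tot.trans ?_
  rw [show 51 / 50 / β * (4 * m1 + 4 * m2 + 8 * m3) = (51 / 50 * (4 * m1 + 4 * m2 + 8 * m3)) / β by ring,
    show 9 / β * (m1 + m2 + m3) = (9 * (m1 + m2 + m3)) / β by ring]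
  apply div_le_div_of_nonneg_right _ hβ0.le
  linarith

lemma omega_lower {ε δ e a b c d : ℝ} (he : |ε| + |δ| ≤ e) (he1 : e ≤ 1)
    (ha : 0 ≤ a) (hb : 0 ≤ b) (hc : 0 ≤ c) (hd : 0 ≤ d) :
    (1 - e) * ((a + b + c + d) / 4) ≤ ((1 + ε) * (1 + δ) * a + (1 + ε) * (1 - δ) * b
      + (1 - ε) * (1 + δ) * c + (1 - ε) * (1 - δ) * d) / 4 := by
  have e1 := neg_abs_le ε
  have e2 := le_abs_self ε
  have d1 := neg_abs_le δ
  have d2 := le_abs_self δ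
  have hε := abs_nonneg ε
  have hδ := abs_nonneg δ
  have key : ∀ s t : ℝ, 1 - |ε| ≤ s → 1 - |δ| ≤ t → 1 - e ≤ s * t := by
    intro s t hs ht
    have h1 : (1 - |ε|) * (1 - |δ|) ≤ s * t :=
      mul_le_mul hs ht (by linarith) (by linarith)
    nlinarith [mul_nonneg hε hδ]
  have k1 := mul_le_mul_of_nonneg_right (key (1 + ε) (1 + δ) (by linarith) (by linarith)) ha
  have k2 := mul_le_mul_of_nonneg_right (key (1 + ε) (1 - δ) (by linarith) (by linarith)) hb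
  have k3 := mul_le_mul_of_nonneg_right (key (1 - ε) (1 + δ) (by linarith) (by linarith)) hc
  have k4 := mul_le_mul_of_nonneg_right (key (1 - ε) (1 - δ) (by linarith) (by linarith)) hd
  linarith

lemma muL_le {a b c d m : ℝ} (ha : |a| ≤ m) (hb : |b| ≤ m) (hc : |c| ≤ m) (hd : |d| ≤ m) :
    muL a b c d ≤ 3 * m := by
  obtain ⟨a1, a2⟩ := abs_le.1 ha
  obtain ⟨b1, b2⟩ := abs_le.1 hb
  obtain ⟨c1, c2⟩ := abs_le.1 hc
  obtain ⟨d1, d2⟩ := abs_le.1 hd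
  have u1 : |(a + b - c - d) / 4| ≤ m := by rw [abs_le]; constructor <;> linarith
  have u2 : |(a + c - b - d) / 4| ≤ m := by rw [abs_le]; constructor <;> linarith
  have u3 : |(a + d - b - c) / 4| ≤ m := by rw [abs_le]; constructor <;> linarith
  unfold muL; linarith

lemma final_exp {β ε δ e Ω g01 g03 g21 g23 : ℝ} (hβ : 0 < β) (he : |ε| + |δ| ≤ e) (he1 : e ≤ 1)
    (hΩ : Ω < 1) (h01 : g01 < 1) (h03 : g03 < 1) (h21 : g21 < 1) (h23 : g23 < 1)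
    (k01 : |LL β g01| ≤ 1 / 2) (k03 : |LL β g03| ≤ 1 / 2)
    (k21 : |LL β g21| ≤ 1 / 2) (k23 : |LL β g23| ≤ 1 / 2)
    (h : 4 * Ω ≤ (1 + ε) * (1 + δ) * g01 + (1 + ε) * (1 - δ) * g03
        + (1 - ε) * (1 + δ) * g21 + (1 - ε) * (1 - δ) * g23) :
    4 * exp (LL β Ω - e * muL (LL β g01) (LL β g03) (LL β g21) (LL β g23)) *
      (1 + muL (LL β g01) (LL β g03) (LL β g21) (LL β g23) ^ 2 / 18)
      ≤ exp (LL β g01) + exp (LL β g03) + exp (LL β g21) + exp (LL β g23) := by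
  have hε := abs_nonneg ε
  have hδ := abs_nonneg δ
  have hlog := log_weighted hβ (by linarith : |ε| ≤ 1) (by linarith : |δ| ≤ 1) hΩ h01 h03 h21 h23 h
  change 4 * LL β Ω ≤ (1 + ε) * (1 + δ) * LL β g01 + (1 + ε) * (1 - δ) * LL β g03
    + (1 - ε) * (1 + δ) * LL β g21 + (1 - ε) * (1 - δ) * LL β g23 at hlog
  set A := LL β g01
  set B := LL β g03
  set C := LL β g21
  set D := LL β g23
  have hfour := four_exp (L01 := A) (L03 := B) (L21 := C) (L23 := D) rfl rfl rfl rfl k01 k03 k21 k23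
  change 4 * exp ((A + B + C + D) / 4) * (1 + (muL A B C D) ^ 2 / 18) ≤ _ at hfour
  refine le_trans ?_ hfour
  have hμ : muL A B C D = |(A + B - C - D) / 4| + |(A + C - B - D) / 4| + |(A + D - B - C) / 4| := rfl
  have hle : LL β Ω - e * muL A B C D ≤ (A + B + C + D) / 4 := by
    have e1 : (1 + ε) * (1 + δ) * A + (1 + ε) * (1 - δ) * B + (1 - ε) * (1 + δ) * C
        + (1 - ε) * (1 - δ) * D = (A + B + C + D) + 4 * (ε * ((A + B - C - D) / 4)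
        + δ * ((A + C - B - D) / 4) + ε * δ * ((A + D - B - C) / 4)) := by ring
    rw [e1] at hlog
    have w1 : ε * ((A + B - C - D) / 4) ≤ e * |(A + B - C - D) / 4| := by
      refine (le_abs_self _).trans ?_
      rw [abs_mul]; exact mul_le_mul_of_nonneg_right (by linarith) (abs_nonneg _)
    have w2 : δ * ((A + C - B - D) / 4) ≤ e * |(A + C - B - D) / 4| := by
      refine (le_abs_self _).trans ?_
      rw [abs_mul]; exact mul_le_mul_of_nonneg_right (by linarith) (abs_nonneg _)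
    have w3 : ε * δ * ((A + D - B - C) / 4) ≤ e * |(A + D - B - C) / 4| := by
      refine (le_abs_self _).trans ?_
      rw [abs_mul]
      apply mul_le_mul_of_nonneg_right _ (abs_nonneg _)
      rw [abs_mul]
      nlinarith
    rw [hμ]
    linarith
  have hexp : exp (LL β Ω - e * muL A B C D) ≤ exp ((A + B + C + D) / 4) := exp_le_exp.2 hle
  have h18 : 0 ≤ 1 + muL A B C D ^ 2 / 18 := by positivity
  exact mul_le_mul_of_nonneg_right (by linarith) h18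

lemma LL_small {β g : ℝ} (hβ : 1000 ≤ β) (hg : g < 1) (hk : |LL β g| ≤ 1 / 1000) :
    |g| ≤ 1 / 1000 := by
  have hβ0 : 0 < β := by linarith
  have h0 : LL β 0 = 0 := by unfold LL; simp
  have h1 := g_lip (β := β) (g := g) (h := 0) (by linarith) hg (by norm_num)
    (by change |LL β g| ≤ 1 / 2; linarith) (by change |LL β 0| ≤ 1 / 2; rw [h0]; norm_num)
  change |g - 0| ≤ 51 / 50 / β * |LL β g - LL β 0| at h1
  rw [h0, sub_zero, sub_zero] at h1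
  have h2 : 51 / 50 / β ≤ 1 := by
    rw [div_le_one hβ0]; linarith
  calc |g| ≤ 51 / 50 / β * |LL β g| := h1
    _ ≤ 1 * |LL β g| := mul_le_mul_of_nonneg_right h2 (abs_nonneg _)
    _ ≤ 1 / 1000 := by linarith

/-- the geometric part of the core estimate. -/
lemma core_geom {W : Submodule ℝ V} (hU : Module.finrank ℝ Wᗮ = 2) {η : ℝ}
    (hη : η ≤ 1 / 100) {x0 x1 x2 x3 v0 v1 v2 v3 : V}
    (hv0 : v0 ∈ W) (hv1 : v1 ∈ W) (hv2 : v2 ∈ W) (hv3 : v3 ∈ W)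
    (hx0 : x0 + v0 ∈ Wᗮ) (hx1 : x1 + v1 ∈ Wᗮ) (hx2 : x2 + v2 ∈ Wᗮ) (hx3 : x3 + v3 ∈ Wᗮ)
    (n0 : ‖x0‖ = 1) (n1 : ‖x1‖ = 1) (n2 : ‖x2‖ = 1) (n3 : ‖x3‖ = 1)
    (b01 : |(inner ℝ x0 x1 : ℝ)| ≤ 1 / 1000) (b03 : |(inner ℝ x0 x3 : ℝ)| ≤ 1 / 1000)
    (b21 : |(inner ℝ x2 x1 : ℝ)| ≤ 1 / 1000) (b23 : |(inner ℝ x2 x3 : ℝ)| ≤ 1 / 1000)
    (h02 : inner ℝ x0 x2 ≤ -1 + η) (h13 : inner ℝ x1 x3 ≤ -1 + η)
    (p02 : 0 ≤ (inner ℝ v0 v2 : ℝ)) (p13 : 0 ≤ (inner ℝ v1 v3 : ℝ)) :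
    ∃ ε δ : ℝ, |ε| + |δ| ≤ 27 / 100 * (|inner ℝ x0 x1 + inner ℝ x0 x3 - inner ℝ x2 x1
      - (inner ℝ x2 x3 : ℝ)| + |inner ℝ x0 x1 + inner ℝ x2 x1 - inner ℝ x0 x3
      - (inner ℝ x2 x3 : ℝ)| + RR v0 v1 v2 v3) ∧
      ((1 + ε) * (1 + δ) * inner ℝ v0 v1 + (1 + ε) * (1 - δ) * inner ℝ v0 v3
        + (1 - ε) * (1 + δ) * inner ℝ v2 v1 + (1 - ε) * (1 - δ) * inner ℝ v2 v3)
      ≤ (1 + ε) * (1 + δ) * inner ℝ x0 x1 + (1 + ε) * (1 - δ) * inner ℝ x0 x3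
        + (1 - ε) * (1 + δ) * inner ℝ x2 x1 + (1 - ε) * (1 - δ) * inner ℝ x2 x3 := by
  obtain ⟨s02, d02, nv0, nv2, D02⟩ := diag_norms hv0 hv2 hx0 hx2 n0 n2 h02 p02
  obtain ⟨s13, d13, nv1, nv3, D13⟩ := diag_norms hv1 hv3 hx1 hx3 n1 n3 h13 p13
  have r3 : |(inner ℝ (v0 - v2) (v1 - v3) : ℝ)| ≤ 2 * η := abs_inner_le_of_sq d02 d13
  have ex02 : x0 - x2 + (v0 - v2) = (x0 + v0) - (x2 + v2) := by abel
  have ex13 : x1 - x3 + (v1 - v3) = (x1 + v1) - (x3 + v3) := by abel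
  have ey02 : x0 + x2 + (v0 + v2) = (x0 + v0) + (x2 + v2) := by abel
  have ey13 : x1 + x3 + (v1 + v3) = (x1 + v1) + (x3 + v3) := by abel
  have mx02 : x0 - x2 + (v0 - v2) ∈ Wᗮ := by rw [ex02]; exact Wᗮ.sub_mem hx0 hx2
  have mx13 : x1 - x3 + (v1 - v3) ∈ Wᗮ := by rw [ex13]; exact Wᗮ.sub_mem hx1 hx3
  have my02 : x0 + x2 + (v0 + v2) ∈ Wᗮ := by rw [ey02]; exact Wᗮ.add_mem hx0 hx2
  have my13 : x1 + x3 + (v1 + v3) ∈ Wᗮ := by rw [ey13]; exact Wᗮ.add_mem hx1 hx3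
  have hDE : |(inner ℝ ((x0 + v0) - (x2 + v2)) ((x1 + v1) - (x3 + v3)) : ℝ)| ≤ 1 / 10 := by
    have h1 := inner_decomp (W.sub_mem hv0 hv2) (W.sub_mem hv1 hv3) mx02 mx13
    rw [ex02, ex13] at h1
    have h2 : (inner ℝ (x0 - x2) (x1 - x3) : ℝ)
        = inner ℝ x0 x1 - inner ℝ x0 x3 - inner ℝ x2 x1 + inner ℝ x2 x3 := by
      rw [inner_sub_left, inner_sub_right, inner_sub_right]; ring
    obtain ⟨h3, h3'⟩ := abs_le.1 r3
    obtain ⟨c1, c1'⟩ := abs_le.1 b01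
    obtain ⟨c2, c2'⟩ := abs_le.1 b03
    obtain ⟨c3, c3'⟩ := abs_le.1 b21
    obtain ⟨c4, c4'⟩ := abs_le.1 b23
    rw [abs_le]
    constructor <;> linarith
  obtain ⟨ε, δ, hεδ, hpos⟩ := planar_weights hU hx0 hx1 hx2 hx3 (by linarith) (by linarith) hDE
  refine ⟨ε, δ, ?_, ?_⟩
  · have hX1 : (inner ℝ ((x1 + v1) + (x3 + v3)) ((x0 + v0) - (x2 + v2)) : ℝ)
        = (inner ℝ x0 x1 + inner ℝ x0 x3 - inner ℝ x2 x1 - inner ℝ x2 x3)
          - inner ℝ (v0 - v2) (v1 + v3) := by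
      have h1 := inner_decomp (W.add_mem hv1 hv3) (W.sub_mem hv0 hv2) my13 mx02
      rw [ex02, ey13] at h1
      have h2 : (inner ℝ (x1 + x3) (x0 - x2) : ℝ)
          = inner ℝ x0 x1 + inner ℝ x0 x3 - inner ℝ x2 x1 - inner ℝ x2 x3 := by
        rw [inner_add_left, inner_sub_right, inner_sub_right]
        rw [real_inner_comm x0 x1, real_inner_comm x0 x3, real_inner_comm x2 x1,
          real_inner_comm x2 x3]
        ring
      rw [real_inner_comm (v1 + v3) (v0 - v2)]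
      linarith
    have hX2 : (inner ℝ ((x0 + v0) + (x2 + v2)) ((x1 + v1) - (x3 + v3)) : ℝ)
        = (inner ℝ x0 x1 + inner ℝ x2 x1 - inner ℝ x0 x3 - inner ℝ x2 x3)
          - inner ℝ (v0 + v2) (v1 - v3) := by
      have h1 := inner_decomp (W.add_mem hv0 hv2) (W.sub_mem hv1 hv3) my02 mx13
      rw [ey02, ex13] at h1
      have h2 : (inner ℝ (x0 + x2) (x1 - x3) : ℝ)
          = inner ℝ x0 x1 + inner ℝ x2 x1 - inner ℝ x0 x3 - inner ℝ x2 x3 := by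
        rw [inner_add_left, inner_sub_right, inner_sub_right]; ring
      linarith
    have hnorm : ∀ {x v : V}, ‖x‖ = 1 → v ∈ W → x + v ∈ Wᗮ → ‖x + v‖ ^ 2 = 1 - ‖v‖ ^ 2 := by
      intro x v hx hv hxv
      have h1 := inner_decomp hv hv hxv hxv
      rw [real_inner_self_eq_norm_sq, real_inner_self_eq_norm_sq, real_inner_self_eq_norm_sq,
        hx] at h1
      linarith
    have hX3 : |‖x0 + v0‖ ^ 2 - ‖x2 + v2‖ ^ 2| = |‖v0‖ ^ 2 - ‖v2‖ ^ 2| := by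
      rw [hnorm n0 hv0 hx0, hnorm n2 hv2 hx2, ← abs_neg]; congr 1; ring
    have hX4 : |‖x1 + v1‖ ^ 2 - ‖x3 + v3‖ ^ 2| = |‖v1‖ ^ 2 - ‖v3‖ ^ 2| := by
      rw [hnorm n1 hv1 hx1, hnorm n3 hv3 hx3, ← abs_neg]; congr 1; ring
    rw [hX1, hX2, hX3, hX4] at hεδ
    have t1 := abs_sub (inner ℝ x0 x1 + inner ℝ x0 x3 - inner ℝ x2 x1 - (inner ℝ x2 x3 : ℝ))
      (inner ℝ (v0 - v2) (v1 + v3))
    have t2 := abs_sub (inner ℝ x0 x1 + inner ℝ x2 x1 - inner ℝ x0 x3 - (inner ℝ x2 x3 : ℝ))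
      (inner ℝ (v0 + v2) (v1 - v3))
    have hRdef : RR v0 v1 v2 v3 = |inner ℝ (v0 - v2) (v1 + v3)| + |inner ℝ (v0 + v2) (v1 - v3)|
      + |inner ℝ (v0 - v2) (v1 - v3)| + |‖v0‖ ^ 2 - ‖v2‖ ^ 2| + |‖v1‖ ^ 2 - ‖v3‖ ^ 2| := rfl
    have hr3 := abs_nonneg (inner ℝ (v0 - v2) (v1 - v3) : ℝ)
    linarith
  · have f01 := inner_decomp hv0 hv1 hx0 hx1
    have f03 := inner_decomp hv0 hv3 hx0 hx3
    have f21 := inner_decomp hv2 hv1 hx2 hx1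
    have f23 := inner_decomp hv2 hv3 hx2 hx3
    rw [f01, f03, f21, f23]
    linarith

lemma RR_le {v0 v1 v2 v3 : V} {η : ℝ} (s02 : ‖v0 + v2‖ ^ 2 ≤ 2 * η) (d02 : ‖v0 - v2‖ ^ 2 ≤ 2 * η)
    (nv0 : ‖v0‖ ^ 2 ≤ 2 * η) (nv2 : ‖v2‖ ^ 2 ≤ 2 * η)
    (s13 : ‖v1 + v3‖ ^ 2 ≤ 2 * η) (d13 : ‖v1 - v3‖ ^ 2 ≤ 2 * η)
    (nv1 : ‖v1‖ ^ 2 ≤ 2 * η) (nv3 : ‖v3‖ ^ 2 ≤ 2 * η) : RR v0 v1 v2 v3 ≤ 10 * η := by
  have r1 : |(inner ℝ (v0 - v2) (v1 + v3) : ℝ)| ≤ 2 * η := abs_inner_le_of_sq d02 s13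
  have r2 : |(inner ℝ (v0 + v2) (v1 - v3) : ℝ)| ≤ 2 * η := abs_inner_le_of_sq s02 d13
  have r3 : |(inner ℝ (v0 - v2) (v1 - v3) : ℝ)| ≤ 2 * η := abs_inner_le_of_sq d02 d13
  have r4 : |‖v0‖ ^ 2 - ‖v2‖ ^ 2| ≤ 2 * η := by
    rw [abs_le]; constructor <;> linarith [sq_nonneg ‖v0‖, sq_nonneg ‖v2‖]
  have r5 : |‖v1‖ ^ 2 - ‖v3‖ ^ 2| ≤ 2 * η := by
    rw [abs_le]; constructor <;> linarith [sq_nonneg ‖v1‖, sq_nonneg ‖v3‖]
  unfold RR; linarith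

lemma Obar_eq (v0 v1 v2 v3 : V) : Obar v0 v1 v2 v3
      = (inner ℝ v0 v1 + inner ℝ v0 v3 + inner ℝ v2 v1 + inner ℝ v2 v3) / 4 := by
  unfold Obar
  simp only [inner_add_left, inner_add_right]
  ring

lemma omega_diff (v0 v1 v2 v3 : V) (ε δ : ℝ) :
    ((1 + ε) * (1 + δ) * inner ℝ v0 v1 + (1 + ε) * (1 - δ) * inner ℝ v0 v3
        + (1 - ε) * (1 + δ) * inner ℝ v2 v1 + (1 - ε) * (1 - δ) * inner ℝ v2 v3) / 4
        - Obar v0 v1 v2 v3 = (ε * inner ℝ (v0 - v2) (v1 + v3)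
        + δ * inner ℝ (v0 + v2) (v1 - v3) + ε * δ * inner ℝ (v0 - v2) (v1 - v3)) / 4 := by
  rw [Obar_eq]
  simp only [inner_add_left, inner_add_right, inner_sub_left, inner_sub_right]
  ring

/-- The core planar estimate. -/
lemma adj_core {W : Submodule ℝ V} (hU : Module.finrank ℝ Wᗮ = 2) {β η : ℝ}
    (hβ : 1000 ≤ β) (hη : η ≤ 1 / 100) {x0 x1 x2 x3 v0 v1 v2 v3 : V}
    (hv0 : v0 ∈ W) (hv1 : v1 ∈ W) (hv2 : v2 ∈ W) (hv3 : v3 ∈ W)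
    (hx0 : x0 + v0 ∈ Wᗮ) (hx1 : x1 + v1 ∈ Wᗮ) (hx2 : x2 + v2 ∈ Wᗮ) (hx3 : x3 + v3 ∈ Wᗮ)
    (n0 : ‖x0‖ = 1) (n1 : ‖x1‖ = 1) (n2 : ‖x2‖ = 1) (n3 : ‖x3‖ = 1)
    (k01 : |LL β (inner ℝ x0 x1)| ≤ 1 / 1000) (k03 : |LL β (inner ℝ x0 x3)| ≤ 1 / 1000)
    (k21 : |LL β (inner ℝ x2 x1)| ≤ 1 / 1000) (k23 : |LL β (inner ℝ x2 x3)| ≤ 1 / 1000)
    (l01 : (inner ℝ x0 x1 : ℝ) < 1) (l03 : (inner ℝ x0 x3 : ℝ) < 1)
    (l21 : (inner ℝ x2 x1 : ℝ) < 1) (l23 : (inner ℝ x2 x3 : ℝ) < 1)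
    (h02 : inner ℝ x0 x2 ≤ -1 + η) (h13 : inner ℝ x1 x3 ≤ -1 + η)
    (p02 : 0 ≤ (inner ℝ v0 v2 : ℝ)) (p13 : 0 ≤ (inner ℝ v1 v3 : ℝ))
    (p01 : 0 ≤ (inner ℝ v0 v1 : ℝ)) (p03 : 0 ≤ (inner ℝ v0 v3 : ℝ))
    (p21 : 0 ≤ (inner ℝ v2 v1 : ℝ)) (p23 : 0 ≤ (inner ℝ v2 v3 : ℝ)) :
    ∃ e Ω : ℝ, 0 ≤ e ∧
      e ≤ 3 / β * muL (LL β (inner ℝ x0 x1)) (LL β (inner ℝ x0 x3)) (LL β (inner ℝ x2 x1))
        (LL β (inner ℝ x2 x3)) + 3 / 10 * RR v0 v1 v2 v3 ∧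
      |Ω - Obar v0 v1 v2 v3| ≤ e * RR v0 v1 v2 v3 / 4 ∧
      (1 - e) * Obar v0 v1 v2 v3 ≤ Ω ∧ Ω ≤ 1 / 50 ∧
      4 * exp (LL β Ω - e * muL (LL β (inner ℝ x0 x1)) (LL β (inner ℝ x0 x3))
        (LL β (inner ℝ x2 x1)) (LL β (inner ℝ x2 x3))) *
        (1 + muL (LL β (inner ℝ x0 x1)) (LL β (inner ℝ x0 x3)) (LL β (inner ℝ x2 x1))
        (LL β (inner ℝ x2 x3)) ^ 2 / 18)
      ≤ exp (LL β (inner ℝ x0 x1)) + exp (LL β (inner ℝ x0 x3)) + exp (LL β (inner ℝ x2 x1))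
        + exp (LL β (inner ℝ x2 x3)) := by
  have hβ0 : 0 < β := by linarith
  obtain ⟨s02, d02, nv0, nv2, -⟩ := diag_norms hv0 hv2 hx0 hx2 n0 n2 h02 p02
  obtain ⟨s13, d13, nv1, nv3, -⟩ := diag_norms hv1 hv3 hx1 hx3 n1 n3 h13 p13
  have hR : RR v0 v1 v2 v3 ≤ 10 * η := RR_le s02 d02 nv0 nv2 s13 d13 nv1 nv3
  have hR0 := RR_nonneg v0 v1 v2 v3
  obtain ⟨ε, δ, hεδ, hpos⟩ := core_geom hU hη hv0 hv1 hv2 hv3 hx0 hx1 hx2 hx3 n0 n1 n2 n3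
    (LL_small hβ l01 k01) (LL_small hβ l03 k03) (LL_small hβ l21 k21) (LL_small hβ l23 k23)
    h02 h13 p02 p13
  have hGdiff := diff_bound (β := β) (by linarith) l01 l03 l21 l23 (by linarith) (by linarith)
    (by linarith) (by linarith)
  have hμ1 := muL_le k01 k03 k21 k23
  have hμ0 := muL_nonneg (LL β (inner ℝ x0 x1)) (LL β (inner ℝ x0 x3)) (LL β (inner ℝ x2 x1))
        (LL β (inner ℝ x2 x3))
  have hfin := fun (e Ω : ℝ) => final_exp (e := e) (Ω := Ω) (ε := ε) (δ := δ) hβ0 (h01 := l01)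
    (h03 := l03) (h21 := l21) (h23 := l23) (k01 := by linarith) (k03 := by linarith)
    (k21 := by linarith) (k23 := by linarith)
  generalize muL (LL β (inner ℝ x0 x1)) (LL β (inner ℝ x0 x3)) (LL β (inner ℝ x2 x1))
        (LL β (inner ℝ x2 x3)) = μ at *
  have he : |ε| + |δ| ≤ 3 / β * μ + 3 / 10 * RR v0 v1 v2 v3 := by
    have h2 : 27 / 100 * (9 / β * μ) ≤ 3 / β * μ := by
      rw [show 27 / 100 * (9 / β * μ) = (243 / 100) * (μ / β) by ring,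
        show 3 / β * μ = 3 * (μ / β) by ring]
      apply mul_le_mul_of_nonneg_right (by norm_num) (by positivity)
    linarith
  have he1 : |ε| + |δ| ≤ 1 / 20 := by
    have h1 : 3 / β * μ ≤ 1 * μ := by
      apply mul_le_mul_of_nonneg_right _ hμ0
      rw [div_le_one hβ0]; linarith
    linarith
  have hε0 := abs_nonneg ε
  have hδ0 := abs_nonneg δ
  have hΩR : |((1 + ε) * (1 + δ) * inner ℝ v0 v1 + (1 + ε) * (1 - δ) * inner ℝ v0 v3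
        + (1 - ε) * (1 + δ) * inner ℝ v2 v1 + (1 - ε) * (1 - δ) * inner ℝ v2 v3) / 4
        - Obar v0 v1 v2 v3| ≤ (|ε| + |δ|) * RR v0 v1 v2 v3 / 4 := by
    rw [omega_diff, abs_div, abs_of_pos (show (0 : ℝ) < 4 by norm_num)]
    apply div_le_div_of_nonneg_right _ (by norm_num)
    refine (abs_add_three _ _ _).trans ?_
    rw [abs_mul, abs_mul δ, abs_mul (ε * δ)]
    have w1 := mul_le_mul_of_nonneg_right (show |ε| ≤ |ε| + |δ| by linarith)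
      (abs_nonneg (inner ℝ (v0 - v2) (v1 + v3) : ℝ))
    have w2 := mul_le_mul_of_nonneg_right (show |δ| ≤ |ε| + |δ| by linarith)
      (abs_nonneg (inner ℝ (v0 + v2) (v1 - v3) : ℝ))
    have w3 := mul_le_mul_of_nonneg_right (show |ε * δ| ≤ |ε| + |δ| by rw [abs_mul]; nlinarith)
      (abs_nonneg (inner ℝ (v0 - v2) (v1 - v3) : ℝ))
    have w4 := mul_nonneg (show 0 ≤ |ε| + |δ| by linarith) (abs_nonneg (‖v0‖ ^ 2 - ‖v2‖ ^ 2))
    have w5 := mul_nonneg (show 0 ≤ |ε| + |δ| by linarith) (abs_nonneg (‖v1‖ ^ 2 - ‖v3‖ ^ 2))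
    unfold RR
    linarith
  have hObs : Obar v0 v1 v2 v3 ≤ 1 / 100 := by
    have := (abs_le.1 (abs_inner_le_of_sq s02 s13)).2
    unfold Obar; linarith
  have hΩs : ((1 + ε) * (1 + δ) * inner ℝ v0 v1 + (1 + ε) * (1 - δ) * inner ℝ v0 v3
        + (1 - ε) * (1 + δ) * inner ℝ v2 v1 + (1 - ε) * (1 - δ) * inner ℝ v2 v3) / 4 ≤ 1 / 50 := by
    have h1 := (abs_le.1 hΩR).2
    have h2 : (|ε| + |δ|) * RR v0 v1 v2 v3 ≤ 1 / 20 * (1 / 10) :=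
      mul_le_mul he1 (by linarith) hR0 (by norm_num)
    linarith
  refine ⟨|ε| + |δ|, ((1 + ε) * (1 + δ) * inner ℝ v0 v1 + (1 + ε) * (1 - δ) * inner ℝ v0 v3
        + (1 - ε) * (1 + δ) * inner ℝ v2 v1 + (1 - ε) * (1 - δ) * inner ℝ v2 v3) / 4,
    by linarith, he, hΩR, ?_, hΩs, ?_⟩
  · rw [Obar_eq]
    exact omega_lower le_rfl (by linarith) p01 p03 p21 p23
  · apply hfin
    · exact le_rfl
    · linarith
    · linarith
    · linarith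

end core

end Pool.Agent.Riesz
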