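import Mathlib
import Pool.Agent.Riesz.Core

set_option autoImplicit false

open Real Finset

namespace Pool.Agent.Riesz

lemma scal_crude {β e μ R Ω O S : ℝ} (hβ : 1000 ≤ β) (he0 : 0 ≤ e) (hμ0 : 0 ≤ μ)
    (hμ : μ ≤ 3 / 1000) (hR0 : 0 ≤ R) (hR : R ≤ 1 / 10) (he : e ≤ 3 / β * μ + 3 / 10 * R)
    (hO : (1 - e) * O ≤ Ω) (hO0 : 0 ≤ O) (hΩ : Ω ≤ 1 / 50)
    (hS : 4 * exp (LL β Ω - e * μ) * (1 + μ ^ 2 / 18) ≤ S) :
    4 * (1 + (1 - e) * (β * O) - R ^ 2) ≤ S := by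
  have hβ0 : 0 < β := by linarith
  refine le_trans ?_ hS
  have h1 : β * Ω ≤ LL β Ω := by
    have := le_neg_log (show Ω < 1 by linarith)
    unfold LL; nlinarith
  have h2 : (LL β Ω - e * μ) + 1 ≤ exp (LL β Ω - e * μ) := add_one_le_exp _
  have h3 : (1 - e) * (β * O) ≤ β * Ω := by nlinarith
  have h3β : 3 / β ≤ 3 / 1000 := div_le_div_of_nonneg_left (by norm_num) (by norm_num) hβ
  have h4 : e * μ ≤ 3 / 1000 * μ ^ 2 + 3 / 10 * R * μ := by
    have : e * μ ≤ (3 / 1000 * μ + 3 / 10 * R) * μ := by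
      apply mul_le_mul_of_nonneg_right _ hμ0
      have := mul_le_mul_of_nonneg_right h3β hμ0
      linarith
    nlinarith
  have h5 : 3 / 10 * R * μ ≤ 1 / 20 * μ ^ 2 + 9 / 20 * R ^ 2 := by
    nlinarith [sq_nonneg (μ - 3 * R)]
  have h6 : e ≤ 1 := by
    have := mul_le_mul_of_nonneg_right h3β hμ0
    linarith
  have h7 : 0 ≤ (1 - e) * (β * O) := mul_nonneg (by linarith) (mul_nonneg hβ0.le hO0)
  have h8 : 1 + (1 - e) * (β * O) - e * μ ≤ exp (LL β Ω - e * μ) := by linarith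
  have h9 : (1 + (1 - e) * (β * O) - e * μ) * (1 + μ ^ 2 / 18)
      ≤ exp (LL β Ω - e * μ) * (1 + μ ^ 2 / 18) :=
    mul_le_mul_of_nonneg_right h8 (by positivity)
  have hμ2 : μ ^ 2 ≤ 1 / 1000 := by nlinarith
  have h10 : (e * μ) * (μ ^ 2 / 18) ≤ (3 / 1000 * μ ^ 2 + 3 / 10 * R * μ) * (1 / 1000) := by
    have : 0 ≤ e * μ := mul_nonneg he0 hμ0
    apply mul_le_mul h4 (by linarith) (by positivity) (by positivity)
  have h11 : 0 ≤ (1 - e) * (β * O) * (μ ^ 2 / 18) := mul_nonneg h7 (by positivity)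
  nlinarith

lemma LL_shift {β a b : ℝ} (hβ : 0 < β) (ha : a < 1) (hb : b ≤ 1 / 50) :
    LL β b - 13 / 12 * β * |a - b| ≤ LL β a := by
  have hc : 0 < 1 - b := by linarith
  have h1 := Real.log_le_sub_one_of_pos (show 0 < (1 - a) / (1 - b) by
      apply div_pos <;> linarith)
  rw [Real.log_div (by linarith) (by linarith)] at h1
  have h2 : (1 - a) / (1 - b) - 1 = (b - a) / (1 - b) := by field_simp; ring
  rw [h2] at h1
  have h3 : (b - a) / (1 - b) ≤ 13 / 12 * |a - b| := by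
    rw [div_le_iff₀ hc]
    have h4 : b - a ≤ |a - b| := by rw [abs_sub_comm]; exact le_abs_self _
    nlinarith [abs_nonneg (a - b)]
  unfold LL
  nlinarith

lemma scal_fine {β e μ R Ω O S : ℝ} (hβ : 1000 ≤ β) (he0 : 0 ≤ e) (hμ0 : 0 ≤ μ)
    (hμ : μ ≤ 3 / 1000) (hR0 : 0 ≤ R) (he : e ≤ 3 / β * μ + 3 / 10 * R)
    (hO : |Ω - O| ≤ e * R / 4) (hΩ : Ω ≤ 1 / 50) (hO1 : O ≤ 1 / 50)
    (hS : 4 * exp (LL β Ω - e * μ) * (1 + μ ^ 2 / 18) ≤ S) :
    4 * exp (LL β O) * (1 + μ ^ 2 / 50 - β * R ^ 2) ≤ S := by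
  have hβ0 : 0 < β := by linarith
  refine le_trans ?_ hS
  have h1 := LL_shift hβ0 (show Ω < 1 by linarith) hO1
  set x := e * (μ + 7 / 25 * β * R) with hx
  have h2 : LL β O - x ≤ LL β Ω - e * μ := by
    have h3 : 13 / 12 * β * |Ω - O| ≤ 13 / 12 * β * (e * R / 4) :=
      mul_le_mul_of_nonneg_left hO (by positivity)
    have h4 : 0 ≤ β * (e * R) := by positivity
    have h5 : x = e * μ + 7 / 25 * (β * (e * R)) := by rw [hx]; ring
    rw [h5]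
    linarith
  have h3 : exp (LL β O) * (1 - x) ≤ exp (LL β Ω - e * μ) := by
    have h4 : exp (LL β O - x) ≤ exp (LL β Ω - e * μ) := exp_le_exp.2 h2
    have h5 : exp (LL β O - x) = exp (LL β O) * exp (-x) := by rw [← exp_add]; ring_nf
    have h6 : 1 - x ≤ exp (-x) := by linarith [add_one_le_exp (-x)]
    rw [h5] at h4
    exact (mul_le_mul_of_nonneg_left h6 (exp_pos _).le).trans h4
  have h3β : 3 / β ≤ 3 / 1000 := div_le_div_of_nonneg_left (by norm_num) (by norm_num) hβ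
  have hx0 : 0 ≤ x := by rw [hx]; positivity
  have hxle : x ≤ 23 / 1000 * μ ^ 2 + 11 / 100 * β * R ^ 2 := by
    have h4 : x ≤ (3 / β * μ + 3 / 10 * R) * (μ + 7 / 25 * β * R) :=
      mul_le_mul_of_nonneg_right he (by positivity)
    have h5 : (3 / β * μ + 3 / 10 * R) * (μ + 7 / 25 * β * R)
        = 3 / β * μ ^ 2 + 57 / 50 * (μ * R) + 21 / 250 * β * R ^ 2 := by
      field_simp
      ring
    have h6 : 57 / 50 * (μ * R) ≤ 2 / 100 * μ ^ 2 + 17 * R ^ 2 := by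
      nlinarith [sq_nonneg (μ - 57 / 2 * R)]
    have h7 : 3 / β * μ ^ 2 ≤ 3 / 1000 * μ ^ 2 := mul_le_mul_of_nonneg_right h3β (sq_nonneg _)
    have h8 : 17 * R ^ 2 ≤ 17 / 1000 * β * R ^ 2 := by nlinarith [sq_nonneg R]
    have h9 : 0 ≤ β * R ^ 2 := by positivity
    rw [h5] at h4
    linarith
  have hμ2 : μ ^ 2 ≤ 1 / 1000 := by nlinarith
  have h9 : 0 ≤ β * R ^ 2 := by positivity
  have hx2 : x * (μ ^ 2 / 18) ≤ (23 / 1000 * μ ^ 2 + 11 / 100 * β * R ^ 2) * (1 / 1000) :=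
    mul_le_mul hxle (by linarith) (by positivity) (by positivity)
  have h10 : 1 + μ ^ 2 / 50 - β * R ^ 2 ≤ (1 - x) * (1 + μ ^ 2 / 18) := by nlinarith
  have h11 : exp (LL β O) * (1 + μ ^ 2 / 50 - β * R ^ 2)
      ≤ exp (LL β O) * ((1 - x) * (1 + μ ^ 2 / 18)) :=
    mul_le_mul_of_nonneg_left h10 (exp_pos _).le
  have h12 : exp (LL β O) * (1 - x) * (1 + μ ^ 2 / 18)
      ≤ exp (LL β Ω - e * μ) * (1 + μ ^ 2 / 18) :=
    mul_le_mul_of_nonneg_right h3 (by positivity)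
  linarith

end Pool.Agent.Riesz
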