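import Mathlib
import Pool.Agent.Riesz.Core2

set_option autoImplicit false

open Real Finset

namespace Pool.Agent.Riesz

/-- `G β g = (1 - g)^(-β)` for `g < 1`. -/
noncomputable def G (β g : ℝ) : ℝ := exp (LL β g)

lemma G_pos (β g : ℝ) : 0 < G β g := exp_pos _

lemma G_eq {β g : ℝ} (hg : g < 1) : G β g = (1 - g) ^ (-β) := by
  unfold G LL
  rw [Real.rpow_def_of_pos (by linarith), mul_comm]

lemma G_zero (β : ℝ) : G β 0 = 1 := by unfold G LL; simp

lemma LL_strictMono {β g h : ℝ} (hβ : 0 < β) (hgh : g < h) (hh : h < 1) : LL β g < LL β h := by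
  have := Real.log_lt_log (show 0 < 1 - h by linarith) (show 1 - h < 1 - g by linarith)
  unfold LL; nlinarith

lemma G_strictMono {β g h : ℝ} (hβ : 0 < β) (hgh : g < h) (hh : h < 1) : G β g < G β h :=
  exp_lt_exp.2 (LL_strictMono hβ hgh hh)

lemma G_mono {β g h : ℝ} (hβ : 0 < β) (hgh : g ≤ h) (hh : h < 1) : G β g ≤ G β h := by
  rcases hgh.eq_or_lt with h1 | h1
  · rw [h1]
  · exact (G_strictMono hβ h1 hh).le

lemma G_inj {β g h : ℝ} (hβ : 0 < β) (hg : g < 1) (hh : h < 1) (he : G β g = G β h) : g = h := by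
  rcases lt_trichotomy g h with h1 | h1 | h1
  · exact absurd he (G_strictMono hβ h1 hh).ne
  · exact h1
  · exact absurd he (G_strictMono hβ h1 hg).ne'

lemma G_tangent_lt {β g a : ℝ} (hβ : 0 < β) (hg : g < 1) (ha : a < 1) (hne : g ≠ a) :
    G β a * (1 + β * (g - a) / (1 - a)) < G β g := by
  have hc : 0 < 1 - a := by linarith
  have hne' : (1 - g) / (1 - a) ≠ 1 := by
    intro h
    rw [div_eq_one_iff_eq hc.ne'] at h
    exact hne (by linarith)
  have h1 := Real.log_lt_sub_one_of_pos (show 0 < (1 - g) / (1 - a) by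
    apply div_pos <;> linarith) hne'
  rw [Real.log_div (by linarith) (by linarith)] at h1
  have h2 : (1 - g) / (1 - a) - 1 = -((g - a) / (1 - a)) := by field_simp; ring
  rw [h2] at h1
  have h3 : LL β a + β * (g - a) / (1 - a) < LL β g := by
    have : β * (g - a) / (1 - a) = β * ((g - a) / (1 - a)) := by ring
    rw [this]
    unfold LL
    nlinarith
  have h4 : G β g > G β a * exp (β * (g - a) / (1 - a)) := by
    unfold G
    rw [← exp_add]
    exact exp_lt_exp.2 h3
  have h5 : G β a * (1 + β * (g - a) / (1 - a)) ≤ G β a * exp (β * (g - a) / (1 - a)) :=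
    mul_le_mul_of_nonneg_left (by linarith [add_one_le_exp (β * (g - a) / (1 - a))]) (G_pos _ _).le
  linarith

lemma G_tangent {β g a : ℝ} (hβ : 0 < β) (hg : g < 1) (ha : a < 1) :
    G β a * (1 + β * (g - a) / (1 - a)) ≤ G β g := by
  by_cases h : g = a
  · subst h; simp
  · exact (G_tangent_lt hβ hg ha h).le

/-- Weighted Jensen inequality for `G`, with the equality case. -/
lemma jensen_G {ι : Type*} [Fintype ι] {β : ℝ} (hβ : 0 < β) {w g : ι → ℝ} {a : ℝ}
    (hw : ∀ i, 0 ≤ w i) (hg : ∀ i, g i < 1) (ha : a < 1) (hsum : ∑ i, w i * g i = (∑ i, w i) * a) :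
    (∑ i, w i) * G β a ≤ ∑ i, w i * G β (g i) ∧
      (∑ i, w i * G β (g i) ≤ (∑ i, w i) * G β a → ∀ i, 0 < w i → g i = a) := by
  have key : ∀ i, w i * (G β a * (1 + β * (g i - a) / (1 - a))) ≤ w i * G β (g i) := fun i =>
    mul_le_mul_of_nonneg_left (G_tangent hβ (hg i) ha) (hw i)
  have htot : ∑ i, w i * (G β a * (1 + β * (g i - a) / (1 - a))) = (∑ i, w i) * G β a := by
    have h1 : ∀ i, w i * (G β a * (1 + β * (g i - a) / (1 - a)))
        = w i * G β a + (G β a * β / (1 - a)) * (w i * g i) - (G β a * β / (1 - a)) * a * w i := by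
      intro i; ring
    rw [Finset.sum_congr rfl (fun i _ => h1 i), Finset.sum_sub_distrib, Finset.sum_add_distrib,
      ← Finset.sum_mul, ← Finset.mul_sum, ← Finset.mul_sum, hsum]
    ring
  constructor
  · rw [← htot]
    exact Finset.sum_le_sum (fun i _ => key i)
  · intro hle i hi
    by_contra hne
    have h1 : ∑ i, w i * (G β a * (1 + β * (g i - a) / (1 - a))) < ∑ i, w i * G β (g i) :=
      Finset.sum_lt_sum (fun i _ => key i) ⟨i, Finset.mem_univ i,
        mul_lt_mul_of_pos_left (G_tangent_lt hβ (hg i) ha hne) hi⟩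
    rw [htot] at h1
    linarith

/-- The midpoint inequality for `G`. -/
lemma G_mid {β a b : ℝ} (hβ : 0 < β) (ha : a < 1) (hb : b < 1) :
    2 * G β ((a + b) / 2) ≤ G β a + G β b := by
  have hc : (a + b) / 2 < 1 := by linarith
  have h1 := G_tangent hβ ha hc
  have h2 := G_tangent hβ hb hc
  have h3 : β * (a - (a + b) / 2) / (1 - (a + b) / 2) + β * (b - (a + b) / 2) / (1 - (a + b) / 2) = 0 := by
    rw [← add_div]
    have : β * (a - (a + b) / 2) + β * (b - (a + b) / 2) = 0 := by ring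
    rw [this, zero_div]
  have h4 : G β ((a + b) / 2) * (1 + β * (a - (a + b) / 2) / (1 - (a + b) / 2))
    + G β ((a + b) / 2) * (1 + β * (b - (a + b) / 2) / (1 - (a + b) / 2)) = 2 * G β ((a + b) / 2) := by
    linear_combination G β ((a + b) / 2) * h3
  linarith

lemma G_mid_lt {β a b : ℝ} (hβ : 0 < β) (ha : a < 1) (hb : b < 1) (hne : a ≠ b) :
    2 * G β ((a + b) / 2) < G β a + G β b := by
  have hc : (a + b) / 2 < 1 := by linarith
  have h1 := G_tangent_lt hβ ha hc (fun h => hne (by linarith))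
  have h2 := G_tangent hβ hb hc
  have h3 : β * (a - (a + b) / 2) / (1 - (a + b) / 2) + β * (b - (a + b) / 2) / (1 - (a + b) / 2) = 0 := by
    rw [← add_div]
    have : β * (a - (a + b) / 2) + β * (b - (a + b) / 2) = 0 := by ring
    rw [this, zero_div]
  have h4 : G β ((a + b) / 2) * (1 + β * (a - (a + b) / 2) / (1 - (a + b) / 2))
    + G β ((a + b) / 2) * (1 + β * (b - (a + b) / 2) / (1 - (a + b) / 2)) = 2 * G β ((a + b) / 2) := by
    linear_combination G β ((a + b) / 2) * h3
  linarith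

section strong

/-- Derivatives of `t ↦ G β (-exp t)`. -/
lemma hasDeriv_phi (β t : ℝ) :
    HasDerivAt (fun t => G β (-exp t)) (-β * (exp t / (1 + exp t)) * G β (-exp t)) t := by
  have h0 : 0 < 1 + exp t := by positivity
  have h1 : HasDerivAt (fun t => -β * log (1 - -exp t)) (-β * (exp t / (1 - -exp t))) t := by
    have h2 : HasDerivAt (fun t => 1 - -exp t) (exp t) t := by
      have := ((Real.hasDerivAt_exp t).neg).const_sub 1
      simpa using this
    have h3 := (h2.log (by linarith)).const_mul (-β)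
    exact h3
  have h4 := h1.exp
  have h5 : exp (-β * log (1 - -exp t)) * (-β * (exp t / (1 - -exp t)))
      = -β * (exp t / (1 + exp t)) * G β (-exp t) := by
    unfold G LL
    rw [sub_neg_eq_add]
    ring
  rw [h5] at h4
  exact h4

lemma hasDeriv_phi2 (β t : ℝ) :
    HasDerivAt (fun t => -β * (exp t / (1 + exp t)) * G β (-exp t))
      (β * exp t * (β * exp t - 1) / (1 + exp t) ^ 2 * G β (-exp t)) t := by
  have h0 : 0 < 1 + exp t := by positivity
  have h1 : HasDerivAt (fun t => exp t / (1 + exp t)) (exp t / (1 + exp t) ^ 2) t := by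
    have h2 : HasDerivAt (fun t => 1 + exp t) (exp t) t := by
      simpa using (Real.hasDerivAt_exp t).const_add 1
    have h3 := (Real.hasDerivAt_exp t).div h2 h0.ne'
    have h4 : (exp t * (1 + exp t) - exp t * exp t) / (1 + exp t) ^ 2 = exp t / (1 + exp t) ^ 2 := by
      congr 1; ring
    rw [h4] at h3
    exact h3
  have h2 := (h1.const_mul (-β)).mul (hasDeriv_phi β t)
  refine HasDerivAt.congr_deriv h2 ?_
  field_simp
  ring

/-- Strong convexity in four points. -/
lemma gain {β ℓ : ℝ} (hβ : 0 < β) (hℓ : 6 ≤ β * ℓ) (hℓ1 : 3 / 2 * ℓ ≤ 1) {t0 t1 t2 t3 : ℝ}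
    (h0 : ℓ / 2 ≤ exp t0) (h0' : exp t0 ≤ 3 / 2 * ℓ) (h1 : ℓ / 2 ≤ exp t1)
    (h1' : exp t1 ≤ 3 / 2 * ℓ) (h2 : ℓ / 2 ≤ exp t2) (h2' : exp t2 ≤ 3 / 2 * ℓ)
    (h3 : ℓ / 2 ≤ exp t3) (h3' : exp t3 ≤ 3 / 2 * ℓ) :
    4 * G β (-exp ((t0 + t1 + t2 + t3) / 4)) + exp (-(3 / 2) * (β * ℓ)) / 2 *
      ((t0 - (t0 + t1 + t2 + t3) / 4) ^ 2 + (t1 - (t0 + t1 + t2 + t3) / 4) ^ 2
        + (t2 - (t0 + t1 + t2 + t3) / 4) ^ 2 + (t3 - (t0 + t1 + t2 + t3) / 4) ^ 2)
      ≤ G β (-exp t0) + G β (-exp t1) + G β (-exp t2) + G β (-exp t3) := by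
  have hℓpos : 0 < ℓ := by
    by_contra h
    push Not at h
    nlinarith
  set c : ℝ := exp (-(3 / 2) * (β * ℓ)) with hc
  set I : Set ℝ := Set.Icc (log (ℓ / 2)) (log (3 / 2 * ℓ)) with hI
  have hmem : ∀ t, ℓ / 2 ≤ exp t → exp t ≤ 3 / 2 * ℓ → t ∈ I := by
    intro t ha hb
    constructor
    · rw [Real.log_le_iff_le_exp (by positivity)]; exact ha
    · rw [Real.le_log_iff_exp_le (by positivity)]; exact hb
  have hconv : ConvexOn ℝ I (fun t => G β (-exp t) - c / 2 * t ^ 2) := by
    refine convexOn_of_hasDerivWithinAt2_nonneg (convex_Icc _ _)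
      (f' := fun t => -β * (exp t / (1 + exp t)) * G β (-exp t) - c * t)
      (f'' := fun t => β * exp t * (β * exp t - 1) / (1 + exp t) ^ 2 * G β (-exp t) - c) ?_ ?_ ?_ ?_
    · refine ContinuousOn.sub ?_ (by fun_prop)
      exact fun t _ => (hasDeriv_phi β t).continuousAt.continuousWithinAt
    · intro t _
      have := (hasDeriv_phi β t).sub ((hasDerivAt_pow 2 t).const_mul (c / 2))
      refine HasDerivAt.hasDerivWithinAt (HasDerivAt.congr_deriv this ?_)
      norm_num
      ring
    · intro t _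
      have := (hasDeriv_phi2 β t).sub ((hasDerivAt_id t).const_mul c)
      refine HasDerivAt.hasDerivWithinAt (HasDerivAt.congr_deriv this ?_)
      ring
    · intro t ht
      have ht' : t ∈ I := interior_subset ht
      have e1 : ℓ / 2 ≤ exp t := by
        have := ht'.1
        rwa [Real.log_le_iff_le_exp (by positivity)] at this
      have e2 : exp t ≤ 3 / 2 * ℓ := by
        have := ht'.2
        rwa [Real.le_log_iff_exp_le (by positivity)] at this
      have e3 : 0 < exp t := exp_pos t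
      have e4 : c ≤ G β (-exp t) := by
        rw [hc]; unfold G LL
        apply exp_le_exp.2
        rw [sub_neg_eq_add]
        have e5 : log (1 + exp t) ≤ exp t := by
          have := Real.log_le_sub_one_of_pos (show 0 < 1 + exp t by positivity)
          linarith
        have e6 : β * log (1 + exp t) ≤ β * (3 / 2 * ℓ) :=
          mul_le_mul_of_nonneg_left (e5.trans e2) hβ.le
        linarith
      have e5 : 3 ≤ β * exp t := by
        have := mul_le_mul_of_nonneg_left e1 hβ.le
        linarith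
      have e6 : 6 ≤ β * exp t * (β * exp t - 1) := by nlinarith
      have e7 : (1 + exp t) ^ 2 ≤ 4 := by
        have : exp t ≤ 1 := by linarith
        nlinarith
      have e8 : 1 ≤ β * exp t * (β * exp t - 1) / (1 + exp t) ^ 2 := by
        rw [le_div_iff₀ (by positivity)]
        linarith
      have e9 : 1 * c ≤ β * exp t * (β * exp t - 1) / (1 + exp t) ^ 2 * G β (-exp t) :=
        mul_le_mul e8 e4 (exp_pos _).le (by linarith)
      linarith
  have hJ := hconv.2 
  have hJ4 := hconv.map_sum_le (t := (Finset.univ : Finset (Fin 4))) (w := fun _ => (1 / 4 : ℝ))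
    (p := ![t0, t1, t2, t3]) (by intro i _; norm_num) (by simp) (by
      intro i _
      fin_cases i
      · exact hmem t0 h0 h0'
      · exact hmem t1 h1 h1'
      · exact hmem t2 h2 h2'
      · exact hmem t3 h3 h3')
  simp [Fin.sum_univ_four] at hJ4
  have hmean : 4⁻¹ * t0 + 4⁻¹ * t1 + 4⁻¹ * t2 + 4⁻¹ * t3 = (t0 + t1 + t2 + t3) / 4 := by ring
  rw [hmean] at hJ4
  nlinarith [hJ4]

end strong

end Pool.Agent.Riesz
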