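import Mathlib
import Pool.Agent.Riesz.Gfun

set_option autoImplicit false

open Real Finset

namespace Pool.Agent.Riesz

/-- the largeness conditions on `β`; `ℓ` will be `log β / β` and `m` the number of base points. -/
structure Big (m β ℓ : ℝ) : Prop where
  m1 : 1 ≤ m
  b1 : 1000 ≤ β
  lpos : 0 < ℓ
  small : 4 * m * (1 + 1 / (100 * m)) * (β * ℓ ^ 2) ≤ (1 / (100000 * m)) ^ 2 / 20000
  low : 5 * m * (β * ℓ ^ 2) < exp (-(1 - 1 / (100 * m)) * (β * ℓ))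
  loss : 20000000 * m ^ 4 * (β * ℓ ^ 4) ≤ exp (-(3 / 2) * (β * ℓ))
  c5 : 6 ≤ β * ℓ
  c6 : 3 / 2 * ℓ ≤ 1

section

variable {V : Type*} [NormedAddCommGroup V] [InnerProductSpace ℝ V]
variable {κ : Type*} [Fintype κ] [DecidableEq κ]

/-- The energy of four apex points and the base points (unordered pairs). -/
noncomputable def Etot (β : ℝ) (x0 x1 x2 x3 : V) (y : κ → V) : ℝ :=
  (G β (inner ℝ x0 x1) + G β (inner ℝ x0 x3) + G β (inner ℝ x2 x1) + G β (inner ℝ x2 x3))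
    + (G β (inner ℝ x0 x2) + G β (inner ℝ x1 x3))
    + ∑ k, (G β (inner ℝ x0 (y k)) + G β (inner ℝ x1 (y k)) + G β (inner ℝ x2 (y k))
      + G β (inner ℝ x3 (y k)))
    + 1 / 2 * ∑ k, ∑ l, (if k = l then 0 else G β (inner ℝ (y k) (y l)))

lemma neg_of_G_small {β g : ℝ} (hβ : 0 < β) (hg : g < 1) (h : G β g ≤ 1 / 3) : 1 / β ≤ -g := by
  have h1 : LL β g ≤ -1 := by
    have h2 : exp (LL β g) ≤ exp (-1) := by
      refine h.trans ?_
      have := Real.exp_neg_one_gt_d9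
      linarith
    exact exp_le_exp.1 h2
  have h3 : 1 / β ≤ log (1 - g) := by
    unfold LL at h1
    rw [div_le_iff₀ hβ]; linarith
  have h4 := Real.log_le_sub_one_of_pos (show 0 < 1 - g by linarith)
  linarith

omit [DecidableEq κ] in
lemma apex_term_le {β : ℝ} {x0 x1 x2 x3 : V} {y : κ → V} (k : κ) :
    G β (inner ℝ x0 (y k)) + G β (inner ℝ x1 (y k)) + G β (inner ℝ x2 (y k))
      + G β (inner ℝ x3 (y k)) ≤ ∑ k, (G β (inner ℝ x0 (y k)) + G β (inner ℝ x1 (y k))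
      + G β (inner ℝ x2 (y k)) + G β (inner ℝ x3 (y k))) :=
  Finset.single_le_sum (f := fun k => G β (inner ℝ x0 (y k)) + G β (inner ℝ x1 (y k))
      + G β (inner ℝ x2 (y k)) + G β (inner ℝ x3 (y k)))
    (fun k _ => by
      have := G_pos β (inner ℝ x0 (y k))
      have := G_pos β (inner ℝ x1 (y k))
      have := G_pos β (inner ℝ x2 (y k))
      have := G_pos β (inner ℝ x3 (y k))
      positivity) (Finset.mem_univ k)

lemma base_nonneg (β : ℝ) (y : κ → V) :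
    0 ≤ ∑ k, ∑ l, (if k = l then 0 else G β (inner ℝ (y k) (y l))) :=
  Finset.sum_nonneg (fun k _ => Finset.sum_nonneg (fun l _ => by
    split_ifs
    · exact le_rfl
    · exact (G_pos _ _).le))

lemma base_term_le {β : ℝ} {y : κ → V} {k l : κ} (hkl : k ≠ l) :
    G β (inner ℝ (y k) (y l)) ≤ 1 / 2 * ∑ k, ∑ l, (if k = l then 0 else G β (inner ℝ (y k) (y l))) := by
  set f : κ → κ → ℝ := fun k l => if k = l then 0 else G β (inner ℝ (y k) (y l)) with hf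
  have hf0 : ∀ k l, 0 ≤ f k l := by
    intro k l
    simp only [hf]
    split_ifs
    · exact le_rfl
    · exact (G_pos _ _).le
  have h2 : ∑ k ∈ ({k, l} : Finset κ), ∑ l, f k l ≤ ∑ k, ∑ l, f k l :=
    Finset.sum_le_sum_of_subset_of_nonneg (Finset.subset_univ _)
      (fun k _ _ => Finset.sum_nonneg (fun l _ => hf0 k l))
  rw [Finset.sum_pair hkl] at h2
  have h3 : f k l ≤ ∑ j, f k j := Finset.single_le_sum (fun l _ => hf0 k l) (Finset.mem_univ l)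
  have h4 : f l k ≤ ∑ j, f l j := Finset.single_le_sum (fun j _ => hf0 l j) (Finset.mem_univ k)
  have h5 : f k l = G β (inner ℝ (y k) (y l)) := by simp only [hf, if_neg hkl]
  have h6 : f l k = G β (inner ℝ (y k) (y l)) := by
    simp only [hf, if_neg hkl.symm]; rw [real_inner_comm]
  linarith

/-- The standing hypotheses on a localised configuration. -/
structure Loc (β ℓ : ℝ) (x0 x1 x2 x3 : V) (y : κ → V) : Prop where
  fr : Module.finrank ℝ V = Fintype.card κ + 2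
  n0 : ‖x0‖ = 1
  n1 : ‖x1‖ = 1
  n2 : ‖x2‖ = 1
  n3 : ‖x3‖ = 1
  ny : ∀ k, ‖y k‖ = 1
  l01 : (inner ℝ x0 x1 : ℝ) < 1
  l03 : (inner ℝ x0 x3 : ℝ) < 1
  l21 : (inner ℝ x2 x1 : ℝ) < 1
  l23 : (inner ℝ x2 x3 : ℝ) < 1
  l0y : ∀ k, (inner ℝ x0 (y k) : ℝ) < 1
  l1y : ∀ k, (inner ℝ x1 (y k) : ℝ) < 1
  l2y : ∀ k, (inner ℝ x2 (y k) : ℝ) < 1
  l3y : ∀ k, (inner ℝ x3 (y k) : ℝ) < 1
  lyy : ∀ k l, k ≠ l → (inner ℝ (y k) (y l) : ℝ) < 1
  k01 : |LL β (inner ℝ x0 x1)| ≤ 1 / (100000 * (Fintype.card κ : ℝ)) / 20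
  k03 : |LL β (inner ℝ x0 x3)| ≤ 1 / (100000 * (Fintype.card κ : ℝ)) / 20
  k21 : |LL β (inner ℝ x2 x1)| ≤ 1 / (100000 * (Fintype.card κ : ℝ)) / 20
  k23 : |LL β (inner ℝ x2 x3)| ≤ 1 / (100000 * (Fintype.card κ : ℝ)) / 20
  h02 : inner ℝ x0 x2 ≤ -1 + 1 / (100000 * (Fintype.card κ : ℝ))
  h13 : inner ℝ x1 x3 ≤ -1 + 1 / (100000 * (Fintype.card κ : ℝ))
  en : Etot β x0 x1 x2 x3 y ≤ 4 + 4 * (Fintype.card κ : ℝ) *
    (1 + 1 / (100 * (Fintype.card κ : ℝ))) * (β * ℓ ^ 2)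

variable {β ℓ : ℝ} {x0 x1 x2 x3 : V} {y : κ → V}

lemma eta_le {m : ℝ} (hm : 1 ≤ m) : 1 / (100000 * m) ≤ 1 / 100000 := by
  apply one_div_le_one_div_of_le (by norm_num); linarith

lemma G_lower_of_abs {β g t : ℝ} (h : |LL β g| ≤ t) : 1 - t ≤ G β g := by
  have h1 := (abs_le.1 h).1
  have h2 := add_one_le_exp (LL β g)
  unfold G
  linarith

/-- Stage A: all other pairs are obtuse. -/
lemma stageA (hB : Big (Fintype.card κ : ℝ) β ℓ) (hL : Loc β ℓ x0 x1 x2 x3 y) :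
    (∀ k, 1 / β ≤ -(inner ℝ x0 (y k) : ℝ)) ∧ (∀ k, 1 / β ≤ -(inner ℝ x1 (y k) : ℝ)) ∧
    (∀ k, 1 / β ≤ -(inner ℝ x2 (y k) : ℝ)) ∧ (∀ k, 1 / β ≤ -(inner ℝ x3 (y k) : ℝ)) ∧
    (∀ k l, k ≠ l → 1 / β ≤ -(inner ℝ (y k) (y l) : ℝ)) := by
  have hβ : 0 < β := by linarith [hB.b1]
  have heta := eta_le hB.m1
  have a1 := G_lower_of_abs hL.k01
  have a2 := G_lower_of_abs hL.k03
  have a3 := G_lower_of_abs hL.k21
  have a4 := G_lower_of_abs hL.k23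
  have d1 := G_pos β (inner ℝ x0 x2)
  have d2 := G_pos β (inner ℝ x1 x3)
  have hb0 := base_nonneg β y
  have hen := hL.en
  have hsm := hB.small
  have hsq : (1 / (100000 * (Fintype.card κ : ℝ))) ^ 2 ≤ 1 := by
    have : 0 ≤ 1 / (100000 * (Fintype.card κ : ℝ)) := by positivity
    nlinarith
  have hS0 : 0 ≤ ∑ k, (G β (inner ℝ x0 (y k)) + G β (inner ℝ x1 (y k)) + G β (inner ℝ x2 (y k))
      + G β (inner ℝ x3 (y k))) := Finset.sum_nonneg (fun k _ => by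
      have := G_pos β (inner ℝ x0 (y k))
      have := G_pos β (inner ℝ x1 (y k))
      have := G_pos β (inner ℝ x2 (y k))
      have := G_pos β (inner ℝ x3 (y k))
      positivity)
  unfold Etot at hen
  have hap : ∀ k, G β (inner ℝ x0 (y k)) + G β (inner ℝ x1 (y k)) + G β (inner ℝ x2 (y k))
      + G β (inner ℝ x3 (y k)) ≤ 1 / 3 := by
    intro k
    have := apex_term_le (β := β) (x0 := x0) (x1 := x1) (x2 := x2) (x3 := x3) (y := y) k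
    linarith
  have hba : ∀ k l, k ≠ l → G β (inner ℝ (y k) (y l)) ≤ 1 / 3 := by
    intro k l hkl
    have := base_term_le (β := β) (y := y) hkl
    linarith
  refine ⟨fun k => ?_, fun k => ?_, fun k => ?_, fun k => ?_, fun k l hkl => ?_⟩
  · apply neg_of_G_small hβ (hL.l0y k)
    linarith [hap k, G_pos β (inner ℝ x1 (y k)), G_pos β (inner ℝ x2 (y k)),
      G_pos β (inner ℝ x3 (y k))]
  · apply neg_of_G_small hβ (hL.l1y k)
    linarith [hap k, G_pos β (inner ℝ x0 (y k)), G_pos β (inner ℝ x2 (y k)),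
      G_pos β (inner ℝ x3 (y k))]
  · apply neg_of_G_small hβ (hL.l2y k)
    linarith [hap k, G_pos β (inner ℝ x0 (y k)), G_pos β (inner ℝ x1 (y k)),
      G_pos β (inner ℝ x3 (y k))]
  · apply neg_of_G_small hβ (hL.l3y k)
    linarith [hap k, G_pos β (inner ℝ x0 (y k)), G_pos β (inner ℝ x1 (y k)),
      G_pos β (inner ℝ x2 (y k))]
  · exact neg_of_G_small hβ (hL.lyy k l hkl) (hba k l hkl)

/-- `v` is minus the projection of `x` on the span of the base. -/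
structure Dual (y : κ → V) (x v : V) : Prop where
  mem : v ∈ Submodule.span ℝ (Set.range y)
  orth : x + v ∈ (Submodule.span ℝ (Set.range y))ᗮ
  inn : ∀ k, (inner ℝ v (y k) : ℝ) = -inner ℝ x (y k)

omit [DecidableEq κ] in
lemma exists_Dual (hli : LinearIndependent ℝ y) (x : V) : ∃ v, Dual y x v := by
  obtain ⟨v, hv, hv'⟩ := exists_dual hli (fun k => -(inner ℝ x (y k) : ℝ))
  refine ⟨v, hv, ?_, hv'⟩
  rw [Submodule.mem_orthogonal]
  intro u hu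
  obtain ⟨b, rfl⟩ := (Submodule.mem_span_range_iff_exists_fun ℝ).1 hu
  rw [sum_inner]
  refine Finset.sum_eq_zero (fun k _ => ?_)
  rw [real_inner_smul_left, inner_add_right, real_inner_comm x (y k), real_inner_comm v (y k),
    hv' k]
  ring

/-- Stage B: linear independence and dimension of the complement. -/
lemma stageB (hB : Big (Fintype.card κ : ℝ) β ℓ) (hL : Loc β ℓ x0 x1 x2 x3 y) :
    LinearIndependent ℝ y ∧ Module.finrank ℝ (Submodule.span ℝ (Set.range y))ᗮ = 2 := by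
  obtain ⟨a0, -, -, -, a4⟩ := stageA hB hL
  have hβ : 0 < β := by linarith [hB.b1]
  have hb : 0 < 1 / β := by positivity
  have hli : LinearIndependent ℝ y :=
    linIndep (fun k l hkl => by linarith [a4 k l hkl]) (x := x0) (fun k => by linarith [a0 k])
  have : FiniteDimensional ℝ V := Module.finite_of_finrank_pos (by rw [hL.fr]; omega)
  exact ⟨hli, finrank_orth hli hL.fr⟩

omit [DecidableEq κ] in
lemma dual_inner_nonneg (hy1 : ∀ k, ‖y k‖ = 1)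
    (hneg : ∀ k l, k ≠ l → inner ℝ (y k) (y l) ≤ (0 : ℝ)) {v w : V}
    (hv : v ∈ Submodule.span ℝ (Set.range y)) (hvp : ∀ k, 0 ≤ (inner ℝ v (y k) : ℝ))
    (hwp : ∀ k, 0 ≤ (inner ℝ w (y k) : ℝ)) : 0 ≤ (inner ℝ v w : ℝ) :=
  le_trans (Finset.sum_nonneg (fun k _ => mul_nonneg (hvp k) (hwp k)))
    (inner_ge_sum hy1 hneg hv hvp hwp)

/-- data available after stages A and B. -/
structure Mid (β : ℝ) (x0 x1 x2 x3 v0 v1 v2 v3 : V) (y : κ → V) : Prop where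
  d0 : Dual y x0 v0
  d1 : Dual y x1 v1
  d2 : Dual y x2 v2
  d3 : Dual y x3 v3
  ny : ∀ k, ‖y k‖ = 1
  neg : ∀ k l, k ≠ l → (inner ℝ (y k) (y l) : ℝ) ≤ 0
  t0 : ∀ k, 1 / β ≤ (inner ℝ v0 (y k) : ℝ)
  t1 : ∀ k, 1 / β ≤ (inner ℝ v1 (y k) : ℝ)
  t2 : ∀ k, 1 / β ≤ (inner ℝ v2 (y k) : ℝ)
  t3 : ∀ k, 1 / β ≤ (inner ℝ v3 (y k) : ℝ)

lemma exists_Mid (hB : Big (Fintype.card κ : ℝ) β ℓ) (hL : Loc β ℓ x0 x1 x2 x3 y) :
    ∃ v0 v1 v2 v3 : V, Mid β x0 x1 x2 x3 v0 v1 v2 v3 y := by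
  obtain ⟨a0, a1, a2, a3, a4⟩ := stageA hB hL
  obtain ⟨hli, -⟩ := stageB hB hL
  have hβ : 0 < β := by linarith [hB.b1]
  have hb : 0 < 1 / β := by positivity
  obtain ⟨v0, d0⟩ := exists_Dual hli x0
  obtain ⟨v1, d1⟩ := exists_Dual hli x1
  obtain ⟨v2, d2⟩ := exists_Dual hli x2
  obtain ⟨v3, d3⟩ := exists_Dual hli x3
  exact ⟨v0, v1, v2, v3, d0, d1, d2, d3, hL.ny, fun k l hkl => by linarith [a4 k l hkl],
    fun k => by rw [d0.inn]; exact a0 k, fun k => by rw [d1.inn]; exact a1 k,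
    fun k => by rw [d2.inn]; exact a2 k, fun k => by rw [d3.inn]; exact a3 k⟩

lemma RR_le_of_norm {v0 v1 v2 v3 : V} {Q : ℝ} (h0 : ‖v0‖ ^ 2 ≤ Q) (h1 : ‖v1‖ ^ 2 ≤ Q)
    (h2 : ‖v2‖ ^ 2 ≤ Q) (h3 : ‖v3‖ ^ 2 ≤ Q) : RR v0 v1 v2 v3 ≤ 20 * Q := by
  have hQ : 0 ≤ Q := le_trans (sq_nonneg _) h0
  have key : ∀ a b : V, ‖a‖ ^ 2 ≤ Q → ‖b‖ ^ 2 ≤ Q → ‖a + b‖ ^ 2 ≤ 2 * (2 * Q) ∧
      ‖a - b‖ ^ 2 ≤ 2 * (2 * Q) := by
    intro a b ha hb
    have e1 := norm_add_sq_real a b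
    have e2 := norm_sub_sq_real a b
    have e3 := parallelogram_law_with_norm ℝ a b
    constructor <;> nlinarith [sq_nonneg ‖a + b‖, sq_nonneg ‖a - b‖]
  obtain ⟨p1, p2⟩ := key v0 v2 h0 h2
  obtain ⟨p3, p4⟩ := key v1 v3 h1 h3
  have := RR_le p1 p2 (by linarith) (by linarith) p3 p4 (by linarith) (by linarith)
  linarith

/-- the sum of the adjacent terms. -/
noncomputable def Sadj (β : ℝ) (x0 x1 x2 x3 : V) : ℝ :=
  G β (inner ℝ x0 x1) + G β (inner ℝ x0 x3) + G β (inner ℝ x2 x1) + G β (inner ℝ x2 x3)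

lemma scal_c1 {η a X : ℝ} (ha : 0 ≤ a) (heta : η ≤ 1 / 100) (h1 : a ^ 2 ≤ 2 * η) (h2 : a ≤ X) :
    a ^ 2 ≤ X := by
  have h3 : a ≤ 1 := by
    by_contra hcon
    push Not at hcon
    nlinarith
  nlinarith

lemma scal_c2 {β e η μ R O S : ℝ} (hβ : 1000 ≤ β) (hη0 : 0 < η) (hμ0 : 0 ≤ μ)
    (hμ : μ ≤ 3 * (η / 20)) (hR0 : 0 ≤ R) (hR : R ≤ 10 * η) (hRO : R ≤ 20 * (2 * (β * O)))
    (hO0 : 0 ≤ O) (he : e ≤ 3 / β * μ + 3 / 10 * R)
    (h1 : 4 * (1 + (1 - e) * (β * O) - R ^ 2) ≤ S) :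
    4 * (1 + (1 - 1000 * η) * (β * O)) ≤ S := by
  have hβ0 : 0 < β := by linarith
  refine le_trans ?_ h1
  have h3β : 3 / β ≤ 1 := by rw [div_le_one hβ0]; linarith
  have h2 : e ≤ 4 * η := by
    have := mul_le_mul_of_nonneg_right h3β hμ0
    linarith
  have h3 : R ^ 2 ≤ 400 * η * (β * O) := by
    calc R ^ 2 = R * R := by ring
      _ ≤ 10 * η * (20 * (2 * (β * O))) := mul_le_mul hR hRO hR0 (by positivity)
      _ = 400 * η * (β * O) := by ring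
  have h4 : 0 ≤ β * O := mul_nonneg hβ0.le hO0
  have h5 : e * (β * O) ≤ 4 * η * (β * O) := mul_le_mul_of_nonneg_right h2 h4
  have h6 : 0 ≤ η * (β * O) := by positivity
  linarith

omit [DecidableEq κ] in
lemma norm_le_Obar (hny : ∀ k, ‖y k‖ = 1)
    (hneg : ∀ k l, k ≠ l → (inner ℝ (y k) (y l) : ℝ) ≤ 0) {a b c d : V} {t O : ℝ} (ht : 0 ≤ t)
    (ha : a ∈ Submodule.span ℝ (Set.range y)) (qa : ∀ k, 0 ≤ (inner ℝ a (y k) : ℝ))
    (hc : ∀ k, t ≤ (inner ℝ c (y k) : ℝ)) (hd : ∀ k, t ≤ (inner ℝ d (y k) : ℝ))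
    (pbc : 0 ≤ (inner ℝ b c : ℝ)) (pbd : 0 ≤ (inner ℝ b d : ℝ))
    (hO : 4 * O = inner ℝ a c + inner ℝ a d + inner ℝ b c + inner ℝ b d) :
    t * ‖a‖ ≤ 2 * O := by
  have c1 := norm_le_inner hny hneg ht ha qa hc
  have c2 := norm_le_inner hny hneg ht ha qa hd
  linarith

/-- The output of the planar estimate in the present setting. -/
lemma stageC0 (hB : Big (Fintype.card κ : ℝ) β ℓ) (hL : Loc β ℓ x0 x1 x2 x3 y)
    {v0 v1 v2 v3 : V} (hM : Mid β x0 x1 x2 x3 v0 v1 v2 v3 y) :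
    (0 ≤ Obar v0 v1 v2 v3 ∧ Obar v0 v1 v2 v3 ≤ 1 / 50) ∧
    4 * (1 + (1 - 1 / (100 * (Fintype.card κ : ℝ))) * (β * Obar v0 v1 v2 v3))
      ≤ Sadj β x0 x1 x2 x3 ∧
    4 * exp (LL β (Obar v0 v1 v2 v3)) * (1 + muL (LL β (inner ℝ x0 x1)) (LL β (inner ℝ x0 x3))
        (LL β (inner ℝ x2 x1)) (LL β (inner ℝ x2 x3)) ^ 2 / 50 - β * RR v0 v1 v2 v3 ^ 2)
      ≤ Sadj β x0 x1 x2 x3 := by
  obtain ⟨hli, hfr⟩ := stageB hB hL
  have hβ : 0 < β := by linarith [hB.b1]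
  have hb : 0 < 1 / β := by positivity
  have hm1 := hB.m1
  have heta := eta_le hB.m1
  have heta0 : 0 < 1 / (100000 * (Fintype.card κ : ℝ)) := by positivity
  have hηm : 1 / (100 * (Fintype.card κ : ℝ)) = 1000 * (1 / (100000 * (Fintype.card κ : ℝ))) := by
    field_simp; norm_num
  set η : ℝ := 1 / (100000 * (Fintype.card κ : ℝ)) with hη
  have q0 : ∀ k, 0 ≤ (inner ℝ v0 (y k) : ℝ) := fun k => by linarith [hM.t0 k]
  have q1 : ∀ k, 0 ≤ (inner ℝ v1 (y k) : ℝ) := fun k => by linarith [hM.t1 k]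
  have q2 : ∀ k, 0 ≤ (inner ℝ v2 (y k) : ℝ) := fun k => by linarith [hM.t2 k]
  have q3 : ∀ k, 0 ≤ (inner ℝ v3 (y k) : ℝ) := fun k => by linarith [hM.t3 k]
  have p02 := dual_inner_nonneg hM.ny hM.neg hM.d0.mem q0 q2
  have p13 := dual_inner_nonneg hM.ny hM.neg hM.d1.mem q1 q3
  have p01 := dual_inner_nonneg hM.ny hM.neg hM.d0.mem q0 q1
  have p03 := dual_inner_nonneg hM.ny hM.neg hM.d0.mem q0 q3
  have p21 := dual_inner_nonneg hM.ny hM.neg hM.d2.mem q2 q1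
  have p23 := dual_inner_nonneg hM.ny hM.neg hM.d2.mem q2 q3
  obtain ⟨s02, d02, nv0, nv2, -⟩ := diag_norms hM.d0.mem hM.d2.mem hM.d0.orth hM.d2.orth hL.n0 hL.n2
    hL.h02 p02
  obtain ⟨s13, d13, nv1, nv3, -⟩ := diag_norms hM.d1.mem hM.d3.mem hM.d1.orth hM.d3.orth hL.n1 hL.n3
    hL.h13 p13
  have hR10 : RR v0 v1 v2 v3 ≤ 10 * η := RR_le s02 d02 nv0 nv2 s13 d13 nv1 nv3
  have hR0 := RR_nonneg v0 v1 v2 v3
  have hOeq := Obar_eq v0 v1 v2 v3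
  -- norms versus Obar
  have hmul : ∀ {a : V}, 1 / β * ‖a‖ ≤ 2 * Obar v0 v1 v2 v3 →
      ‖a‖ ≤ 2 * (β * Obar v0 v1 v2 v3) := by
    intro a ha
    rw [one_div, inv_mul_le_iff₀ hβ] at ha
    linarith
  have o0 := hmul (norm_le_Obar hM.ny hM.neg hb.le hM.d0.mem q0 hM.t1 hM.t3 p21 p23
    (by rw [hOeq]; ring))
  have o2 := hmul (norm_le_Obar hM.ny hM.neg hb.le hM.d2.mem q2 hM.t1 hM.t3 p01 p03
    (by rw [hOeq]; ring))
  have o1 := hmul (norm_le_Obar hM.ny hM.neg hb.le hM.d1.mem q1 hM.t0 hM.t2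
    (b := v3) (by rw [real_inner_comm]; exact p03) (by rw [real_inner_comm]; exact p23)
    (by rw [hOeq, real_inner_comm v0 v1, real_inner_comm v2 v1, real_inner_comm v0 v3,
      real_inner_comm v2 v3]; ring))
  have o3 := hmul (norm_le_Obar hM.ny hM.neg hb.le hM.d3.mem q3 hM.t0 hM.t2
    (b := v1) (by rw [real_inner_comm]; exact p01) (by rw [real_inner_comm]; exact p21)
    (by rw [hOeq, real_inner_comm v0 v1, real_inner_comm v2 v1, real_inner_comm v0 v3,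
      real_inner_comm v2 v3]; ring))
  have hO0 : 0 ≤ Obar v0 v1 v2 v3 := by rw [hOeq]; linarith
  have hOs : Obar v0 v1 v2 v3 ≤ 1 / 50 := by
    have := (abs_le.1 (abs_inner_le_of_sq s02 s13)).2
    unfold Obar; linarith
  have hη100 : η ≤ 1 / 100 := by linarith
  have hRO : RR v0 v1 v2 v3 ≤ 20 * (2 * (β * Obar v0 v1 v2 v3)) :=
    RR_le_of_norm (scal_c1 (norm_nonneg _) hη100 nv0 o0) (scal_c1 (norm_nonneg _) hη100 nv1 o1)
      (scal_c1 (norm_nonneg _) hη100 nv2 o2) (scal_c1 (norm_nonneg _) hη100 nv3 o3)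
  have hk01 : |LL β (inner ℝ x0 x1)| ≤ η / 20 := hL.k01
  have hk03 : |LL β (inner ℝ x0 x3)| ≤ η / 20 := hL.k03
  have hk21 : |LL β (inner ℝ x2 x1)| ≤ η / 20 := hL.k21
  have hk23 : |LL β (inner ℝ x2 x3)| ≤ η / 20 := hL.k23
  obtain ⟨e, Ω, he0, he, hΩO, hΩl, hΩs, hS⟩ := adj_core hfr hB.b1 (show η ≤ 1 / 100 by linarith)
    hM.d0.mem hM.d1.mem hM.d2.mem hM.d3.mem hM.d0.orth hM.d1.orth hM.d2.orth hM.d3.orth
    hL.n0 hL.n1 hL.n2 hL.n3 (by linarith) (by linarith) (by linarith) (by linarith)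
    hL.l01 hL.l03 hL.l21 hL.l23 hL.h02 hL.h13 p02 p13 p01 p03 p21 p23
  have hμle := muL_le hk01 hk03 hk21 hk23
  have hμ0 := muL_nonneg (LL β (inner ℝ x0 x1)) (LL β (inner ℝ x0 x3)) (LL β (inner ℝ x2 x1))
        (LL β (inner ℝ x2 x3))
  refine ⟨⟨hO0, hOs⟩, ?_, ?_⟩
  · have h1 := scal_crude hB.b1 he0 hμ0 (by linarith) hR0 (by linarith) he hΩl hO0 hΩs hS
    rw [hηm]
    exact scal_c2 hB.b1 heta0 hμ0 hμle hR0 hR10 hRO hO0 he h1
  · exact scal_fine hB.b1 he0 hμ0 (by linarith) hR0 he hΩO hΩs hOs hS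

end

end Pool.Agent.Riesz
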