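import Mathlib
import Pool.Agent.Riesz.Local

set_option autoImplicit false

open Real Finset

namespace Pool.Agent.Riesz

section

variable {V : Type*} [NormedAddCommGroup V] [InnerProductSpace ℝ V]
variable {κ : Type*} [Fintype κ] [DecidableEq κ]
variable {β ℓ : ℝ} {x0 x1 x2 x3 : V} {y : κ → V}

lemma tau_lower {m g : ℝ} (hB : Big m β ℓ) (hg : g < 1)
    (h : G β g ≤ 4 * m * (1 + 1 / (100 * m)) * (β * ℓ ^ 2)) : (1 - 1 / (100 * m)) * ℓ ≤ -g := by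
  have hβ : 0 < β := by linarith [hB.b1]
  have hm := hB.m1
  have hmpos : 0 < m := by linarith
  have hℓ := hB.lpos
  by_contra hcon
  push Not at hcon
  have h1 : log (1 - g) ≤ -g := by
    have := Real.log_le_sub_one_of_pos (show 0 < 1 - g by linarith)
    linarith
  have h2 : -(1 - 1 / (100 * m)) * (β * ℓ) < LL β g := by
    have h3 : β * -g < β * ((1 - 1 / (100 * m)) * ℓ) := mul_lt_mul_of_pos_left hcon hβ
    have h4 : β * log (1 - g) ≤ β * -g := mul_le_mul_of_nonneg_left h1 hβ.le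
    unfold LL
    linarith
  have h5 : exp (-(1 - 1 / (100 * m)) * (β * ℓ)) < G β g := exp_lt_exp.2 h2
  have h6 := hB.low
  have h7 : 4 * m * (1 + 1 / (100 * m)) * (β * ℓ ^ 2) ≤ 5 * m * (β * ℓ ^ 2) := by
    apply mul_le_mul_of_nonneg_right _ (by positivity)
    have h8 : m * (1 / (100 * m)) = 1 / 100 := by field_simp
    nlinarith
  linarith

omit [DecidableEq κ] in
lemma hi_bound {O σ : ℝ} {a b c d : V} (hm : 1 ≤ (Fintype.card κ : ℝ))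
    (hσ0 : 0 < σ) (hσ : (Fintype.card κ : ℝ) * σ = 1 / 100) (hℓ : 0 < ℓ)
    (hny : ∀ k, ‖y k‖ = 1)
    (hneg : ∀ k l, k ≠ l → (inner ℝ (y k) (y l) : ℝ) ≤ 0)
    (ha : a ∈ Submodule.span ℝ (Set.range y)) (hb : b ∈ Submodule.span ℝ (Set.range y))
    (qa : ∀ k, (1 - σ) * ℓ ≤ (inner ℝ a (y k) : ℝ)) (qb : ∀ k, (1 - σ) * ℓ ≤ (inner ℝ b (y k) : ℝ))
    (qc : ∀ k, (1 - σ) * ℓ ≤ (inner ℝ c (y k) : ℝ)) (qd : ∀ k, (1 - σ) * ℓ ≤ (inner ℝ d (y k) : ℝ))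
    (hO : (inner ℝ (a + b) (c + d) : ℝ) = 4 * O)
    (hOle : O ≤ (Fintype.card κ : ℝ) * (1 + 3 * σ) * ℓ ^ 2) (k0 : κ) :
    (inner ℝ a (y k0) : ℝ) ≤ 3 / 2 * ℓ := by
  have hσ1 : σ ≤ 1 / 100 := by nlinarith
  have h1σ : 0 ≤ (1 - σ) * ℓ := mul_nonneg (by linarith) hℓ.le
  have eab : ∀ k, (inner ℝ (a + b) (y k) : ℝ) = inner ℝ a (y k) + inner ℝ b (y k) :=
    fun k => inner_add_left _ _ _
  have ecd : ∀ k, (inner ℝ (c + d) (y k) : ℝ) = inner ℝ c (y k) + inner ℝ d (y k) :=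
    fun k => inner_add_left _ _ _
  have hsum := inner_ge_sum hny hneg (v := a + b) (w := c + d) (Submodule.add_mem _ ha hb)
    (fun k => by rw [eab]; linarith [qa k, qb k]) (fun k => by rw [ecd]; linarith [qc k, qd k])
  rw [hO] at hsum
  by_contra hcon
  push Not at hcon
  set c0 : ℝ := (2 * ((1 - σ) * ℓ)) * (2 * ((1 - σ) * ℓ)) with hc0
  have hf : ∀ k, c0 ≤ inner ℝ (a + b) (y k) * inner ℝ (c + d) (y k) := by
    intro k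
    rw [hc0]
    apply mul_le_mul
    · rw [eab]; linarith [qa k, qb k]
    · rw [ecd]; linarith [qc k, qd k]
    · positivity
    · rw [eab]; linarith [qa k, qb k]
  have hf0 : (3 / 2 * ℓ + (1 - σ) * ℓ) * (2 * ((1 - σ) * ℓ))
      ≤ inner ℝ (a + b) (y k0) * inner ℝ (c + d) (y k0) := by
    apply mul_le_mul
    · rw [eab]; linarith [qa k0, qb k0]
    · rw [ecd]; linarith [qc k0, qd k0]
    · positivity
    · rw [eab]; linarith [qa k0, qb k0]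
  have h2 : inner ℝ (a + b) (y k0) * inner ℝ (c + d) (y k0) - c0
      ≤ ∑ k, (inner ℝ (a + b) (y k) * inner ℝ (c + d) (y k) - c0) :=
    Finset.single_le_sum (f := fun k => inner ℝ (a + b) (y k) * inner ℝ (c + d) (y k) - c0)
      (fun k _ => by linarith [hf k]) (Finset.mem_univ k0)
  rw [Finset.sum_sub_distrib, Finset.sum_const, Finset.card_univ, nsmul_eq_mul] at h2
  set M : ℝ := (Fintype.card κ : ℝ) with hMdef
  have h3 : M * c0 + ((3 / 2 * ℓ + (1 - σ) * ℓ) * (2 * ((1 - σ) * ℓ)) - c0)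
      ≤ 4 * (M * (1 + 3 * σ) * ℓ ^ 2) := by linarith
  have hℓ2 : 0 < ℓ ^ 2 := by positivity
  have e1 : M * c0 + ((3 / 2 * ℓ + (1 - σ) * ℓ) * (2 * ((1 - σ) * ℓ)) - c0)
      = (4 * M * (1 - σ) ^ 2 + (2 - 2 * σ) * (1 / 2 + σ)) * ℓ ^ 2 := by rw [hc0]; ring
  rw [e1] at h3
  have h4 : 4 * M * (1 - σ) ^ 2 + (2 - 2 * σ) * (1 / 2 + σ) ≤ 4 * (M * (1 + 3 * σ)) := by
    by_contra hc
    push Not at hc
    have := mul_lt_mul_of_pos_right hc hℓ2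
    linarith
  have h5 : 4 * M * (1 - σ) ^ 2 = 4 * M - 8 * (M * σ) + 4 * (M * σ) * σ := by ring
  have h6 : 4 * (M * (1 + 3 * σ)) = 4 * M + 12 * (M * σ) := by ring
  rw [h5, h6, hσ] at h4
  nlinarith

/-- the fine bounds. -/
structure Fine (κ : Type*) [Fintype κ] (ℓ : ℝ) (v0 v1 v2 v3 : V) (y : κ → V) : Prop where
  lo0 : ∀ k, (1 - 1 / (100 * (Fintype.card κ : ℝ))) * ℓ ≤ (inner ℝ v0 (y k) : ℝ)
  lo1 : ∀ k, (1 - 1 / (100 * (Fintype.card κ : ℝ))) * ℓ ≤ (inner ℝ v1 (y k) : ℝ)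
  lo2 : ∀ k, (1 - 1 / (100 * (Fintype.card κ : ℝ))) * ℓ ≤ (inner ℝ v2 (y k) : ℝ)
  lo3 : ∀ k, (1 - 1 / (100 * (Fintype.card κ : ℝ))) * ℓ ≤ (inner ℝ v3 (y k) : ℝ)
  hi0 : ∀ k, (inner ℝ v0 (y k) : ℝ) ≤ 3 / 2 * ℓ
  hi1 : ∀ k, (inner ℝ v1 (y k) : ℝ) ≤ 3 / 2 * ℓ
  hi2 : ∀ k, (inner ℝ v2 (y k) : ℝ) ≤ 3 / 2 * ℓ
  hi3 : ∀ k, (inner ℝ v3 (y k) : ℝ) ≤ 3 / 2 * ℓ
  nv0 : ‖v0‖ ≤ 3 * (Fintype.card κ : ℝ) * ℓ
  nv1 : ‖v1‖ ≤ 3 * (Fintype.card κ : ℝ) * ℓ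
  nv2 : ‖v2‖ ≤ 3 * (Fintype.card κ : ℝ) * ℓ
  nv3 : ‖v3‖ ≤ 3 * (Fintype.card κ : ℝ) * ℓ
  hO : Obar v0 v1 v2 v3 ≤ 2 * (Fintype.card κ : ℝ) * ℓ ^ 2

lemma Etot_split (β : ℝ) (x0 x1 x2 x3 : V) (y : κ → V) :
    Etot β x0 x1 x2 x3 y = Sadj β x0 x1 x2 x3 + (G β (inner ℝ x0 x2) + G β (inner ℝ x1 x3))
    + ∑ k, (G β (inner ℝ x0 (y k)) + G β (inner ℝ x1 (y k)) + G β (inner ℝ x2 (y k))
      + G β (inner ℝ x3 (y k)))
    + 1 / 2 * ∑ k, ∑ l, (if k = l then 0 else G β (inner ℝ (y k) (y l))) := rfl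

lemma scal_O {m β ℓ O : ℝ} (hm : 1 ≤ m) (hβ : 0 < β)
    (h : 4 * (1 + (1 - 1 / (100 * m)) * (β * O)) ≤ 4 + 4 * m * (1 + 1 / (100 * m)) * (β * ℓ ^ 2)) :
    O ≤ m * (1 + 3 * (1 / (100 * m))) * ℓ ^ 2 := by
  have hmpos : 0 < m := by linarith
  have hσ1 : 1 / (100 * m) ≤ 1 / 100 := by
    apply one_div_le_one_div_of_le (by norm_num); linarith
  have hσ0 : 0 < 1 / (100 * m) := by positivity
  set σ := 1 / (100 * m) with hσ
  have h1 : (1 - σ) * O ≤ m * (1 + σ) * ℓ ^ 2 := by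
    by_contra hc
    push Not at hc
    have := mul_lt_mul_of_pos_left hc hβ
    nlinarith
  have h2 : m * (1 + σ) * ℓ ^ 2 ≤ (1 - σ) * (m * (1 + 3 * σ) * ℓ ^ 2) := by
    have h3 : 1 + σ ≤ (1 - σ) * (1 + 3 * σ) := by nlinarith
    have h4 : 0 ≤ m * ℓ ^ 2 := by positivity
    nlinarith [mul_le_mul_of_nonneg_left h3 h4]
  have h5 : (1 - σ) * O ≤ (1 - σ) * (m * (1 + 3 * σ) * ℓ ^ 2) := h1.trans h2
  exact le_of_mul_le_mul_left h5 (by linarith)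

lemma scal_nv {m ℓ O σ n : ℝ} (hm : 1 ≤ m) (hσ0 : 0 < σ) (hσ : m * σ = 1 / 100) (hℓ : 0 < ℓ)
    (hO : O ≤ m * (1 + 3 * σ) * ℓ ^ 2) (h : (1 - σ) * ℓ * n ≤ 2 * O) : n ≤ 3 * m * ℓ := by
  have hσ1 : σ ≤ 1 / 100 := by nlinarith
  by_contra hc
  push Not at hc
  have h1 : (1 - σ) * ℓ * (3 * m * ℓ) < (1 - σ) * ℓ * n :=
    mul_lt_mul_of_pos_left hc (mul_pos (by linarith) hℓ)
  have h2 : (1 - σ) * ℓ * (3 * m * ℓ) = 3 * (1 - σ) * (m * ℓ ^ 2) := by ring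
  have h3 : 0 < m * ℓ ^ 2 := by positivity
  nlinarith

/-- Stage C: the fine bounds. -/
lemma stageC (hB : Big (Fintype.card κ : ℝ) β ℓ) (hL : Loc β ℓ x0 x1 x2 x3 y)
    {v0 v1 v2 v3 : V} (hM : Mid β x0 x1 x2 x3 v0 v1 v2 v3 y) :
    Fine κ ℓ v0 v1 v2 v3 y := by
  obtain ⟨⟨hO0, hO1⟩, hcr, -⟩ := stageC0 hB hL hM
  have hβ : 0 < β := by linarith [hB.b1]
  have hb : 0 < 1 / β := by positivity
  have hm1 := hB.m1
  have hℓ := hB.lpos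
  have hen := hL.en
  rw [Etot_split] at hen
  have hmpos : 0 < (Fintype.card κ : ℝ) := by linarith
  have hσ0 : 0 < 1 / (100 * (Fintype.card κ : ℝ)) := by positivity
  have hσ : (Fintype.card κ : ℝ) * (1 / (100 * (Fintype.card κ : ℝ))) = 1 / 100 := by field_simp
  have hσ1 : 1 / (100 * (Fintype.card κ : ℝ)) ≤ 1 / 100 := by
    apply one_div_le_one_div_of_le (by norm_num); linarith
  have d1 := G_pos β (inner ℝ x0 x2)
  have d2 := G_pos β (inner ℝ x1 x3)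
  have hb0 := base_nonneg β y
  have hβO : 0 ≤ (1 - 1 / (100 * (Fintype.card κ : ℝ))) * (β * Obar v0 v1 v2 v3) :=
    mul_nonneg (by linarith) (mul_nonneg hβ.le hO0)
  have hS0 : 0 ≤ ∑ k, (G β (inner ℝ x0 (y k)) + G β (inner ℝ x1 (y k)) + G β (inner ℝ x2 (y k))
      + G β (inner ℝ x3 (y k))) := Finset.sum_nonneg (fun k _ => by
      have := G_pos β (inner ℝ x0 (y k))
      have := G_pos β (inner ℝ x1 (y k))
      have := G_pos β (inner ℝ x2 (y k))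
      have := G_pos β (inner ℝ x3 (y k))
      positivity)
  have hap : ∀ k, G β (inner ℝ x0 (y k)) + G β (inner ℝ x1 (y k)) + G β (inner ℝ x2 (y k))
      + G β (inner ℝ x3 (y k)) ≤ 4 * (Fintype.card κ : ℝ) * (1 + 1 / (100 * (Fintype.card κ : ℝ)))
        * (β * ℓ ^ 2) := by
    intro k
    have := apex_term_le (β := β) (x0 := x0) (x1 := x1) (x2 := x2) (x3 := x3) (y := y) k
    linarith
  have lo0 : ∀ k, (1 - 1 / (100 * (Fintype.card κ : ℝ))) * ℓ ≤ (inner ℝ v0 (y k) : ℝ) := by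
    intro k
    rw [hM.d0.inn]
    apply tau_lower hB (hL.l0y k)
    linarith [hap k, G_pos β (inner ℝ x1 (y k)), G_pos β (inner ℝ x2 (y k)),
      G_pos β (inner ℝ x3 (y k))]
  have lo1 : ∀ k, (1 - 1 / (100 * (Fintype.card κ : ℝ))) * ℓ ≤ (inner ℝ v1 (y k) : ℝ) := by
    intro k
    rw [hM.d1.inn]
    apply tau_lower hB (hL.l1y k)
    linarith [hap k, G_pos β (inner ℝ x0 (y k)), G_pos β (inner ℝ x2 (y k)),
      G_pos β (inner ℝ x3 (y k))]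
  have lo2 : ∀ k, (1 - 1 / (100 * (Fintype.card κ : ℝ))) * ℓ ≤ (inner ℝ v2 (y k) : ℝ) := by
    intro k
    rw [hM.d2.inn]
    apply tau_lower hB (hL.l2y k)
    linarith [hap k, G_pos β (inner ℝ x0 (y k)), G_pos β (inner ℝ x1 (y k)),
      G_pos β (inner ℝ x3 (y k))]
  have lo3 : ∀ k, (1 - 1 / (100 * (Fintype.card κ : ℝ))) * ℓ ≤ (inner ℝ v3 (y k) : ℝ) := by
    intro k
    rw [hM.d3.inn]
    apply tau_lower hB (hL.l3y k)
    linarith [hap k, G_pos β (inner ℝ x0 (y k)), G_pos β (inner ℝ x1 (y k)),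
      G_pos β (inner ℝ x2 (y k))]
  have hOle : Obar v0 v1 v2 v3 ≤ (Fintype.card κ : ℝ) *
      (1 + 3 * (1 / (100 * (Fintype.card κ : ℝ)))) * ℓ ^ 2 := by
    apply scal_O hm1 hβ
    linarith
  have hO4 : (inner ℝ (v0 + v2) (v1 + v3) : ℝ) = 4 * Obar v0 v1 v2 v3 := by
    unfold Obar; ring
  have hO4' : (inner ℝ (v1 + v3) (v0 + v2) : ℝ) = 4 * Obar v0 v1 v2 v3 := by
    rw [real_inner_comm]; exact hO4
  have h1σ : 0 ≤ (1 - 1 / (100 * (Fintype.card κ : ℝ))) * ℓ :=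
    mul_nonneg (by linarith) hℓ.le
  have q0 : ∀ k, 0 ≤ (inner ℝ v0 (y k) : ℝ) := fun k => h1σ.trans (lo0 k)
  have q1 : ∀ k, 0 ≤ (inner ℝ v1 (y k) : ℝ) := fun k => h1σ.trans (lo1 k)
  have q2 : ∀ k, 0 ≤ (inner ℝ v2 (y k) : ℝ) := fun k => h1σ.trans (lo2 k)
  have q3 : ∀ k, 0 ≤ (inner ℝ v3 (y k) : ℝ) := fun k => h1σ.trans (lo3 k)
  have p01 := dual_inner_nonneg hM.ny hM.neg hM.d0.mem q0 q1
  have p03 := dual_inner_nonneg hM.ny hM.neg hM.d0.mem q0 q3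
  have p21 := dual_inner_nonneg hM.ny hM.neg hM.d2.mem q2 q1
  have p23 := dual_inner_nonneg hM.ny hM.neg hM.d2.mem q2 q3
  have hOeq := Obar_eq v0 v1 v2 v3
  have o0 := norm_le_Obar (O := Obar v0 v1 v2 v3) hM.ny hM.neg h1σ hM.d0.mem q0 lo1 lo3 p21 p23 (by rw [hOeq]; ring)
  have o2 := norm_le_Obar (O := Obar v0 v1 v2 v3) hM.ny hM.neg h1σ hM.d2.mem q2 lo1 lo3 p01 p03 (by rw [hOeq]; ring)
  have o1 := norm_le_Obar (O := Obar v0 v1 v2 v3) hM.ny hM.neg h1σ hM.d1.mem q1 lo0 lo2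
    (b := v3) (by rw [real_inner_comm]; exact p03) (by rw [real_inner_comm]; exact p23)
    (by rw [hOeq, real_inner_comm v0 v1, real_inner_comm v2 v1, real_inner_comm v0 v3,
      real_inner_comm v2 v3]; ring)
  have o3 := norm_le_Obar (O := Obar v0 v1 v2 v3) hM.ny hM.neg h1σ hM.d3.mem q3 lo0 lo2
    (b := v1) (by rw [real_inner_comm]; exact p01) (by rw [real_inner_comm]; exact p21)
    (by rw [hOeq, real_inner_comm v0 v1, real_inner_comm v2 v1, real_inner_comm v0 v3,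
      real_inner_comm v2 v3]; ring)
  refine ⟨lo0, lo1, lo2, lo3, ?_, ?_, ?_, ?_, ?_, ?_, ?_, ?_, ?_⟩
  · exact hi_bound hm1 hσ0 hσ hℓ hM.ny hM.neg hM.d0.mem hM.d2.mem lo0 lo2 lo1 lo3 hO4 hOle
  · exact hi_bound hm1 hσ0 hσ hℓ hM.ny hM.neg hM.d1.mem hM.d3.mem lo1 lo3 lo0 lo2 hO4' hOle
  · exact hi_bound hm1 hσ0 hσ hℓ hM.ny hM.neg hM.d2.mem hM.d0.mem lo2 lo0 lo1 lo3
      (by rw [add_comm v2 v0]; exact hO4) hOle
  · exact hi_bound hm1 hσ0 hσ hℓ hM.ny hM.neg hM.d3.mem hM.d1.mem lo3 lo1 lo0 lo2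
      (by rw [add_comm v3 v1]; exact hO4') hOle
  · exact scal_nv hm1 hσ0 hσ hℓ hOle o0
  · exact scal_nv hm1 hσ0 hσ hℓ hOle o1
  · exact scal_nv hm1 hσ0 hσ hℓ hOle o2
  · exact scal_nv hm1 hσ0 hσ hℓ hOle o3
  · refine hOle.trans ?_
    have : 0 ≤ (Fintype.card κ : ℝ) * ℓ ^ 2 := by positivity
    nlinarith

end

end Pool.Agent.Riesz
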