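import Mathlib
import Pool.Agent.Riesz.Local2

set_option autoImplicit false

open Real Finset

namespace Pool.Agent.Riesz

section

variable {V : Type*} [NormedAddCommGroup V] [InnerProductSpace ℝ V]
variable {κ : Type*} [Fintype κ] [DecidableEq κ]
variable {β ℓ : ℝ} {x0 x1 x2 x3 : V} {y : κ → V}

omit [DecidableEq κ] in
/-- if the inner products with the base differ by at most `ρ`, the vectors differ by `8 m ρ`. -/
lemma diff_norm (hB : Big (Fintype.card κ : ℝ) β ℓ) {v0 v1 v2 v3 : V}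
    (hM : Mid β x0 x1 x2 x3 v0 v1 v2 v3 y) (hF : Fine κ ℓ v0 v1 v2 v3 y)
    {a b : V} (ha : a ∈ Submodule.span ℝ (Set.range y)) (hb : b ∈ Submodule.span ℝ (Set.range y))
    {ρ : ℝ} (hρ : ∀ k, |(inner ℝ a (y k) : ℝ) - inner ℝ b (y k)| ≤ ρ) :
    ‖a - b‖ ≤ 8 * (Fintype.card κ : ℝ) * ρ := by
  have hm1 := hB.m1
  have hℓ := hB.lpos
  have hmpos : 0 < (Fintype.card κ : ℝ) := by linarith
  have hσ1 : 1 / (100 * (Fintype.card κ : ℝ)) ≤ 1 / 100 := by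
    apply one_div_le_one_div_of_le (by norm_num); linarith
  have hne : Nonempty κ := by
    rw [← Fintype.card_pos_iff]
    exact_mod_cast hmpos
  set M : ℝ := (Fintype.card κ : ℝ) with hMdef
  have hN : 0 < 3 * M * ℓ := by positivity
  have h1 := norm_le_of_small (y := y) hne hM.neg (v := a - b) (n := (1 / (3 * M * ℓ)) • v0)
    (c := 1 / (4 * M)) (ρ := ρ) (by positivity) ?_ ?_ (Submodule.sub_mem _ ha hb) ?_
  · have h2 : 1 / (4 * M) * ‖a - b‖ = ‖a - b‖ / (4 * M) := by ring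
    rw [h2, div_le_iff₀ (by positivity)] at h1
    linarith
  · rw [norm_smul, Real.norm_of_nonneg (by positivity), one_div, inv_mul_le_iff₀ hN, mul_one]
    exact hF.nv0
  · intro k
    rw [real_inner_smul_left]
    have h2 := hF.lo0 k
    have h3 : 3 / 4 * ℓ ≤ (inner ℝ v0 (y k) : ℝ) := by
      refine le_trans ?_ h2
      apply mul_le_mul_of_nonneg_right _ hℓ.le
      linarith
    calc 1 / (4 * M) = 1 / (3 * M * ℓ) * (3 / 4 * ℓ) := by field_simp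
      _ ≤ 1 / (3 * M * ℓ) * inner ℝ v0 (y k) := mul_le_mul_of_nonneg_left h3 (by positivity)
  · intro k
    rw [inner_sub_left]; exact hρ k

omit [DecidableEq κ] in
lemma RR_le_diff {v0 v1 v2 v3 : V} {N D : ℝ} (hN : 0 ≤ N) (hD : 0 ≤ D)
    (h0 : ‖v0‖ ≤ N) (h1 : ‖v1‖ ≤ N) (h2 : ‖v2‖ ≤ N) (h3 : ‖v3‖ ≤ N)
    (d02 : ‖v0 - v2‖ ≤ D) (d13 : ‖v1 - v3‖ ≤ D) : RR v0 v1 v2 v3 ≤ 10 * N * D := by
  have s02 : ‖v0 + v2‖ ≤ 2 * N := (norm_add_le _ _).trans (by linarith)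
  have s13 : ‖v1 + v3‖ ≤ 2 * N := (norm_add_le _ _).trans (by linarith)
  have s13' : ‖v1 - v3‖ ≤ 2 * N := (norm_sub_le _ _).trans (by linarith)
  have r1 : |(inner ℝ (v0 - v2) (v1 + v3) : ℝ)| ≤ D * (2 * N) :=
    (abs_real_inner_le_norm _ _).trans (mul_le_mul d02 s13 (norm_nonneg _) hD)
  have r2 : |(inner ℝ (v0 + v2) (v1 - v3) : ℝ)| ≤ (2 * N) * D :=
    (abs_real_inner_le_norm _ _).trans (mul_le_mul s02 d13 (norm_nonneg _) (by positivity))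
  have r3 : |(inner ℝ (v0 - v2) (v1 - v3) : ℝ)| ≤ D * (2 * N) :=
    (abs_real_inner_le_norm _ _).trans (mul_le_mul d02 s13' (norm_nonneg _) hD)
  have key : ∀ a b : V, ‖a‖ ^ 2 - ‖b‖ ^ 2 = inner ℝ (a - b) (a + b) := by
    intro a b
    rw [inner_add_right, inner_sub_left, inner_sub_left, real_inner_self_eq_norm_sq,
      real_inner_self_eq_norm_sq, real_inner_comm a b]
    ring
  have r4 : |‖v0‖ ^ 2 - ‖v2‖ ^ 2| ≤ D * (2 * N) := by
    rw [key]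
    exact (abs_real_inner_le_norm _ _).trans (mul_le_mul d02 s02 (norm_nonneg _) hD)
  have r5 : |‖v1‖ ^ 2 - ‖v3‖ ^ 2| ≤ D * (2 * N) := by
    rw [key]
    exact (abs_real_inner_le_norm _ _).trans (mul_le_mul d13 s13 (norm_nonneg _) hD)
  unfold RR
  linarith

/-- sum of squared deviations for one base point. -/
noncomputable def qdev (t0 t1 t2 t3 : ℝ) : ℝ :=
  (t0 - (t0 + t1 + t2 + t3) / 4) ^ 2 + (t1 - (t0 + t1 + t2 + t3) / 4) ^ 2
    + (t2 - (t0 + t1 + t2 + t3) / 4) ^ 2 + (t3 - (t0 + t1 + t2 + t3) / 4) ^ 2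

lemma qdev_nonneg (t0 t1 t2 t3 : ℝ) : 0 ≤ qdev t0 t1 t2 t3 := by unfold qdev; positivity

/-- log of the inner product with the base point. -/
noncomputable def tl (v : V) (y : κ → V) (k : κ) : ℝ := log (inner ℝ v (y k))

/-- total deviation. -/
noncomputable def S2 (v0 v1 v2 v3 : V) (y : κ → V) : ℝ :=
  ∑ k, qdev (tl v0 y k) (tl v1 y k) (tl v2 y k) (tl v3 y k)

omit [DecidableEq κ] in
lemma S2_nonneg (v0 v1 v2 v3 : V) (y : κ → V) : 0 ≤ S2 v0 v1 v2 v3 y :=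
  Finset.sum_nonneg (fun _ _ => qdev_nonneg _ _ _ _)

omit [DecidableEq κ] in
lemma dev_le {v0 v1 v2 v3 : V} (k : κ) :
    |tl v0 y k - tl v2 y k| ≤ √(2 * S2 v0 v1 v2 v3 y) ∧
    |tl v1 y k - tl v3 y k| ≤ √(2 * S2 v0 v1 v2 v3 y) := by
  have h1 : qdev (tl v0 y k) (tl v1 y k) (tl v2 y k) (tl v3 y k) ≤ S2 v0 v1 v2 v3 y :=
    Finset.single_le_sum (f := fun k => qdev (tl v0 y k) (tl v1 y k) (tl v2 y k) (tl v3 y k))
      (fun k _ => qdev_nonneg _ _ _ _) (Finset.mem_univ k)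
  unfold qdev at h1
  set m := (tl v0 y k + tl v1 y k + tl v2 y k + tl v3 y k) / 4
  constructor
  · apply Real.abs_le_sqrt
    nlinarith [sq_nonneg ((tl v0 y k - m) + (tl v2 y k - m)), sq_nonneg (tl v1 y k - m),
      sq_nonneg (tl v3 y k - m)]
  · apply Real.abs_le_sqrt
    nlinarith [sq_nonneg ((tl v1 y k - m) + (tl v3 y k - m)), sq_nonneg (tl v0 y k - m),
      sq_nonneg (tl v2 y k - m)]

omit [DecidableEq κ] in
lemma RR_sq_le (hB : Big (Fintype.card κ : ℝ) β ℓ) {v0 v1 v2 v3 : V}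
    (hM : Mid β x0 x1 x2 x3 v0 v1 v2 v3 y) (hF : Fine κ ℓ v0 v1 v2 v3 y) :
    RR v0 v1 v2 v3 ^ 2 ≤ 259200 * (Fintype.card κ : ℝ) ^ 4 * ℓ ^ 4 * S2 v0 v1 v2 v3 y := by
  have hm1 := hB.m1
  have hℓ := hB.lpos
  have hmpos : 0 < (Fintype.card κ : ℝ) := by linarith
  have hS := S2_nonneg v0 v1 v2 v3 y
  have hsq : 0 ≤ √(2 * S2 v0 v1 v2 v3 y) := Real.sqrt_nonneg _
  have hσ1 : 1 / (100 * (Fintype.card κ : ℝ)) ≤ 1 / 100 := by
    apply one_div_le_one_div_of_le (by norm_num); linarith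
  have hlow : 0 < (1 - 1 / (100 * (Fintype.card κ : ℝ))) * ℓ := mul_pos (by linarith) hℓ
  have hexp : ∀ v : V, (∀ k, (1 - 1 / (100 * (Fintype.card κ : ℝ))) * ℓ ≤ (inner ℝ v (y k) : ℝ)) →
      ∀ k, exp (tl v y k) = inner ℝ v (y k) := by
    intro v hv k
    unfold tl
    exact exp_log (lt_of_lt_of_le hlow (hv k))
  have hdiff : ∀ a b : V, (∀ k, (1 - 1 / (100 * (Fintype.card κ : ℝ))) * ℓ ≤ (inner ℝ a (y k) : ℝ)) →
      (∀ k, (1 - 1 / (100 * (Fintype.card κ : ℝ))) * ℓ ≤ (inner ℝ b (y k) : ℝ)) →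
      (∀ k, (inner ℝ a (y k) : ℝ) ≤ 3 / 2 * ℓ) → (∀ k, (inner ℝ b (y k) : ℝ) ≤ 3 / 2 * ℓ) →
      (∀ k, |tl a y k - tl b y k| ≤ √(2 * S2 v0 v1 v2 v3 y)) →
      ∀ k, |(inner ℝ a (y k) : ℝ) - inner ℝ b (y k)| ≤ 3 / 2 * ℓ * √(2 * S2 v0 v1 v2 v3 y) := by
    intro a b ha hb ha' hb' hd k
    have h1 := exp_lip (a := tl a y k) (b := tl b y k) (c := log (3 / 2 * ℓ))
      (Real.log_le_log (lt_of_lt_of_le hlow (ha k)) (ha' k))
      (Real.log_le_log (lt_of_lt_of_le hlow (hb k)) (hb' k))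
    rw [hexp a ha, hexp b hb, exp_log (by positivity)] at h1
    exact h1.trans (mul_le_mul_of_nonneg_left (hd k) (by positivity))
  have e02 := hdiff v0 v2 hF.lo0 hF.lo2 hF.hi0 hF.hi2 (fun k => (dev_le k).1)
  have e13 := hdiff v1 v3 hF.lo1 hF.lo3 hF.hi1 hF.hi3 (fun k => (dev_le k).2)
  have n02 := diff_norm hB hM hF hM.d0.mem hM.d2.mem e02
  have n13 := diff_norm hB hM hF hM.d1.mem hM.d3.mem e13
  have hR := RR_le_diff (N := 3 * (Fintype.card κ : ℝ) * ℓ)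
    (D := 8 * (Fintype.card κ : ℝ) * (3 / 2 * ℓ * √(2 * S2 v0 v1 v2 v3 y)))
    (by positivity) (by positivity) hF.nv0 hF.nv1 hF.nv2 hF.nv3 n02 n13
  have hR0 := RR_nonneg v0 v1 v2 v3
  calc RR v0 v1 v2 v3 ^ 2 ≤ (10 * (3 * (Fintype.card κ : ℝ) * ℓ) *
        (8 * (Fintype.card κ : ℝ) * (3 / 2 * ℓ * √(2 * S2 v0 v1 v2 v3 y)))) ^ 2 :=
        pow_le_pow_left₀ hR0 hR 2
    _ = 129600 * (Fintype.card κ : ℝ) ^ 4 * ℓ ^ 4 * √(2 * S2 v0 v1 v2 v3 y) ^ 2 := by ring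
    _ = 259200 * (Fintype.card κ : ℝ) ^ 4 * ℓ ^ 4 * S2 v0 v1 v2 v3 y := by
        rw [Real.sq_sqrt (by positivity)]; ring

lemma G_O_le {m O : ℝ} (hB : Big m β ℓ) (hO0 : 0 ≤ O) (hO1 : O ≤ 1 / 50)
    (hO : O ≤ 2 * m * ℓ ^ 2) : G β O ≤ 2 := by
  have hβ : 0 < β := by linarith [hB.b1]
  have hm := hB.m1
  have h1 := Real.one_sub_inv_le_log_of_pos (show 0 < 1 - O by linarith)
  have h2 : -(2 * O) ≤ log (1 - O) := by
    refine le_trans ?_ h1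
    have h3 : (1 - O)⁻¹ ≤ 1 + 2 * O := by
      rw [inv_eq_one_div, div_le_iff₀ (by linarith)]
      nlinarith
    linarith
  have h3 : LL β O ≤ 2 * (β * O) := by
    unfold LL; nlinarith
  have h4 : β * O ≤ 1 / 100 := by
    have h5 := hB.small
    have h6 : (1 / (100000 * m)) ^ 2 / 20000 ≤ 1 / 100 := by
      have h7 : 1 / (100000 * m) ≤ 1 := by
        rw [div_le_one (by linarith)]; linarith
      have h8 : 0 ≤ 1 / (100000 * m) := by positivity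
      nlinarith
    have h7 : β * O ≤ β * (2 * m * ℓ ^ 2) := mul_le_mul_of_nonneg_left hO hβ.le
    have h8 : 0 ≤ 1 / (100 * m) := by positivity
    have h9 : 0 ≤ m * (β * ℓ ^ 2) := by positivity
    nlinarith [mul_nonneg h8 h9]
  have h5 : LL β O ≤ log 2 := by
    have := Real.log_two_gt_d9
    linarith
  unfold G
  rwa [Real.le_log_iff_exp_le (by norm_num)] at h5

/-- Stage D: the main lower bound for the energy. -/
lemma stageD (hB : Big (Fintype.card κ : ℝ) β ℓ) (hL : Loc β ℓ x0 x1 x2 x3 y)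
    {v0 v1 v2 v3 : V} (hM : Mid β x0 x1 x2 x3 v0 v1 v2 v3 y) (hF : Fine κ ℓ v0 v1 v2 v3 y) :
    4 * G β (Obar v0 v1 v2 v3) * (1 + muL (LL β (inner ℝ x0 x1)) (LL β (inner ℝ x0 x3))
        (LL β (inner ℝ x2 x1)) (LL β (inner ℝ x2 x3)) ^ 2 / 50)
      ≤ Sadj β x0 x1 x2 x3 + exp (-(3 / 2) * (β * ℓ)) / 4 * S2 v0 v1 v2 v3 y ∧
    4 * ∑ k, G β (-exp ((tl v0 y k + tl v1 y k + tl v2 y k + tl v3 y k) / 4))
      + exp (-(3 / 2) * (β * ℓ)) / 2 * S2 v0 v1 v2 v3 y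
      ≤ ∑ k, (G β (inner ℝ x0 (y k)) + G β (inner ℝ x1 (y k)) + G β (inner ℝ x2 (y k))
      + G β (inner ℝ x3 (y k))) := by
  obtain ⟨⟨hO0, hO1⟩, -, hfine⟩ := stageC0 hB hL hM
  have hβ : 0 < β := by linarith [hB.b1]
  have hm1 := hB.m1
  have hℓ := hB.lpos
  have hmpos : 0 < (Fintype.card κ : ℝ) := by linarith
  have hσ1 : 1 / (100 * (Fintype.card κ : ℝ)) ≤ 1 / 100 := by
    apply one_div_le_one_div_of_le (by norm_num); linarith
  have hlow : ℓ / 2 ≤ (1 - 1 / (100 * (Fintype.card κ : ℝ))) * ℓ := by nlinarith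
  have hlowpos : 0 < (1 - 1 / (100 * (Fintype.card κ : ℝ))) * ℓ := by linarith
  have hS := S2_nonneg v0 v1 v2 v3 y
  have hRR := RR_sq_le hB hM hF
  have hG2 := G_O_le hB hO0 hO1 hF.hO
  have hGpos := G_pos β (Obar v0 v1 v2 v3)
  have hexp : ∀ v : V, (∀ k, (1 - 1 / (100 * (Fintype.card κ : ℝ))) * ℓ ≤ (inner ℝ v (y k) : ℝ)) →
      ∀ k, exp (tl v y k) = inner ℝ v (y k) := by
    intro v hv k
    unfold tl
    exact exp_log (lt_of_lt_of_le hlowpos (hv k))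
  have e0 := hexp v0 hF.lo0
  have e1 := hexp v1 hF.lo1
  have e2 := hexp v2 hF.lo2
  have e3 := hexp v3 hF.lo3
  -- loss
  have hloss : 4 * G β (Obar v0 v1 v2 v3) * (β * RR v0 v1 v2 v3 ^ 2)
      ≤ exp (-(3 / 2) * (β * ℓ)) / 4 * S2 v0 v1 v2 v3 y := by
    have h1 : β * RR v0 v1 v2 v3 ^ 2 ≤ β * (259200 * (Fintype.card κ : ℝ) ^ 4 * ℓ ^ 4
        * S2 v0 v1 v2 v3 y) := mul_le_mul_of_nonneg_left hRR hβ.le
    have h2 : 4 * G β (Obar v0 v1 v2 v3) * (β * RR v0 v1 v2 v3 ^ 2)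
        ≤ 8 * (β * (259200 * (Fintype.card κ : ℝ) ^ 4 * ℓ ^ 4 * S2 v0 v1 v2 v3 y)) := by
      apply mul_le_mul (by linarith) h1 (by positivity) (by norm_num)
    have h3 : 8 * (β * (259200 * (Fintype.card κ : ℝ) ^ 4 * ℓ ^ 4 * S2 v0 v1 v2 v3 y))
        = 2073600 * (Fintype.card κ : ℝ) ^ 4 * (β * ℓ ^ 4) * S2 v0 v1 v2 v3 y := by ring
    have h4 := hB.loss
    have h5 : 2073600 * (Fintype.card κ : ℝ) ^ 4 * (β * ℓ ^ 4)
        ≤ exp (-(3 / 2) * (β * ℓ)) / 4 := by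
      have : 0 ≤ (Fintype.card κ : ℝ) ^ 4 * (β * ℓ ^ 4) := by positivity
      linarith
    rw [h3] at h2
    exact h2.trans (mul_le_mul_of_nonneg_right h5 hS)
  -- gain
  have hgain : 4 * ∑ k, G β (-exp ((tl v0 y k + tl v1 y k + tl v2 y k + tl v3 y k) / 4))
      + exp (-(3 / 2) * (β * ℓ)) / 2 * S2 v0 v1 v2 v3 y
      ≤ ∑ k, (G β (inner ℝ x0 (y k)) + G β (inner ℝ x1 (y k)) + G β (inner ℝ x2 (y k))
      + G β (inner ℝ x3 (y k))) := by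
    unfold S2
    rw [Finset.mul_sum, Finset.mul_sum, ← Finset.sum_add_distrib]
    refine Finset.sum_le_sum (fun k _ => ?_)
    have f0 : (inner ℝ x0 (y k) : ℝ) = -exp (tl v0 y k) := by rw [e0, hM.d0.inn]; ring
    have f1 : (inner ℝ x1 (y k) : ℝ) = -exp (tl v1 y k) := by rw [e1, hM.d1.inn]; ring
    have f2 : (inner ℝ x2 (y k) : ℝ) = -exp (tl v2 y k) := by rw [e2, hM.d2.inn]; ring
    have f3 : (inner ℝ x3 (y k) : ℝ) = -exp (tl v3 y k) := by rw [e3, hM.d3.inn]; ring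
    rw [f0, f1, f2, f3]
    exact gain hβ hB.c5 hB.c6 (by rw [e0]; exact hlow.trans (hF.lo0 k)) (by rw [e0]; exact hF.hi0 k)
      (by rw [e1]; exact hlow.trans (hF.lo1 k)) (by rw [e1]; exact hF.hi1 k)
      (by rw [e2]; exact hlow.trans (hF.lo2 k)) (by rw [e2]; exact hF.hi2 k)
      (by rw [e3]; exact hlow.trans (hF.lo3 k)) (by rw [e3]; exact hF.hi3 k)
  change 4 * G β (Obar v0 v1 v2 v3) * _ ≤ _ at hfine
  refine ⟨?_, hgain⟩
  linarith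

end

end Pool.Agent.Riesz
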