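import Mathlib
import Pool.Agent.Riesz.Local3

set_option autoImplicit false

open Real Finset

namespace Pool.Agent.Riesz

/-- the squared norm of the apex component. -/
noncomputable def om (m α γ : ℝ) : ℝ := m * α ^ 2 / (1 - (m - 1) * γ)

/-- the energy of the symmetric configurations. -/
noncomputable def Phi (m β α γ : ℝ) : ℝ :=
  4 * m * G β (-α) + m * (m - 1) / 2 * G β (-γ) + 4 * G β (om m α γ) + 2 * G β (2 * om m α γ - 1)

/-- the parameter domain. -/
def InDom (m α γ : ℝ) : Prop := 0 < α ∧ 0 ≤ γ ∧ (m - 1) * γ < 1 ∧ om m α γ < 1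

section

variable {V : Type*} [NormedAddCommGroup V] [InnerProductSpace ℝ V]
variable {κ : Type*} [Fintype κ] [DecidableEq κ]
variable {β ℓ : ℝ} {x0 x1 x2 x3 : V} {y : κ → V}

omit [DecidableEq κ] [Fintype κ] in
lemma diag_lower {W : Submodule ℝ V} {x x' v v' : V}
    (hv : v ∈ W) (hv' : v' ∈ W) (hx : x + v ∈ Wᗮ) (hx' : x' + v' ∈ Wᗮ)
    (n : ‖x‖ = 1) (n' : ‖x'‖ = 1) : ‖v + v'‖ ^ 2 / 2 - 1 ≤ (inner ℝ x x' : ℝ) := by
  have h1 : ‖x + x'‖ ^ 2 = 2 + 2 * inner ℝ x x' := by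
    rw [norm_add_sq_real, n, n']; ring
  have h2 : ‖x + x'‖ ^ 2 = ‖(x + x') + (v + v')‖ ^ 2 + ‖v + v'‖ ^ 2 := by
    have := inner_decomp (W := W) (x := x + x') (x' := x + x') (W.add_mem hv hv') (W.add_mem hv hv')
      (by rw [show x + x' + (v + v') = (x + v) + (x' + v') by abel]; exact Wᗮ.add_mem hx hx')
      (by rw [show x + x' + (v + v') = (x + v) + (x' + v') by abel]; exact Wᗮ.add_mem hx hx')
    rw [real_inner_self_eq_norm_sq, real_inner_self_eq_norm_sq, real_inner_self_eq_norm_sq] at this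
    exact this
  nlinarith [sq_nonneg ‖(x + x') + (v + v')‖]

/-- sums over off-diagonal pairs. -/
lemma sum_offdiag_const (c : ℝ) :
    ∑ k : κ, ∑ l : κ, (if k = l then (0 : ℝ) else c)
      = (Fintype.card κ : ℝ) * ((Fintype.card κ : ℝ) - 1) * c := by
  have h : ∀ k : κ, ∑ l : κ, (if k = l then (0 : ℝ) else c) = ((Fintype.card κ : ℝ) - 1) * c := by
    intro k
    have h1 : ∑ l : κ, (if k = l then (0 : ℝ) else c) = ∑ l : κ, (c - if k = l then c else 0) := by
      refine Finset.sum_congr rfl (fun l _ => ?_)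
      split_ifs <;> ring
    rw [h1, Finset.sum_sub_distrib, Finset.sum_ite_eq]
    simp
    ring
  rw [Finset.sum_congr rfl (fun k _ => h k)]
  simp
  ring

/-- average off-diagonal value. -/
lemma exists_gamma {f : κ → κ → ℝ} (hf : ∀ k l, k ≠ l → 0 ≤ f k l)
    (hm : 1 ≤ (Fintype.card κ : ℝ)) :
    ∃ γ : ℝ, 0 ≤ γ ∧ ∑ k, ∑ l, (if k = l then 0 else f k l)
      = (Fintype.card κ : ℝ) * ((Fintype.card κ : ℝ) - 1) * γ := by
  have hnn : 0 ≤ ∑ k, ∑ l, (if k = l then 0 else f k l) :=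
    Finset.sum_nonneg (fun k _ => Finset.sum_nonneg (fun l _ => by
      split_ifs with h
      · exact le_rfl
      · exact hf k l h))
  by_cases h1 : (Fintype.card κ : ℝ) = 1
  · refine ⟨0, le_rfl, ?_⟩
    have h2 : Fintype.card κ = 1 := by exact_mod_cast h1
    have h3 : Subsingleton κ := Fintype.card_le_one_iff_subsingleton.1 h2.le
    rw [mul_zero]
    refine Finset.sum_eq_zero (fun k _ => Finset.sum_eq_zero (fun l _ => ?_))
    rw [if_pos (Subsingleton.elim k l)]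
  · have h2 : 1 < (Fintype.card κ : ℝ) := lt_of_le_of_ne hm (Ne.symm h1)
    have h3 : 0 < (Fintype.card κ : ℝ) * ((Fintype.card κ : ℝ) - 1) :=
      mul_pos (by linarith) (by linarith)
    refine ⟨(∑ k, ∑ l, (if k = l then 0 else f k l)) /
      ((Fintype.card κ : ℝ) * ((Fintype.card κ : ℝ) - 1)), by positivity, ?_⟩
    field_simp

lemma jensen_pairs (hβ : 0 < β) {f : κ → κ → ℝ} {γ : ℝ} (hγ : 0 ≤ γ)
    (hf : ∀ k l, k ≠ l → f k l < 1)
    (hsum : ∑ k, ∑ l, (if k = l then 0 else f k l)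
      = (Fintype.card κ : ℝ) * ((Fintype.card κ : ℝ) - 1) * (-γ)) :
    (Fintype.card κ : ℝ) * ((Fintype.card κ : ℝ) - 1) * G β (-γ)
      ≤ ∑ k, ∑ l, (if k = l then 0 else G β (f k l)) ∧
    (∑ k, ∑ l, (if k = l then 0 else G β (f k l))
      ≤ (Fintype.card κ : ℝ) * ((Fintype.card κ : ℝ) - 1) * G β (-γ) →
      ∀ k l, k ≠ l → f k l = -γ) := by
  have hJ := jensen_G (ι := κ × κ) hβ (w := fun p => if p.1 = p.2 then 0 else 1)
    (g := fun p => if p.1 = p.2 then 0 else f p.1 p.2) (a := -γ)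
    (by intro p; split_ifs <;> norm_num)
    (by
      intro p
      split_ifs with h
      · norm_num
      · exact hf _ _ h) (by linarith)
    (by
      rw [Fintype.sum_prod_type, Fintype.sum_prod_type]
      dsimp only
      rw [sum_offdiag_const, mul_one, ← hsum]
      refine Finset.sum_congr rfl (fun k _ => Finset.sum_congr rfl (fun l _ => ?_))
      split_ifs <;> simp)
  have e1 : ∑ p : κ × κ, (if p.1 = p.2 then (0 : ℝ) else 1)
      = (Fintype.card κ : ℝ) * ((Fintype.card κ : ℝ) - 1) := by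
    rw [Fintype.sum_prod_type]
    dsimp only
    rw [sum_offdiag_const, mul_one]
  have e2 : ∑ p : κ × κ, (if p.1 = p.2 then (0 : ℝ) else 1) *
        G β (if p.1 = p.2 then 0 else f p.1 p.2)
      = ∑ k, ∑ l, (if k = l then 0 else G β (f k l)) := by
    rw [Fintype.sum_prod_type]
    refine Finset.sum_congr rfl (fun k _ => Finset.sum_congr rfl (fun l _ => ?_))
    dsimp only
    split_ifs <;> simp
  rw [e1, e2] at hJ
  refine ⟨hJ.1, fun h k l hkl => ?_⟩
  have := hJ.2 h (k, l) (by simp [hkl])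
  simpa [hkl] using this

/-- The equality configuration in terms of inner products. -/
structure IsSym (α γ : ℝ) (x0 x1 x2 x3 : V) (y : κ → V) : Prop where
  a0 : ∀ k, (inner ℝ x0 (y k) : ℝ) = -α
  a1 : ∀ k, (inner ℝ x1 (y k) : ℝ) = -α
  a2 : ∀ k, (inner ℝ x2 (y k) : ℝ) = -α
  a3 : ∀ k, (inner ℝ x3 (y k) : ℝ) = -α
  b : ∀ k l, k ≠ l → (inner ℝ (y k) (y l) : ℝ) = -γ
  c01 : (inner ℝ x0 x1 : ℝ) = om (Fintype.card κ) α γ
  c03 : (inner ℝ x0 x3 : ℝ) = om (Fintype.card κ) α γ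
  c21 : (inner ℝ x2 x1 : ℝ) = om (Fintype.card κ) α γ
  c23 : (inner ℝ x2 x3 : ℝ) = om (Fintype.card κ) α γ
  d02 : (inner ℝ x0 x2 : ℝ) = 2 * om (Fintype.card κ) α γ - 1
  d13 : (inner ℝ x1 x3 : ℝ) = 2 * om (Fintype.card κ) α γ - 1

lemma qdev_zero {a b c d : ℝ} (h : qdev a b c d = 0) :
    a = (a + b + c + d) / 4 ∧ b = (a + b + c + d) / 4 ∧ c = (a + b + c + d) / 4 ∧
      d = (a + b + c + d) / 4 := by
  unfold qdev at h
  have h1 := sq_nonneg (a - (a + b + c + d) / 4)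
  have h2 := sq_nonneg (b - (a + b + c + d) / 4)
  have h3 := sq_nonneg (c - (a + b + c + d) / 4)
  have h4 := sq_nonneg (d - (a + b + c + d) / 4)
  refine ⟨?_, ?_, ?_, ?_⟩
  · have : (a - (a + b + c + d) / 4) ^ 2 = 0 := by linarith
    have := pow_eq_zero_iff (two_ne_zero) |>.1 this
    linarith
  · have : (b - (a + b + c + d) / 4) ^ 2 = 0 := by linarith
    have := pow_eq_zero_iff (two_ne_zero) |>.1 this
    linarith
  · have : (c - (a + b + c + d) / 4) ^ 2 = 0 := by linarith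
    have := pow_eq_zero_iff (two_ne_zero) |>.1 this
    linarith
  · have : (d - (a + b + c + d) / 4) ^ 2 = 0 := by linarith
    have := pow_eq_zero_iff (two_ne_zero) |>.1 this
    linarith

lemma muL_zero {a b c d : ℝ} (h : muL a b c d = 0) : a = b ∧ a = c ∧ a = d := by
  unfold muL at h
  have h1 := abs_nonneg ((a + b - c - d) / 4)
  have h2 := abs_nonneg ((a + c - b - d) / 4)
  have h3 := abs_nonneg ((a + d - b - c) / 4)
  have e1 : (a + b - c - d) / 4 = 0 := abs_eq_zero.1 (by linarith)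
  have e2 : (a + c - b - d) / 4 = 0 := abs_eq_zero.1 (by linarith)
  have e3 : (a + d - b - c) / 4 = 0 := abs_eq_zero.1 (by linarith)
  refine ⟨by linarith, by linarith, by linarith⟩

/-- Main local theorem. -/
theorem local_final (hB : Big (Fintype.card κ : ℝ) β ℓ) (hL : Loc β ℓ x0 x1 x2 x3 y) :
    ∃ α γ : ℝ, InDom (Fintype.card κ) α γ ∧ Phi (Fintype.card κ) β α γ ≤ Etot β x0 x1 x2 x3 y ∧
      (Etot β x0 x1 x2 x3 y ≤ Phi (Fintype.card κ) β α γ → IsSym α γ x0 x1 x2 x3 y) := by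
  obtain ⟨v0, v1, v2, v3, hM⟩ := exists_Mid hB hL
  have hF := stageC hB hL hM
  obtain ⟨⟨hO0, hO1⟩, -, -⟩ := stageC0 hB hL hM
  obtain ⟨hD1, hD2⟩ := stageD hB hL hM hF
  obtain ⟨hli, -⟩ := stageB hB hL
  have hβ : 0 < β := by linarith [hB.b1]
  have hm1 := hB.m1
  have hℓ := hB.lpos
  have hmpos : 0 < (Fintype.card κ : ℝ) := by linarith
  have hne : Nonempty κ := by
    rw [← Fintype.card_pos_iff]
    exact_mod_cast hmpos
  have hσ1 : 1 / (100 * (Fintype.card κ : ℝ)) ≤ 1 / 100 := by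
    apply one_div_le_one_div_of_le (by norm_num); linarith
  have hlowpos : 0 < (1 - 1 / (100 * (Fintype.card κ : ℝ))) * ℓ := mul_pos (by linarith) hℓ
  have hexp : ∀ v : V, (∀ k, (1 - 1 / (100 * (Fintype.card κ : ℝ))) * ℓ ≤ (inner ℝ v (y k) : ℝ)) →
      ∀ k, inner ℝ v (y k) = exp (tl v y k) := by
    intro v hv k
    unfold tl
    exact (exp_log (lt_of_lt_of_le hlowpos (hv k))).symm
  have e0 := hexp v0 hF.lo0
  have e1 := hexp v1 hF.lo1
  have e2 := hexp v2 hF.lo2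
  have e3 := hexp v3 hF.lo3
  set tb : κ → ℝ := fun k => (tl v0 y k + tl v1 y k + tl v2 y k + tl v3 y k) / 4 with htb
  obtain ⟨u, hu, hu'⟩ := exists_dual hli (fun k => exp (tb k))
  have hgeo := geo_mean hM.ny hM.neg hli hM.d0.mem hM.d1.mem hM.d2.mem hM.d3.mem hu e0 e1 e2 e3 hu'
  have hO4 : (inner ℝ (v0 + v2) (v1 + v3) : ℝ) = 4 * Obar v0 v1 v2 v3 := by
    unfold Obar; ring
  rw [hO4] at hgeo
  have huO : ‖u‖ ^ 2 ≤ Obar v0 v1 v2 v3 := by linarith
  have hcs := cs_bound (y := y) u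
  -- the parameters
  obtain ⟨γ, hγ0, hγ⟩ := exists_gamma (f := fun k l => -(inner ℝ (y k) (y l) : ℝ))
    (fun k l hkl => by linarith [hM.neg k l hkl]) hm1
  set M : ℝ := (Fintype.card κ : ℝ) with hMdef
  set α : ℝ := (∑ k, exp (tb k)) / M with hα
  have hsumpos : 0 < ∑ k, exp (tb k) := Finset.sum_pos (fun k _ => exp_pos _) Finset.univ_nonempty
  have hα0 : 0 < α := by rw [hα]; positivity
  have hαM : ∑ k, exp (tb k) = M * α := by rw [hα]; field_simp
  have hγ' : ∑ k, ∑ l, (if k = l then (0 : ℝ) else inner ℝ (y k) (y l)) = M * (M - 1) * (-γ) := by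
    have h1 : ∑ k, ∑ l, (if k = l then (0 : ℝ) else inner ℝ (y k) (y l))
        = -∑ k, ∑ l, (if k = l then (0 : ℝ) else -(inner ℝ (y k) (y l) : ℝ)) := by
      rw [← Finset.sum_neg_distrib]
      refine Finset.sum_congr rfl (fun k _ => ?_)
      rw [← Finset.sum_neg_distrib]
      refine Finset.sum_congr rfl (fun l _ => ?_)
      split_ifs <;> simp
    rw [h1, hγ]; ring
  have hgram : ∑ k, ∑ l, (inner ℝ (y k) (y l) : ℝ) = M - M * (M - 1) * γ := by
    have h1 : ∑ k, ∑ l, (inner ℝ (y k) (y l) : ℝ) = ∑ k : κ, ∑ l : κ, ((if k = l then (1 : ℝ) else 0)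
        + (if k = l then (0 : ℝ) else inner ℝ (y k) (y l))) := by
      refine Finset.sum_congr rfl (fun k _ => Finset.sum_congr rfl (fun l _ => ?_))
      split_ifs with h
      · subst h; rw [real_inner_self_eq_norm_sq, hM.ny]; norm_num
      · ring
    rw [h1]
    simp only [Finset.sum_add_distrib]
    rw [hγ']
    simp
    ring
  have hsumu : ∑ k, (inner ℝ u (y k) : ℝ) = M * α := by
    rw [← hαM]; exact Finset.sum_congr rfl (fun k _ => hu' k)
  rw [hsumu, hgram] at hcs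
  have hcs' : M * α ^ 2 ≤ ‖u‖ ^ 2 * (1 - (M - 1) * γ) := by
    have h1 : M * (M * α ^ 2) ≤ M * (‖u‖ ^ 2 * (1 - (M - 1) * γ)) := by nlinarith
    exact le_of_mul_le_mul_left h1 hmpos
  have hden : 0 < 1 - (M - 1) * γ := by
    by_contra hc
    push Not at hc
    have h1 : 0 < M * α ^ 2 := mul_pos hmpos (pow_pos hα0 2)
    have h2 : ‖u‖ ^ 2 * (1 - (M - 1) * γ) ≤ 0 :=
      mul_nonpos_of_nonneg_of_nonpos (sq_nonneg _) hc
    linarith
  have homu : om M α γ ≤ ‖u‖ ^ 2 := by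
    unfold om
    rw [div_le_iff₀ hden]; exact hcs'
  have homO : om M α γ ≤ Obar v0 v1 v2 v3 := homu.trans huO
  have hdom : InDom M α γ := ⟨hα0, hγ0, by linarith, by linarith⟩
  -- Jensen
  have hJ1 := jensen_G (ι := κ) hβ (w := fun _ => (1 : ℝ)) (g := fun k => -exp (tb k)) (a := -α)
    (fun _ => zero_le_one) (fun k => by linarith [exp_pos (tb k)]) (by linarith)
    (by
      simp only [one_mul, Finset.sum_neg_distrib, Finset.sum_const, Finset.card_univ,
        nsmul_eq_mul, mul_one]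
      rw [hαM, ← hMdef]; ring)
  simp only [one_mul, Finset.sum_const, Finset.card_univ, nsmul_eq_mul, mul_one] at hJ1
  rw [← hMdef] at hJ1
  obtain ⟨hJ1a, hJ1b⟩ := hJ1
  obtain ⟨hJ2a, hJ2b⟩ := jensen_pairs (f := fun k l => (inner ℝ (y k) (y l) : ℝ)) hβ hγ0
    (fun k l hkl => by linarith [hM.neg k l hkl]) hγ'
  rw [← hMdef] at hJ2a hJ2b
  -- diagonals
  have hd02 := diag_lower hM.d0.mem hM.d2.mem hM.d0.orth hM.d2.orth hL.n0 hL.n2
  have hd13 := diag_lower hM.d1.mem hM.d3.mem hM.d1.orth hM.d3.orth hL.n1 hL.n3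
  have heta := eta_le hm1
  have hg02 : (inner ℝ x0 x2 : ℝ) < 1 := by linarith [hL.h02]
  have hg13 : (inner ℝ x1 x3 : ℝ) < 1 := by linarith [hL.h13]
  have hdiagsum : 2 * Obar v0 v1 v2 v3 - 1 ≤ ((inner ℝ x0 x2 : ℝ) + inner ℝ x1 x3) / 2 := by
    have h1 : 4 * Obar v0 v1 v2 v3 ≤ (‖v0 + v2‖ ^ 2 + ‖v1 + v3‖ ^ 2) / 2 := by
      rw [← hO4]
      have := real_inner_le_norm (v0 + v2) (v1 + v3)
      nlinarith [sq_nonneg (‖v0 + v2‖ - ‖v1 + v3‖)]
    linarith
  have hmid := G_mid hβ hg02 hg13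
  have hdiagG : 2 * G β (2 * Obar v0 v1 v2 v3 - 1) ≤ G β (inner ℝ x0 x2) + G β (inner ℝ x1 x3) := by
    have := G_mono hβ hdiagsum (by linarith)
    linarith
  have hGO : G β (om M α γ) ≤ G β (Obar v0 v1 v2 v3) := G_mono hβ homO (by linarith)
  have hGO2 : G β (2 * om M α γ - 1) ≤ G β (2 * Obar v0 v1 v2 v3 - 1) :=
    G_mono hβ (by linarith) (by linarith)
  have hS := S2_nonneg v0 v1 v2 v3 y
  have hc : 0 < exp (-(3 / 2) * (β * ℓ)) := exp_pos _
  have hcS : 0 ≤ exp (-(3 / 2) * (β * ℓ)) * S2 v0 v1 v2 v3 y := by positivity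
  have hGOpos := G_pos β (Obar v0 v1 v2 v3)
  have hmu0 := muL_nonneg (LL β (inner ℝ x0 x1)) (LL β (inner ℝ x0 x3))
        (LL β (inner ℝ x2 x1)) (LL β (inner ℝ x2 x3))
  have hmuz := @muL_zero (LL β (inner ℝ x0 x1)) (LL β (inner ℝ x0 x3))
        (LL β (inner ℝ x2 x1)) (LL β (inner ℝ x2 x3))
  generalize muL (LL β (inner ℝ x0 x1)) (LL β (inner ℝ x0 x3))
        (LL β (inner ℝ x2 x1)) (LL β (inner ℝ x2 x3)) = μ at *
  have hμ2 : 0 ≤ G β (Obar v0 v1 v2 v3) * μ ^ 2 := by positivity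
  have hEt := Etot_split β x0 x1 x2 x3 y
  refine ⟨α, γ, hdom, ?_, ?_⟩
  · rw [hEt]
    unfold Phi
    linarith
  · intro hle
    rw [hEt] at hle
    unfold Phi at hle
    have hGO3 := G_pos β (om M α γ)
    have hS0 : S2 v0 v1 v2 v3 y = 0 := by
      have h1 : exp (-(3 / 2) * (β * ℓ)) * S2 v0 v1 v2 v3 y ≤ 0 := by linarith
      have h2 : exp (-(3 / 2) * (β * ℓ)) * S2 v0 v1 v2 v3 y = 0 := le_antisymm h1 hcS
      exact (mul_eq_zero.1 h2).resolve_left hc.ne'
    have hμz : μ = 0 := by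
      have h1 : G β (Obar v0 v1 v2 v3) * μ ^ 2 = 0 := le_antisymm (by linarith) hμ2
      have h2 : μ ^ 2 = 0 := (mul_eq_zero.1 h1).resolve_left hGOpos.ne'
      exact pow_eq_zero_iff (two_ne_zero) |>.1 h2
    rw [hS0] at hD1 hD2
    rw [hμz] at hD1
    have hGOe : G β (Obar v0 v1 v2 v3) = G β (om M α γ) := le_antisymm (by linarith) hGO
    have hOom : Obar v0 v1 v2 v3 = om M α γ := G_inj hβ (by linarith) hdom.2.2.2 hGOe
    have hE1 := hJ1b (by linarith)
    have hE2 := hJ2b (by linarith)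
    have hαk : ∀ k, exp (tb k) = α := fun k => by linarith [hE1 k one_pos]
    have hq : ∀ k, qdev (tl v0 y k) (tl v1 y k) (tl v2 y k) (tl v3 y k) = 0 := by
      intro k
      exact (Finset.sum_eq_zero_iff_of_nonneg (fun k _ => qdev_nonneg _ _ _ _)).1 hS0 k
        (Finset.mem_univ k)
    have w0 : ∀ k, (inner ℝ v0 (y k) : ℝ) = α := by
      intro k; rw [e0 k, (qdev_zero (hq k)).1]; exact hαk k
    have w1 : ∀ k, (inner ℝ v1 (y k) : ℝ) = α := by
      intro k; rw [e1 k, (qdev_zero (hq k)).2.1]; exact hαk k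
    have w2 : ∀ k, (inner ℝ v2 (y k) : ℝ) = α := by
      intro k; rw [e2 k, (qdev_zero (hq k)).2.2.1]; exact hαk k
    have w3 : ∀ k, (inner ℝ v3 (y k) : ℝ) = α := by
      intro k; rw [e3 k, (qdev_zero (hq k)).2.2.2]; exact hαk k
    have v10 : v1 = v0 := eq_of_inner_eq hM.d1.mem hM.d0.mem (fun k => by rw [w1, w0])
    have v20 : v2 = v0 := eq_of_inner_eq hM.d2.mem hM.d0.mem (fun k => by rw [w2, w0])
    have v30 : v3 = v0 := eq_of_inner_eq hM.d3.mem hM.d0.mem (fun k => by rw [w3, w0])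
    have hOv : Obar v0 v1 v2 v3 = ‖v0‖ ^ 2 := by
      unfold Obar
      rw [v10, v20, v30, real_inner_self_eq_norm_sq, ← two_smul ℝ v0, norm_smul]
      norm_num
      ring
    have hnorm2 : ‖v0 + v0‖ ^ 2 = 4 * ‖v0‖ ^ 2 := by
      rw [← two_smul ℝ v0, norm_smul]
      norm_num
      ring
    have c02 : 2 * om M α γ - 1 ≤ (inner ℝ x0 x2 : ℝ) := by
      rw [v20, hnorm2, ← hOv, hOom] at hd02
      linarith
    have c13 : 2 * om M α γ - 1 ≤ (inner ℝ x1 x3 : ℝ) := by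
      rw [v10, v30, hnorm2, ← hOv, hOom] at hd13
      linarith
    have f02 := G_mono hβ c02 hg02
    have f13 := G_mono hβ c13 hg13
    have hmlt : 2 * om M α γ - 1 < 1 := by linarith [hdom.2.2.2]
    have g02 : G β (2 * om M α γ - 1) = G β (inner ℝ x0 x2) := le_antisymm f02 (by linarith)
    have g13 : G β (2 * om M α γ - 1) = G β (inner ℝ x1 x3) := le_antisymm f13 (by linarith)
    obtain ⟨L1, L2, L3⟩ := hmuz hμz
    have h03 : G β (inner ℝ x0 x3) = G β (inner ℝ x0 x1) := by unfold G; rw [← L1]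
    have h21 : G β (inner ℝ x2 x1) = G β (inner ℝ x0 x1) := by unfold G; rw [← L2]
    have h23 : G β (inner ℝ x2 x3) = G β (inner ℝ x0 x1) := by unfold G; rw [← L3]
    have hSadj : Sadj β x0 x1 x2 x3 = 4 * G β (inner ℝ x0 x1) := by
      unfold Sadj; rw [h03, h21, h23]; ring
    have h01 : G β (inner ℝ x0 x1) = G β (om M α γ) := by
      apply le_antisymm
      · linarith
      · linarith
    refine ⟨fun k => ?_, fun k => ?_, fun k => ?_, fun k => ?_, hE2, ?_, ?_, ?_, ?_, ?_, ?_⟩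
    · have := hM.d0.inn k; rw [w0] at this; linarith
    · have := hM.d1.inn k; rw [w1] at this; linarith
    · have := hM.d2.inn k; rw [w2] at this; linarith
    · have := hM.d3.inn k; rw [w3] at this; linarith
    · exact G_inj hβ hL.l01 hdom.2.2.2 h01
    · exact G_inj hβ hL.l03 hdom.2.2.2 (h03.trans h01)
    · exact G_inj hβ hL.l21 hdom.2.2.2 (h21.trans h01)
    · exact G_inj hβ hL.l23 hdom.2.2.2 (h23.trans h01)
    · exact (G_inj hβ hmlt hg02 g02).symm
    · exact (G_inj hβ hmlt hg13 g13).symm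

end

end Pool.Agent.Riesz
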