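import Mathlib
import Pool.Agent.Riesz.Local4

set_option autoImplicit false

open Real Finset

namespace Pool.Agent.Riesz

section

variable {V : Type*} [NormedAddCommGroup V] [InnerProductSpace ℝ V]
variable {κ : Type*} [Fintype κ] [DecidableEq κ]

lemma om_nonneg {m α γ : ℝ} (hm : 0 ≤ m) (h : (m - 1) * γ < 1) : 0 ≤ om m α γ := by
  unfold om
  exact div_nonneg (by positivity) (by linarith)

/-- The explicit symmetric configuration. -/
lemma exists_sym {e : κ ⊕ Fin 2 → V} (he : Orthonormal ℝ e) (hm : 1 ≤ (Fintype.card κ : ℝ))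
    {α γ : ℝ} (hdom : InDom (Fintype.card κ) α γ) :
    ∃ x0 x1 x2 x3 : V, ∃ y : κ → V, ‖x0‖ = 1 ∧ ‖x1‖ = 1 ∧ ‖x2‖ = 1 ∧ ‖x3‖ = 1 ∧
      (∀ k, ‖y k‖ = 1) ∧ IsSym α γ x0 x1 x2 x3 y := by
  obtain ⟨hα, hγ, hden, hom⟩ := hdom
  set M : ℝ := (Fintype.card κ : ℝ) with hM
  have hM0 : 0 < M := by linarith
  have hom0 : 0 ≤ om M α γ := om_nonneg hM0.le hden
  set s : V := ∑ k, e (Sum.inl k) with hs
  have hee : ∀ i j, inner ℝ (e i) (e j) = if i = j then (1 : ℝ) else 0 := by
    intro i j
    exact (orthonormal_iff_ite.1 he) i j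
  have hse : ∀ k, (inner ℝ s (e (Sum.inl k)) : ℝ) = 1 := by
    intro k
    rw [hs, sum_inner]
    simp [hee]
  have hsf : ∀ j, (inner ℝ s (e (Sum.inr j)) : ℝ) = 0 := by
    intro j
    rw [hs, sum_inner]
    simp [hee]
  have hss : (inner ℝ s s : ℝ) = M := by
    nth_rewrite 2 [hs]
    rw [inner_sum]
    simp [hse, hM]
  have hff : ∀ i j : Fin 2, (inner ℝ (e (Sum.inr i)) (e (Sum.inr j)) : ℝ) = if i = j then 1 else 0 := by
    intro i j
    rw [hee]; simp
  have hef : ∀ k (j : Fin 2), (inner ℝ (e (Sum.inl k)) (e (Sum.inr j)) : ℝ) = 0 := by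
    intro k j
    rw [hee]; simp
  have hel : ∀ k l, (inner ℝ (e (Sum.inl k)) (e (Sum.inl l)) : ℝ) = if k = l then 1 else 0 := by
    intro k l
    rw [hee]; simp
  set D : ℝ := 1 - (M - 1) * γ with hD
  have hD0 : 0 < D := by linarith
  set a : ℝ := √(1 + γ) with ha
  have ha2 : a ^ 2 = 1 + γ := Real.sq_sqrt (by linarith)
  set q : ℝ := √D with hq
  have hq0 : 0 < q := Real.sqrt_pos.2 hD0
  have hq2 : q ^ 2 = D := Real.sq_sqrt hD0.le
  set b : ℝ := (q - a) / M with hb
  have hbM : b * M = q - a := by rw [hb]; field_simp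
  have hb2 : 2 * a * b + b ^ 2 * M = -γ := by
    have h1 : 2 * a * b + b ^ 2 * M = b * (b * M + 2 * a) := by ring
    rw [h1, hbM]
    have h2 : b * (q - a + 2 * a) = (q ^ 2 - a ^ 2) / M := by rw [hb]; field_simp; ring
    rw [h2, hq2, ha2, hD]
    field_simp
    ring
  set c : ℝ := α / q with hc
  have hcq : c * q = α := by rw [hc]; field_simp
  have hc2 : c ^ 2 * M = om M α γ := by
    unfold om
    rw [hc, div_pow, hq2, ← hD]; ring
  set r : ℝ := √(1 - om M α γ) with hr
  have hr2 : r ^ 2 = 1 - om M α γ := Real.sq_sqrt (by linarith)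
  set y : κ → V := fun k => a • e (Sum.inl k) + b • s with hy
  have hyy : ∀ k l, (inner ℝ (y k) (y l) : ℝ) = (if k = l then a ^ 2 else 0) - γ := by
    intro k l
    simp only [hy]
    rw [inner_add_left, inner_add_right, inner_add_right, real_inner_smul_left,
      real_inner_smul_left, real_inner_smul_left, real_inner_smul_left, real_inner_smul_right,
      real_inner_smul_right, real_inner_smul_right, real_inner_smul_right, hel, hse, hss,
      real_inner_comm s (e (Sum.inl k)), hse]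
    have : (a * (a * if k = l then (1 : ℝ) else 0)) = if k = l then a ^ 2 else 0 := by
      split_ifs <;> ring
    rw [this]
    linarith
  have hwy : ∀ k, (inner ℝ (-c • s) (y k) : ℝ) = -α := by
    intro k
    simp only [hy]
    rw [real_inner_smul_left, inner_add_right, real_inner_smul_right, real_inner_smul_right, hse, hss]
    have : a * 1 + b * M = q := by rw [hbM]; ring
    rw [this]
    linarith
  have hfy : ∀ (j : Fin 2) k, (inner ℝ (e (Sum.inr j)) (y k) : ℝ) = 0 := by
    intro j k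
    simp only [hy]
    rw [inner_add_right, real_inner_smul_right, real_inner_smul_right,
      real_inner_comm (e (Sum.inl k)), hef, real_inner_comm s, hsf]
    ring
  have hww : (inner ℝ (-c • s) (-c • s) : ℝ) = om M α γ := by
    rw [real_inner_smul_left, real_inner_smul_right, hss, ← hc2]; ring
  have hwf : ∀ j : Fin 2, (inner ℝ (-c • s) (e (Sum.inr j)) : ℝ) = 0 := by
    intro j
    rw [real_inner_smul_left, hsf]; ring
  -- general inner products of apex points
  have hxy : ∀ (j : Fin 2) (t : ℝ) k, (inner ℝ (-c • s + t • e (Sum.inr j)) (y k) : ℝ) = -α := by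
    intro j t k
    rw [inner_add_left, hwy, real_inner_smul_left, hfy]; ring
  have hxx : ∀ (i j : Fin 2) (t u : ℝ),
      (inner ℝ (-c • s + t • e (Sum.inr i)) (-c • s + u • e (Sum.inr j)) : ℝ)
        = om M α γ + t * u * (if i = j then 1 else 0) := by
    intro i j t u
    rw [inner_add_left, inner_add_right, inner_add_right, hww, real_inner_smul_right, hwf,
      real_inner_smul_left, real_inner_comm (-c • s), hwf, real_inner_smul_left,
      real_inner_smul_right, hff]
    ring
  have hunit : ∀ (j : Fin 2) (t : ℝ), t ^ 2 = r ^ 2 → ‖-c • s + t • e (Sum.inr j)‖ = 1 := by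
    intro j t ht
    have h1 : ‖-c • s + t • e (Sum.inr j)‖ ^ 2 = 1 := by
      rw [← real_inner_self_eq_norm_sq, hxx, if_pos rfl]
      have : t * t = r ^ 2 := by rw [← ht]; ring
      rw [this, hr2]; ring
    have h2 := norm_nonneg (-c • s + t • e (Sum.inr j))
    nlinarith
  refine ⟨-c • s + r • e (Sum.inr 0), -c • s + r • e (Sum.inr 1), -c • s + (-r) • e (Sum.inr 0),
    -c • s + (-r) • e (Sum.inr 1), y, hunit 0 r rfl, hunit 1 r rfl, hunit 0 (-r) (by ring),
    hunit 1 (-r) (by ring), ?_, ?_⟩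
  · intro k
    have h1 : ‖y k‖ ^ 2 = 1 := by
      rw [← real_inner_self_eq_norm_sq, hyy, if_pos rfl, ha2]; ring
    have h2 := norm_nonneg (y k)
    nlinarith
  · refine ⟨hxy 0 r, hxy 1 r, hxy 0 (-r), hxy 1 (-r), ?_, ?_, ?_, ?_, ?_, ?_, ?_⟩
    · intro k l hkl
      rw [hyy, if_neg hkl]; ring
    · rw [hxx, if_neg (by decide)]; ring
    · rw [hxx, if_neg (by decide)]; ring
    · rw [hxx, if_neg (by decide)]; ring
    · rw [hxx, if_neg (by decide)]; ring
    · rw [hxx, if_pos rfl]
      have : r * -r * 1 = -r ^ 2 := by ring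
      rw [this, hr2, hM]; ring
    · rw [hxx, if_pos rfl]
      have : r * -r * 1 = -r ^ 2 := by ring
      rw [this, hr2, hM]; ring

/-- Energy of a symmetric configuration. -/
lemma Etot_sym {β α γ : ℝ} {x0 x1 x2 x3 : V} {y : κ → V} (h : IsSym α γ x0 x1 x2 x3 y) :
    Etot β x0 x1 x2 x3 y = Phi (Fintype.card κ) β α γ := by
  unfold Etot Phi
  have h1 : ∑ k, (G β (inner ℝ x0 (y k)) + G β (inner ℝ x1 (y k)) + G β (inner ℝ x2 (y k))
      + G β (inner ℝ x3 (y k))) = (Fintype.card κ : ℝ) * (4 * G β (-α)) := by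
    rw [Finset.sum_congr rfl (fun k _ => by rw [h.a0 k, h.a1 k, h.a2 k, h.a3 k])]
    rw [Finset.sum_const, Finset.card_univ, nsmul_eq_mul]
    ring
  have h2 : ∑ k, ∑ l, (if k = l then 0 else G β (inner ℝ (y k) (y l)))
      = (Fintype.card κ : ℝ) * ((Fintype.card κ : ℝ) - 1) * G β (-γ) := by
    rw [← sum_offdiag_const (κ := κ) (G β (-γ))]
    refine Finset.sum_congr rfl (fun k _ => Finset.sum_congr rfl (fun l _ => ?_))
    split_ifs with hkl
    · rfl
    · rw [h.b k l hkl]
  rw [h1, h2, h.c01, h.c03, h.c21, h.c23, h.d02, h.d13]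
  ring

end

end Pool.Agent.Riesz
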