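import Mathlib
import Pool.Agent.Riesz.Local4

set_option autoImplicit false

open Real Finset

namespace Pool.Agent.Riesz

lemma titu {a b d e : ℝ} (hd : 0 < d) (he : 0 < e) :
    ((a + b) / 2) ^ 2 / ((d + e) / 2) ≤ (a ^ 2 / d + b ^ 2 / e) / 2 := by
  rw [div_add_div _ _ hd.ne' he.ne', div_div, div_le_div_iff₀ (by positivity) (by positivity)]
  have key : ((a ^ 2 * e + d * b ^ 2) * ((d + e) / 2)) - (((a + b) / 2) ^ 2 * (d * e * 2))
      = (a * e - b * d) ^ 2 / 2 := by ring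
  nlinarith [sq_nonneg (a * e - b * d)]

lemma om_mid {m α1 γ1 α2 γ2 : ℝ} (hm : 0 ≤ m) (h1 : (m - 1) * γ1 < 1) (h2 : (m - 1) * γ2 < 1) :
    om m ((α1 + α2) / 2) ((γ1 + γ2) / 2) ≤ (om m α1 γ1 + om m α2 γ2) / 2 := by
  unfold om
  have e : 1 - (m - 1) * ((γ1 + γ2) / 2) = ((1 - (m - 1) * γ1) + (1 - (m - 1) * γ2)) / 2 := by ring
  rw [e]
  have h := titu (a := α1) (b := α2) (d := 1 - (m - 1) * γ1) (e := 1 - (m - 1) * γ2)
    (by linarith) (by linarith)
  have h3 := mul_le_mul_of_nonneg_left h hm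
  calc m * ((α1 + α2) / 2) ^ 2 / (((1 - (m - 1) * γ1) + (1 - (m - 1) * γ2)) / 2)
      = m * (((α1 + α2) / 2) ^ 2 / (((1 - (m - 1) * γ1) + (1 - (m - 1) * γ2)) / 2)) := by ring
    _ ≤ m * ((α1 ^ 2 / (1 - (m - 1) * γ1) + α2 ^ 2 / (1 - (m - 1) * γ2)) / 2) := h3
    _ = _ := by ring

lemma Phi_unique {m β α1 γ1 α2 γ2 : ℝ} (hm : 1 ≤ m) (hβ : 0 < β) (h1 : InDom m α1 γ1)
    (h2 : InDom m α2 γ2) (hmin1 : ∀ α γ, InDom m α γ → Phi m β α1 γ1 ≤ Phi m β α γ)
    (hmin2 : ∀ α γ, InDom m α γ → Phi m β α2 γ2 ≤ Phi m β α γ) :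
    α1 = α2 ∧ (m = 1 ∨ γ1 = γ2) := by
  obtain ⟨a1, b1, c1, d1⟩ := h1
  obtain ⟨a2, b2, c2, d2⟩ := h2
  have hom := om_mid (m := m) (α1 := α1) (γ1 := γ1) (α2 := α2) (γ2 := γ2) (by linarith) c1 c2
  have hdom : InDom m ((α1 + α2) / 2) ((γ1 + γ2) / 2) :=
    ⟨by linarith, by linarith, by nlinarith, by linarith⟩
  have k1 := hmin1 _ _ hdom
  have k2 := hmin2 _ _ hdom
  have p1 := G_mid hβ (show -α1 < 1 by linarith) (show -α2 < 1 by linarith)
  rw [show (-α1 + -α2) / 2 = -((α1 + α2) / 2) by ring] at p1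
  have p2 := G_mid hβ (show -γ1 < 1 by linarith) (show -γ2 < 1 by linarith)
  rw [show (-γ1 + -γ2) / 2 = -((γ1 + γ2) / 2) by ring] at p2
  have p3 := G_mid hβ d1 d2
  have p3' := G_mono hβ hom (by linarith)
  have p4 := G_mid hβ (show 2 * om m α1 γ1 - 1 < 1 by linarith)
    (show 2 * om m α2 γ2 - 1 < 1 by linarith)
  have p4' := G_mono hβ (show 2 * om m ((α1 + α2) / 2) ((γ1 + γ2) / 2) - 1
    ≤ ((2 * om m α1 γ1 - 1) + (2 * om m α2 γ2 - 1)) / 2 by linarith) (by linarith)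
  have hc1 : 0 ≤ m * (m - 1) / 2 := by
    have := mul_nonneg (show 0 ≤ m by linarith) (show 0 ≤ m - 1 by linarith)
    linarith
  have q1 := mul_le_mul_of_nonneg_left p1 (show 0 ≤ 4 * m by linarith)
  have q2 := mul_le_mul_of_nonneg_left p2 hc1
  unfold Phi at k1 k2
  constructor
  · by_contra hne
    have p1' := G_mid_lt hβ (show -α1 < 1 by linarith) (show -α2 < 1 by linarith)
      (fun h => hne (by linarith))
    rw [show (-α1 + -α2) / 2 = -((α1 + α2) / 2) by ring] at p1'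
    have q1' := mul_lt_mul_of_pos_left p1' (show 0 < 4 * m by linarith)
    linarith
  · by_contra hcon
    push Not at hcon
    obtain ⟨hm1, hne⟩ := hcon
    have hm1' : 0 < m - 1 := by
      rcases lt_or_eq_of_le hm with h | h
      · linarith
      · exact absurd h.symm hm1
    have p2' := G_mid_lt hβ (show -γ1 < 1 by linarith) (show -γ2 < 1 by linarith)
      (fun h => hne (by linarith))
    rw [show (-γ1 + -γ2) / 2 = -((γ1 + γ2) / 2) by ring] at p2'
    have q2' := mul_lt_mul_of_pos_left p2' (show 0 < m * (m - 1) / 2 by positivity)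
    linarith

lemma G_continuousOn (β : ℝ) : ContinuousOn (G β) (Set.Iio 1) := by
  unfold G LL
  apply ContinuousOn.rexp
  apply ContinuousOn.mul continuousOn_const
  apply ContinuousOn.log
  · fun_prop
  · intro x hx
    have : x < 1 := hx
    linarith

lemma Phi_exists {m : ℕ} (hm : 1 ≤ m) {β α' γ' : ℝ} (hβ : 1 ≤ β) (hdom : InDom m α' γ')
    (hle : Phi m β α' γ' < 8) (hom : om m α' γ' ≤ 1 / 2) :
    ∃ α γ : ℝ, InDom m α γ ∧ ∀ a g, InDom m a g → Phi m β α γ ≤ Phi m β a g := by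
  have hm' : (1 : ℝ) ≤ m := by exact_mod_cast hm
  have hβ0 : 0 < β := by linarith
  set K : Set (ℝ × ℝ × ℝ) := {p | 0 ≤ p.1 ∧ p.1 ≤ 1 ∧ 0 ≤ p.2.1 ∧ p.2.1 ≤ 1 ∧ 0 ≤ p.2.2 ∧
    p.2.2 ≤ 1 / 2 ∧ (m - 1) * p.2.1 ≤ 1 ∧ m * p.1 ^ 2 ≤ p.2.2 * (1 - (m - 1) * p.2.1)} with hK
  set Ψ : ℝ × ℝ × ℝ → ℝ := fun p => 4 * m * G β (-p.1) + m * (m - 1) / 2 * G β (-p.2.1)
    + 4 * G β p.2.2 + 2 * G β (2 * p.2.2 - 1) with hΨ
  have hKc : IsCompact K := by
    have hsub : K ⊆ Set.Icc (0 : ℝ) 1 ×ˢ (Set.Icc (0 : ℝ) 1 ×ˢ Set.Icc (0 : ℝ) 1) := by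
      rintro ⟨a, g, w⟩ ⟨h1, h2, h3, h4, h5, h6, -, -⟩
      simp only [Set.mem_prod, Set.mem_Icc]
      dsimp only at h1 h2 h3 h4 h5 h6
      exact ⟨⟨h1, h2⟩, ⟨h3, h4⟩, ⟨h5, by linarith⟩⟩
    refine IsCompact.of_isClosed_subset (isCompact_Icc.prod (isCompact_Icc.prod isCompact_Icc)) ?_ hsub
    rw [hK]
    simp only [Set.ofPred_and]
    refine IsClosed.inter (isClosed_le (by fun_prop) (by fun_prop)) ?_
    refine IsClosed.inter (isClosed_le (by fun_prop) (by fun_prop)) ?_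
    refine IsClosed.inter (isClosed_le (by fun_prop) (by fun_prop)) ?_
    refine IsClosed.inter (isClosed_le (by fun_prop) (by fun_prop)) ?_
    refine IsClosed.inter (isClosed_le (by fun_prop) (by fun_prop)) ?_
    refine IsClosed.inter (isClosed_le (by fun_prop) (by fun_prop)) ?_
    exact IsClosed.inter (isClosed_le (by fun_prop) (by fun_prop))
      (isClosed_le (by fun_prop) (by fun_prop))
  have hcont : ContinuousOn Ψ K := by
    have hG : ∀ f : ℝ × ℝ × ℝ → ℝ, Continuous f → (∀ p ∈ K, f p < 1) →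
        ContinuousOn (fun p => G β (f p)) K := fun f hf h =>
      (G_continuousOn β).comp hf.continuousOn h
    have c1 := hG (fun p => -p.1) (by fun_prop) (by rintro p ⟨h1, -⟩; linarith)
    have c2 := hG (fun p => -p.2.1) (by fun_prop) (by rintro p ⟨-, -, h3, -⟩; linarith)
    have c3 := hG (fun p => p.2.2) (by fun_prop) (by rintro p ⟨-, -, -, -, -, h6, -⟩; linarith)
    have c4 := hG (fun p => 2 * p.2.2 - 1) (by fun_prop)
      (by rintro p ⟨-, -, -, -, -, h6, -⟩; linarith)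
    exact (((c1.const_mul _).add (c2.const_mul _)).add (c3.const_mul _)).add (c4.const_mul _)
  -- reduction of points of the domain
  have hred : ∀ a g, InDom m a g → om m a g ≤ 1 / 2 →
      ∃ p ∈ K, Ψ p = Phi m β a g := by
    intro a g ⟨h1, h2, h3, h4⟩ h5
    have hden : 0 < 1 - (m - 1) * g := by linarith
    have hom0 : 0 ≤ om m a g := by unfold om; positivity
    have hma : m * a ^ 2 = om m a g * (1 - (m - 1) * g) := by
      unfold om; field_simp
    have ha1 : a ≤ 1 := by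
      have h6 : (m - 1) * g ≥ 0 := mul_nonneg (by linarith) h2
      by_contra hc
      push Not at hc
      have : 1 < m * a ^ 2 := by nlinarith
      have : om m a g * (1 - (m - 1) * g) ≤ 1 := by nlinarith
      linarith
    by_cases hm1 : m = 1
    · refine ⟨(a, 0, om m a g), ?_, ?_⟩
      · refine ⟨h1.le, ha1, le_rfl, zero_le_one, hom0, h5, ?_, ?_⟩
        · dsimp only; rw [mul_zero]; exact zero_le_one
        · dsimp only
          rw [hma]
          subst hm1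
          norm_num
      · simp only [hΨ, Phi]
        subst hm1
        norm_num
    · have hm2 : (2 : ℝ) ≤ m := by
        have : 2 ≤ m := by omega
        exact_mod_cast this
      refine ⟨(a, g, om m a g), ?_, rfl⟩
      refine ⟨h1.le, ha1, h2, ?_, hom0, h5, h3.le, ?_⟩
      · dsimp only; nlinarith
      · dsimp only; rw [hma]
  obtain ⟨p0, hp0, hp0'⟩ := hred α' γ' hdom hom
  obtain ⟨⟨a, g, w⟩, hpK, hmin⟩ := hKc.exists_isMinOn ⟨p0, hp0⟩ hcont
  have hmin' : ∀ q ∈ K, Ψ (a, g, w) ≤ Ψ q := fun q hq => hmin hq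
  have hlt : Ψ (a, g, w) < 8 := lt_of_le_of_lt (hmin' p0 hp0) (by rw [hp0']; exact hle)
  obtain ⟨k1, k2, k3, k4, k5, k6, k7, k8⟩ := hpK
  dsimp only at k1 k2 k3 k4 k5 k6 k7 k8
  have hGw : 1 ≤ G β w := by rw [← G_zero β]; exact G_mono hβ0 k5 (by linarith)
  have hcoef : 0 ≤ (m : ℝ) * (m - 1) / 2 := by
    have := mul_nonneg (show (0 : ℝ) ≤ m by linarith) (show 0 ≤ (m : ℝ) - 1 by linarith)
    linarith
  have hapos : 0 < a := by
    rcases k1.eq_or_lt with h | h
    · exfalso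
      have : Ψ (a, g, w) ≥ 8 := by
        simp only [hΨ]
        rw [← h, neg_zero, G_zero]
        have h1 := mul_nonneg hcoef (G_pos β (-g)).le
        have h2 := G_pos β (2 * w - 1)
        linarith
      linarith
    · exact h
  have hden : 0 < 1 - (m - 1) * g := by
    have h1 : 0 < m * a ^ 2 := by positivity
    by_contra hc
    push Not at hc
    have : w * (1 - (m - 1) * g) ≤ 0 := mul_nonpos_of_nonneg_of_nonpos k5 hc
    linarith
  have homw : om m a g ≤ w := by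
    unfold om
    rw [div_le_iff₀ hden]; exact k8
  have hdomag : InDom m a g := ⟨hapos, k3, by linarith, by linarith⟩
  have hPhiΨ : Phi m β a g ≤ Ψ (a, g, w) := by
    simp only [hΨ]
    unfold Phi
    have h1 := G_mono hβ0 homw (by linarith)
    have h2 := G_mono hβ0 (show 2 * om m a g - 1 ≤ 2 * w - 1 by linarith) (by linarith)
    linarith
  refine ⟨a, g, hdomag, fun b h hb => ?_⟩
  by_cases hbo : om m b h ≤ 1 / 2
  · obtain ⟨q, hq, hq'⟩ := hred b h hb hbo
    rw [← hq']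
    exact hPhiΨ.trans (hmin' q hq)
  · push Not at hbo
    have h1 : G β (1 / 2) ≤ G β (om m b h) := G_mono hβ0 hbo.le hb.2.2.2
    have h2 : 2 ≤ G β (1 / 2) := by
      rw [G_eq (by norm_num)]
      have : (1 - 1 / 2 : ℝ) ^ (-β) = 2 ^ β := by
        rw [show (1 - 1 / 2 : ℝ) = (2 : ℝ)⁻¹ by norm_num, Real.inv_rpow (by norm_num),
          Real.rpow_neg (by norm_num), inv_inv]
      rw [this]
      calc (2 : ℝ) = 2 ^ (1 : ℝ) := by rw [Real.rpow_one]
        _ ≤ 2 ^ β := Real.rpow_le_rpow_of_exponent_le (by norm_num) hβ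
    have h3 : 8 ≤ Phi m β b h := by
      unfold Phi
      have h4 := mul_nonneg hcoef (G_pos β (-h)).le
      have h5 := G_pos β (2 * om m b h - 1)
      have h6 : 0 ≤ 4 * (m : ℝ) * G β (-b) := by
        have := G_pos β (-b)
        positivity
      linarith
    linarith

end Pool.Agent.Riesz
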