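import Mathlib
import Pool.Agent.Riesz.PhiProp

set_option autoImplicit false

open Real Finset

namespace Pool.Agent.Riesz

section

variable {m β : ℝ}

lemma large_facts (hm : 1 ≤ m) (hβ : 0 < β) (hL : 10 ^ 16 * m ^ 4 ≤ log β) :
    10 ^ 16 ≤ log β ∧ log β ^ 2 / β ≤ 6 / log β ∧ log β / β ≤ log β ^ 2 / β ∧
    m ^ 3 * (log β ^ 2 / β) ≤ 6 / 10 ^ 16 ∧ log β ≤ β := by
  have hm4 : (1 : ℝ) ≤ m ^ 4 := one_le_pow₀ hm
  have h1 : (10 : ℝ) ^ 16 ≤ log β := by nlinarith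
  have hL0 : 0 < log β := by linarith [show (0 : ℝ) < 10 ^ 16 by norm_num]
  have hβe : β = exp (log β) := (exp_log hβ).symm
  have h2 : log β ^ 3 / 6 ≤ β := by
    have := Real.pow_div_factorial_le_exp (log β) hL0.le 3
    rw [exp_log hβ] at this
    norm_num [Nat.factorial] at this
    exact this
  have h3 : log β ^ 2 / β ≤ 6 / log β := by
    rw [div_le_div_iff₀ hβ hL0]
    nlinarith
  have h4 : log β / β ≤ log β ^ 2 / β := by
    apply div_le_div_of_nonneg_right _ hβ.le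
    nlinarith [show (1 : ℝ) ≤ 10 ^ 16 by norm_num]
  have h5 : m ^ 3 * (log β ^ 2 / β) ≤ 6 / 10 ^ 16 := by
    have h6 : m ^ 3 * (log β ^ 2 / β) ≤ m ^ 3 * (6 / log β) :=
      mul_le_mul_of_nonneg_left h3 (by positivity)
    refine h6.trans ?_
    rw [← mul_div_assoc, div_le_div_iff₀ hL0 (by norm_num)]
    have h7 : m ^ 3 ≤ m ^ 4 := pow_le_pow_right₀ hm (by norm_num)
    nlinarith
  have h6 : log β ≤ β := by
    have := Real.log_le_sub_one_of_pos hβ
    linarith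
  exact ⟨h1, h3, h4, h5, h6⟩

lemma big_of (hm : 1 ≤ m) (hβ : 0 < β) (hL : 10 ^ 16 * m ^ 4 ≤ log β) :
    Big m β (log β / β) := by
  obtain ⟨h1, h3, h4, h5, h6⟩ := large_facts hm hβ hL
  have hL0 : 0 < log β := by linarith [show (0 : ℝ) < 10 ^ 16 by norm_num]
  have hm0 : 0 < m := by linarith
  have e1 : β * (log β / β) = log β := by field_simp
  have e2 : β * (log β / β) ^ 2 = log β ^ 2 / β := by field_simp
  have e4 : β * (log β / β) ^ 4 = log β ^ 4 / β ^ 3 := by field_simp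
  have hm3 : (1 : ℝ) ≤ m ^ 3 := one_le_pow₀ hm
  have hq0 : 0 ≤ log β ^ 2 / β := by positivity
  refine ⟨hm, ?_, by positivity, ?_, ?_, ?_, ?_, ?_⟩
  · linarith [show (1000 : ℝ) ≤ 10 ^ 16 by norm_num]
  · rw [e2]
    have h7 : 4 * m * (1 + 1 / (100 * m)) = 4 * m + 1 / 25 := by field_simp; ring
    rw [h7]
    have h8 : (1 / (100000 * m)) ^ 2 / 20000 = 1 / (200000000000000 * m ^ 2) := by
      field_simp; norm_num
    rw [h8, le_div_iff₀ (by positivity)]
    have h9 : (4 * m + 1 / 25) * (log β ^ 2 / β) * (200000000000000 * m ^ 2)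
        ≤ (5 * m) * (log β ^ 2 / β) * (200000000000000 * m ^ 2) := by
      apply mul_le_mul_of_nonneg_right _ (by positivity)
      apply mul_le_mul_of_nonneg_right _ hq0
      linarith
    have h10 : (5 * m) * (log β ^ 2 / β) * (200000000000000 * m ^ 2)
        = 1000000000000000 * (m ^ 3 * (log β ^ 2 / β)) := by ring
    rw [h10] at h9
    refine h9.trans ?_
    calc 1000000000000000 * (m ^ 3 * (log β ^ 2 / β)) ≤ 1000000000000000 * (6 / 10 ^ 16) :=
          mul_le_mul_of_nonneg_left h5 (by norm_num)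
      _ ≤ 1 := by norm_num
  · rw [e2, e1]
    set σ := 1 / (100 * m) with hσ
    have hσ0 : 0 < σ := by positivity
    have h7 : exp (-(1 - σ) * log β) = exp (σ * log β) / β := by
      rw [eq_div_iff hβ.ne']
      calc exp (-(1 - σ) * log β) * β = exp (-(1 - σ) * log β) * exp (log β) := by
            rw [exp_log hβ]
        _ = exp (σ * log β) := by rw [← exp_add]; ring_nf
    rw [h7, ← mul_div_assoc]
    apply div_lt_div_of_pos_right _ hβ
    have h8 := Real.pow_div_factorial_le_exp (σ * log β) (by positivity) 3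
    norm_num [Nat.factorial] at h8
    refine lt_of_lt_of_le ?_ h8
    have h9 : (σ * log β) ^ 3 / 6 = log β ^ 2 * (σ ^ 3 * log β / 6) := by ring
    rw [h9]
    have h10 : 5 * m < σ ^ 3 * log β / 6 := by
      have h11 : σ ^ 3 = 1 / (1000000 * m ^ 3) := by rw [hσ]; field_simp; norm_num
      rw [h11]
      have h12 : 1 / (1000000 * m ^ 3) * log β / 6 = log β / (6000000 * m ^ 3) := by
        field_simp; norm_num
      rw [h12, lt_div_iff₀ (by positivity)]
      have h13 : 5 * m * (6000000 * m ^ 3) = 30000000 * m ^ 4 := by ring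
      rw [h13]
      have h14 : (0 : ℝ) < m ^ 4 := by positivity
      nlinarith
    nlinarith [pow_pos hL0 2]
  · rw [e4, e1]
    have h7 : exp (-(3 / 2) * log β) = exp (3 / 2 * log β) / β ^ 3 := by
      rw [eq_div_iff (by positivity)]
      calc exp (-(3 / 2) * log β) * β ^ 3 = exp (-(3 / 2) * log β) * exp (log β) ^ 3 := by
            rw [exp_log hβ]
        _ = exp (3 / 2 * log β) := by rw [← exp_nat_mul, ← exp_add]; push_cast; ring_nf
    rw [h7, ← mul_div_assoc]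
    apply div_le_div_of_nonneg_right _ (by positivity)
    have h8 := Real.pow_div_factorial_le_exp (log β) hL0.le 5
    norm_num [Nat.factorial] at h8
    have h9 : exp (log β) ≤ exp (3 / 2 * log β) := exp_le_exp.2 (by linarith)
    rw [exp_log hβ] at h8 h9
    refine le_trans ?_ (h8.trans h9)
    rw [le_div_iff₀ (by norm_num)]
    have h10 : 20000000 * m ^ 4 * 120 ≤ log β := by
      have h14 : (0 : ℝ) < m ^ 4 := by positivity
      nlinarith
    calc 20000000 * m ^ 4 * log β ^ 4 * 120 = (20000000 * m ^ 4 * 120) * log β ^ 4 := by ring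
      _ ≤ log β * log β ^ 4 := mul_le_mul_of_nonneg_right h10 (by positivity)
      _ = log β ^ 5 := by ring
  · rw [e1]; linarith [show (6 : ℝ) ≤ 10 ^ 16 by norm_num]
  · have h7 : log β / β ≤ 6 / 10 ^ 16 := by
      refine h4.trans (le_trans ?_ h5)
      nlinarith
    linarith

lemma LL_le_of_nonneg {β g : ℝ} (hβ : 0 < β) (hg : g < 1) :
    LL β g ≤ β * g / (1 - g) := by
  have h1 := Real.one_sub_inv_le_log_of_pos (show 0 < 1 - g by linarith)
  have h2 : 1 - (1 - g)⁻¹ = - (g / (1 - g)) := by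
    have : 1 - g ≠ 0 := by linarith
    field_simp
    ring
  rw [h2] at h1
  unfold LL
  have : β * g / (1 - g) = β * (g / (1 - g)) := by ring
  rw [this]
  nlinarith

lemma G_apex_le (hβ : 0 < β) (hL0 : 0 < log β) (hq : log β ^ 2 / β ≤ 1) :
    G β (-(log β / β)) ≤ 2 / β := by
  have hℓ : 0 < log β / β := by positivity
  have h1 := Real.le_log_one_add_of_nonneg hℓ.le
  have h2 : LL β (-(log β / β)) ≤ -log β + log 2 := by
    unfold LL
    rw [sub_neg_eq_add]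
    have h3 : log β - log β * (log β / β) / 2 ≤ β * log (1 + log β / β) := by
      have h4 : β * (2 * (log β / β) / (log β / β + 2)) ≤ β * log (1 + log β / β) :=
        mul_le_mul_of_nonneg_left h1 hβ.le
      refine le_trans ?_ h4
      have h5 : β * (2 * (log β / β) / (log β / β + 2)) = 2 * log β / (log β / β + 2) := by
        have : β * (log β / β) = log β := by field_simp
        calc β * (2 * (log β / β) / (log β / β + 2))
            = 2 * (β * (log β / β)) / (log β / β + 2) := by ring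
          _ = _ := by rw [this]
      rw [h5, le_div_iff₀ (by positivity)]
      set x := log β / β
      nlinarith [mul_pos hL0 (mul_pos hℓ hℓ)]
    have h6 : log β * (log β / β) = log β ^ 2 / β := by ring
    rw [h6] at h3
    have := Real.log_two_gt_d9
    linarith
  have h3 : exp (-log β + log 2) = 2 / β := by
    rw [exp_add, exp_neg, exp_log hβ, exp_log (by norm_num)]
    field_simp
  unfold G
  rw [← h3]
  exact exp_le_exp.2 h2

lemma exp_le_quad {x : ℝ} (h0 : 0 ≤ x) (h1 : x ≤ 1) : exp x ≤ 1 + x + x ^ 2 := by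
  have := Real.abs_exp_sub_one_sub_id_le (show |x| ≤ 1 by rw [abs_of_nonneg h0]; exact h1)
  have := (abs_le.1 this).2
  linarith

lemma t1_bound {m q : ℝ} (hm' : 1 ≤ m) (hβ : 0 < β) (hL : 10 ^ 16 * m ^ 4 ≤ log β)
    (hq : q = log β ^ 2 * (1 / β)) (hGa : G β (-(log β / β)) ≤ 2 / β) :
    4 * m * G β (-(log β / β)) + m * (m - 1) / 2 * G β (-(log β / β)) ≤ 1 / 100 * q := by
  have h1 := (large_facts hm' hβ hL).1
  have hc : 0 ≤ 4 * m + m * (m - 1) / 2 := by nlinarith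
  have c1 : (4 * m + m * (m - 1) / 2) * G β (-(log β / β))
      ≤ (4 * m + m * (m - 1) / 2) * (2 / β) := mul_le_mul_of_nonneg_left hGa hc
  have c2 : (4 * m + m * (m - 1) / 2) * (2 / β) ≤ (5 * m ^ 2) * (2 / β) := by
    apply mul_le_mul_of_nonneg_right _ (by positivity)
    nlinarith
  have c3 : (5 * m ^ 2) * (2 / β) ≤ 1 / 100 * q := by
    rw [hq]
    have c4 : 1000 * m ^ 2 ≤ log β ^ 2 := by
      have c5 : m ^ 2 ≤ m ^ 4 := pow_le_pow_right₀ hm' (by norm_num)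
      have c6 : 1000 * m ^ 2 ≤ log β := by nlinarith
      nlinarith
    have c5 : 0 ≤ 1 / β := by positivity
    have c6 := mul_le_mul_of_nonneg_right c4 c5
    calc (5 * m ^ 2) * (2 / β) = 1 / 100 * (1000 * m ^ 2 * (1 / β)) := by ring
      _ ≤ 1 / 100 * (log β ^ 2 * (1 / β)) := mul_le_mul_of_nonneg_left c6 (by norm_num)
  linarith

lemma om_ratio {m β ℓ q : ℝ} (e2' : β * ℓ ^ 2 = q) (hden : 0 < 1 - (m - 1) * ℓ)
    (h2 : 0 < 1 - ((m - 1) * ℓ + m * ℓ ^ 2)) (hom : om m ℓ ℓ ≤ 1 / 4) :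
    β * om m ℓ ℓ / (1 - om m ℓ ℓ) = m * q / (1 - ((m - 1) * ℓ + m * ℓ ^ 2)) := by
  have h3 : om m ℓ ℓ * (1 - (m - 1) * ℓ) = m * ℓ ^ 2 := by
    unfold om; rw [div_mul_cancel₀ _ hden.ne']
  rw [div_eq_div_iff (by linarith) h2.ne', ← e2']
  have h4 : 1 - ((m - 1) * ℓ + m * ℓ ^ 2) = (1 - om m ℓ ℓ) * (1 - (m - 1) * ℓ) := by
    linear_combination h3
  rw [h4]
  linear_combination β * (1 - om m ℓ ℓ) * h3

lemma t2_bound {m q δ X : ℝ} (hm : 1 ≤ m) (hq0 : 0 ≤ q) (hδ0 : 0 ≤ δ) (hδ : δ ≤ 1 / 1000)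
    (hmq : m * q ≤ 6 / 10 ^ 16) (hm2q : m ^ 2 * q ≤ 6 / 10 ^ 16) (hmδ : m * δ ≤ 2 * (6 / 10 ^ 16))
    (hX : X ≤ m * q / (1 - δ)) : 4 * exp X ≤ 4 + 4 * m * q + 1 / 100 * q := by
  have hmq0 : 0 ≤ m * q := by positivity
  have c3 : m * q / (1 - δ) ≤ m * q * (1 + 2 * δ) := by
    rw [div_le_iff₀ (by linarith)]
    nlinarith [mul_nonneg hmq0 hδ0, mul_nonneg hmq0 (mul_nonneg hδ0 hδ0)]
  have c4 : X ≤ m * q * (1 + 2 * δ) := hX.trans c3
  have c5 : 0 ≤ m * q * (1 + 2 * δ) := by positivity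
  have c6 : m * q * (1 + 2 * δ) ≤ 2 * (m * q) := by nlinarith
  have c7 : exp X ≤ 1 + m * q * (1 + 2 * δ) + (m * q * (1 + 2 * δ)) ^ 2 := by
    refine (exp_le_exp.2 c4).trans (exp_le_quad c5 ?_)
    linarith
  have c8 : (m * q * (1 + 2 * δ)) ^ 2 ≤ (2 * (m * q)) ^ 2 := pow_le_pow_left₀ c5 c6 2
  have c9 : (2 * (m * q)) ^ 2 = 4 * (m ^ 2 * q) * q := by ring
  have c10 : 4 * (m ^ 2 * q) * q ≤ 4 * (6 / 10 ^ 16) * q := by
    apply mul_le_mul_of_nonneg_right _ hq0
    linarith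
  have c11 : m * q * (1 + 2 * δ) = m * q + 2 * (m * δ) * q := by ring
  have c13 : 2 * (m * δ) * q ≤ 4 * (6 / 10 ^ 16) * q := by
    apply mul_le_mul_of_nonneg_right _ hq0
    linarith
  rw [c11] at c7 c8
  linarith

lemma t3_bound {q w : ℝ} (hβ : 10 ^ 16 ≤ β) (hL : 10 ^ 16 ≤ log β)
    (hq : q = log β ^ 2 * (1 / β)) (hom : w ≤ 1 / 4) :
    2 * G β (2 * w - 1) ≤ 1 / 100 * q := by
  have hβ0 : 0 < β := by linarith [show (0 : ℝ) < 10 ^ 16 by norm_num]
  have hL0 : 0 < log β := by linarith [show (0 : ℝ) < 10 ^ 16 by norm_num]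
  have c1 : LL β (2 * w - 1) ≤ -(β / 3) := by
    unfold LL
    have c2 : 1 / 3 ≤ log (1 - (2 * w - 1)) := by
      have c3 := Real.one_sub_inv_le_log_of_pos (show 0 < 1 - (2 * w - 1) by linarith)
      refine le_trans ?_ c3
      have c4 : (1 - (2 * w - 1))⁻¹ ≤ 2 / 3 := by
        rw [inv_eq_one_div, div_le_div_iff₀ (by linarith) (by norm_num)]
        linarith
      linarith
    nlinarith
  have c2 : G β (2 * w - 1) ≤ exp (-(β / 3)) := exp_le_exp.2 c1
  have c3 := Real.pow_div_factorial_le_exp (β / 3) (by positivity) 2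
  norm_num [Nat.factorial] at c3
  have c4 : exp (-(β / 3)) ≤ 18 / β ^ 2 := by
    rw [exp_neg, inv_eq_one_div, div_le_div_iff₀ (exp_pos _) (by positivity)]
    linarith
  have c5 : 2 * (18 / β ^ 2) ≤ 1 / 100 * q := by
    have e : 2 * (18 / β ^ 2) = 36 / β * (1 / β) := by field_simp; norm_num
    rw [e, hq]
    have c6 : 36 / β ≤ 1 / 100 * log β ^ 2 := by
      have c8 : 36 / β ≤ 1 := by
        rw [div_le_one hβ0]; linarith [show (36 : ℝ) ≤ 10 ^ 16 by norm_num]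
      have c9 : 100 ≤ log β ^ 2 := by nlinarith [show (100 : ℝ) ≤ 10 ^ 16 by norm_num]
      linarith
    have c7 : 0 ≤ 1 / β := by positivity
    have := mul_le_mul_of_nonneg_right c6 c7
    linarith
  linarith

lemma phi_upper {m : ℕ} (hm : 1 ≤ m) (hβ : 0 < β) (hL : 10 ^ 16 * (m : ℝ) ^ 4 ≤ log β) :
    InDom m (log β / β) (log β / β) ∧ om m (log β / β) (log β / β) ≤ 1 / 2 ∧
    Phi m β (log β / β) (log β / β) ≤ 4 + 4 * (m : ℝ) * (1 + 1 / (100 * (m : ℝ))) *
      (β * (log β / β) ^ 2) := by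
  have hm' : (1 : ℝ) ≤ m := by exact_mod_cast hm
  obtain ⟨h1, h3, h4, h5, h6⟩ := large_facts hm' hβ hL
  have hL0 : 0 < log β := by linarith [show (0 : ℝ) < 10 ^ 16 by norm_num]
  have hm0 : (0 : ℝ) < m := by linarith
  have e2 : β * (log β / β) ^ 2 = log β ^ 2 / β := by field_simp
  have hℓ0 : 0 < log β / β := by positivity
  have hq0 : 0 < log β ^ 2 / β := by positivity
  have hm3 : (1 : ℝ) ≤ (m : ℝ) ^ 3 := one_le_pow₀ hm'
  have hq1 : log β ^ 2 / β ≤ 6 / 10 ^ 16 := by nlinarith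
  have hGa := G_apex_le hβ hL0 (hq1.trans (by norm_num))
  have hqβ : log β ^ 2 / β = log β ^ 2 * (1 / β) := by ring
  have hβ1 : 10 ^ 16 ≤ β := by linarith
  have hmq : (m : ℝ) * (log β ^ 2 / β) ≤ 6 / 10 ^ 16 := by
    refine le_trans ?_ h5
    apply mul_le_mul_of_nonneg_right _ hq0.le
    calc (m : ℝ) = (m : ℝ) ^ 1 := by ring
      _ ≤ (m : ℝ) ^ 3 := pow_le_pow_right₀ hm' (by norm_num)
  have hm2q : (m : ℝ) ^ 2 * (log β ^ 2 / β) ≤ 6 / 10 ^ 16 := by
    refine le_trans ?_ h5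
    apply mul_le_mul_of_nonneg_right _ hq0.le
    exact pow_le_pow_right₀ hm' (by norm_num)
  have hmℓ : (m : ℝ) * (log β / β) ≤ 6 / 10 ^ 16 :=
    (mul_le_mul_of_nonneg_left h4 hm0.le).trans hmq
  have hm2ℓ : (m : ℝ) ^ 2 * (log β / β) ≤ 6 / 10 ^ 16 :=
    (mul_le_mul_of_nonneg_left h4 (by positivity)).trans hm2q
  have t1 := t1_bound hm' hβ hL hqβ hGa
  have t3 := fun w hw => t3_bound (w := w) hβ1 h1 hqβ hw
  rw [e2]
  have e2' : β * (log β / β) ^ 2 = (log β ^ 2 / β) := e2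
  generalize log β ^ 2 / β = q at *
  generalize log β / β = ℓ at *
  have hℓ1 : ℓ ≤ 1 / 1000 := by
    have : ℓ ≤ m * ℓ := by nlinarith
    linarith
  have hδ : ((m : ℝ) - 1) * ℓ + m * ℓ ^ 2 ≤ 2 * (m * ℓ) := by
    have : (m : ℝ) * ℓ ^ 2 ≤ m * ℓ := by
      have : ℓ ^ 2 ≤ ℓ := by nlinarith
      exact mul_le_mul_of_nonneg_left this hm0.le
    linarith
  have hδ2 : ((m : ℝ) - 1) * ℓ + m * ℓ ^ 2 ≤ 1 / 1000 := by linarith
  have hmℓ2 : 0 ≤ (m : ℝ) * ℓ ^ 2 := by positivity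
  have hm1ℓ : 0 ≤ ((m : ℝ) - 1) * ℓ := mul_nonneg (by linarith) hℓ0.le
  have hden : 0 < 1 - ((m : ℝ) - 1) * ℓ := by linarith
  have hom : om m ℓ ℓ ≤ 1 / 4 := by
    unfold om
    rw [div_le_iff₀ hden]
    linarith
  refine ⟨⟨hℓ0, hℓ0.le, by linarith, by linarith⟩, by linarith, ?_⟩
  have t2 : 4 * G β (om m ℓ ℓ) ≤ 4 + 4 * (m : ℝ) * q + 1 / 100 * q := by
    have c1 := LL_le_of_nonneg hβ (show om m ℓ ℓ < 1 by linarith)
    rw [om_ratio e2' hden (by linarith) hom] at c1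
    refine t2_bound hm' hq0.le (add_nonneg hm1ℓ hmℓ2) hδ2 hmq hm2q ?_ c1
    have h7 := mul_le_mul_of_nonneg_left hδ hm0.le
    have e : m * (2 * (m * ℓ)) = 2 * ((m : ℝ) ^ 2 * ℓ) := by ring
    rw [e] at h7
    linarith
  have t3' := t3 _ hom
  unfold Phi
  have e : 4 * (m : ℝ) * (1 + 1 / (100 * (m : ℝ))) * q = 4 * m * q + 1 / 25 * q := by
    field_simp; ring
  rw [e]
  linarith

end

end Pool.Agent.Riesz
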