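import Mathlib
import Pool.Agent.Riesz.Scalar

set_option autoImplicit false

open Real Finset

namespace Pool.Agent.Riesz

variable {V : Type*} [NormedAddCommGroup V] [InnerProductSpace ℝ V]

/-- Two probability vectors with disjoint supports and the same barycentre. -/
lemma exists_weights [FiniteDimensional ℝ V] {ι : Type*} [Fintype ι]
    (x : ι → V) (hcard : Module.finrank ℝ V + 1 < Fintype.card ι) :
    ∃ P Q : ι → ℝ, (∀ i, 0 ≤ P i) ∧ (∀ i, 0 ≤ Q i) ∧ ∑ i, P i = 1 ∧ ∑ i, Q i = 1 ∧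
      (∀ i, P i = 0 ∨ Q i = 0) ∧ ∑ i, P i • x i = ∑ i, Q i • x i := by
  classical
  let T : (ι → ℝ) →ₗ[ℝ] V × ℝ :=
    LinearMap.prod (∑ i, (LinearMap.proj i : (ι → ℝ) →ₗ[ℝ] ℝ).smulRight (x i))
      (∑ i, (LinearMap.proj i : (ι → ℝ) →ₗ[ℝ] ℝ))
  have hT : ∀ a : ι → ℝ, T a = (∑ i, a i • x i, ∑ i, a i) := by
    intro a
    simp [T, LinearMap.prod_apply]
  have hker : LinearMap.ker T ≠ ⊥ := by
    apply LinearMap.ker_ne_bot_of_finrank_lt
    rw [Module.finrank_prod, Module.finrank_fintype_fun_eq_card, Module.finrank_self]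
    exact hcard
  obtain ⟨a, ha, ha0⟩ := Submodule.exists_mem_ne_zero_of_ne_bot hker
  rw [LinearMap.mem_ker, hT, Prod.mk_eq_zero] at ha
  obtain ⟨ha1, ha2⟩ := ha
  -- positive and negative parts
  set A : ℝ := ∑ i, max (a i) 0 with hA
  have hsub : ∀ i, a i = max (a i) 0 - max (-a i) 0 := by
    intro i
    rcases le_total 0 (a i) with h | h
    · rw [max_eq_left h, max_eq_right (by linarith)]; ring
    · rw [max_eq_right h, max_eq_left (by linarith)]; ring
  have hA' : ∑ i, max (-a i) 0 = A := by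
    have : ∑ i, a i = A - ∑ i, max (-a i) 0 := by
      rw [hA, ← Finset.sum_sub_distrib]
      exact Finset.sum_congr rfl (fun i _ => hsub i)
    linarith
  have hApos : 0 < A := by
    obtain ⟨i, hi⟩ : ∃ i, a i ≠ 0 := by
      by_contra hcon
      push Not at hcon
      exact ha0 (funext hcon)
    rcases lt_or_gt_of_ne hi with h | h
    · have : 0 < ∑ i, max (-a i) 0 :=
        Finset.sum_pos' (fun j _ => le_max_right _ _) ⟨i, Finset.mem_univ i, lt_max_of_lt_left (by linarith)⟩
      rwa [hA'] at this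
    · exact Finset.sum_pos' (fun j _ => le_max_right _ _) ⟨i, Finset.mem_univ i, lt_max_of_lt_left h⟩
  refine ⟨fun i => max (a i) 0 / A, fun i => max (-a i) 0 / A, ?_, ?_, ?_, ?_, ?_, ?_⟩
  · intro i; positivity
  · intro i; positivity
  · rw [← Finset.sum_div, ← hA, div_self hApos.ne']
  · rw [← Finset.sum_div, hA', div_self hApos.ne']
  · intro i
    rcases le_total 0 (a i) with h | h
    · right
      change max (-a i) 0 / A = 0
      rw [max_eq_right (by linarith), zero_div]
    · left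
      change max (a i) 0 / A = 0
      rw [max_eq_right h, zero_div]
  · have h1 : ∑ i, (max (a i) 0 / A) • x i - ∑ i, (max (-a i) 0 / A) • x i = 0 := by
      rw [← Finset.sum_sub_distrib]
      have h2 : ∀ i, (max (a i) 0 / A) • x i - (max (-a i) 0 / A) • x i = A⁻¹ • (a i • x i) := by
        intro i
        rw [← sub_smul, smul_smul]
        congr 1
        rw [hsub i]
        have h3 : max (max (a i) 0 - max (-a i) 0) 0 = max (a i) 0 := by rw [← hsub i]
        have h4 : max (-(max (a i) 0 - max (-a i) 0)) 0 = max (-a i) 0 := by rw [← hsub i]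
        rw [h3, h4]
        field_simp
      simp only [h2]
      rw [← Finset.smul_sum, ha1, smul_zero]
    exact sub_eq_zero.1 h1

section

variable {ι : Type*} [Fintype ι] {x : ι → V} {P Q : ι → ℝ} {δ : ℝ}

/-- The weights are at most `(1+δ)/2`. -/
lemma weight_le (hx : ∀ i, ‖x i‖ = 1) (hg : ∀ i j, i ≠ j → inner ℝ (x i) (x j) ≤ δ)
    (hδ : 0 ≤ δ) (hP : ∀ i, 0 ≤ P i) (hQ : ∀ i, 0 ≤ Q i) (hP1 : ∑ i, P i = 1)
    (hQ1 : ∑ i, Q i = 1) (hPQ : ∀ i, P i = 0 ∨ Q i = 0)
    (hbar : ∑ i, P i • x i = ∑ i, Q i • x i) (i : ι) : P i ≤ (1 + δ) / 2 := by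
  classical
  rcases (hP i).eq_or_lt with h | h
  · rw [← h]; linarith
  have hQi : Q i = 0 := by
    rcases hPQ i with h1 | h1
    · exact absurd h1 h.ne'
    · exact h1
  have hii : inner ℝ (x i) (x i) = (1 : ℝ) := by rw [real_inner_self_eq_norm_sq, hx]; norm_num
  have h1 : inner ℝ (x i) (∑ j, P j • x j) = ∑ j, P j * inner ℝ (x i) (x j) := by
    rw [inner_sum]; exact Finset.sum_congr rfl (fun j _ => by rw [real_inner_smul_right])
  have h2 : inner ℝ (x i) (∑ j, Q j • x j) = ∑ j, Q j * inner ℝ (x i) (x j) := by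
    rw [inner_sum]; exact Finset.sum_congr rfl (fun j _ => by rw [real_inner_smul_right])
  have h3 : ∑ j, Q j * inner ℝ (x i) (x j) ≤ δ := by
    calc ∑ j, Q j * inner ℝ (x i) (x j) ≤ ∑ j, Q j * δ := by
          refine Finset.sum_le_sum (fun j _ => ?_)
          by_cases hj : i = j
          · subst hj; rw [hQi]; simp
          · exact mul_le_mul_of_nonneg_left (hg i j hj) (hQ j)
      _ = δ := by rw [← Finset.sum_mul, hQ1, one_mul]
  have h4 : 2 * P i - 1 ≤ ∑ j, P j * inner ℝ (x i) (x j) := by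
    have h5 : ∀ j, P j * (-1) + (if j = i then 2 * P i else 0) ≤ P j * inner ℝ (x i) (x j) := by
      intro j
      by_cases hj : j = i
      · subst hj; rw [hii, if_pos rfl]; linarith
      · rw [if_neg hj, add_zero]
        apply mul_le_mul_of_nonneg_left _ (hP j)
        have := abs_real_inner_le_norm (x i) (x j)
        rw [hx, hx] at this
        have := (abs_le.1 this).1
        linarith
    have h6 := Finset.sum_le_sum (fun j (_ : j ∈ Finset.univ) => h5 j)
    rw [Finset.sum_add_distrib, ← Finset.sum_mul, hP1, Finset.sum_ite_eq' Finset.univ i] at h6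
    simp only [Finset.mem_univ, if_true] at h6
    linarith
  rw [hbar, h2] at h1
  linarith

lemma sum_weights_inner_nonneg (hbar : ∑ i, P i • x i = ∑ i, Q i • x i) :
    0 ≤ ∑ i, ∑ j, P i * Q j * inner ℝ (x i) (x j) := by
  have h : ∑ i, ∑ j, P i * Q j * inner ℝ (x i) (x j)
      = inner ℝ (∑ i, P i • x i) (∑ j, Q j • x j) := by
    rw [sum_inner]
    refine Finset.sum_congr rfl (fun i _ => ?_)
    rw [inner_sum]
    refine Finset.sum_congr rfl (fun j _ => ?_)
    rw [real_inner_smul_left, real_inner_smul_right]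
    ring
  rw [h, hbar]
  exact real_inner_self_nonneg

end

/-- A probability vector with all weights at most `1/2 + a` and large sum of squares is
concentrated at two indices. -/
lemma two_indices {ι : Type*} [Fintype ι] {P : ι → ℝ} {a b : ℝ}
    (hP : ∀ i, 0 ≤ P i) (hP1 : ∑ i, P i = 1) (ha : 0 ≤ a) (hb : 0 ≤ b) (hb1 : b ≤ 1 / 100)
    (ha1 : a ≤ 1 / 100) (hle : ∀ i, P i ≤ 1 / 2 + a) (hsq : 1 / 2 - b ≤ ∑ i, P i ^ 2) :
    ∃ i j : ι, i ≠ j ∧ 1 / 2 - (4 * b + 4 * a) ≤ P i ∧ 1 / 2 - (4 * b + 4 * a) ≤ P j := by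
  classical
  have hne : (Finset.univ : Finset ι).Nonempty := by
    rw [Finset.univ_nonempty_iff]
    by_contra h
    rw [not_nonempty_iff] at h
    simp at hP1
  obtain ⟨i, -, hi⟩ := Finset.exists_max_image Finset.univ P hne
  have h1 : 1 / 2 - b ≤ P i := by
    have : ∑ j, P j ^ 2 ≤ ∑ j, P i * P j := by
      refine Finset.sum_le_sum (fun j hj => ?_)
      have := hi j hj
      nlinarith [hP j]
    rw [← Finset.mul_sum, hP1, mul_one] at this
    linarith
  have h2 : ∑ j ∈ Finset.univ.erase i, P j = 1 - P i := by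
    rw [← hP1, ← Finset.add_sum_erase Finset.univ P (Finset.mem_univ i)]
    ring
  have h3 : ∑ j ∈ Finset.univ.erase i, P j ^ 2 = ∑ j, P j ^ 2 - P i ^ 2 := by
    rw [← Finset.add_sum_erase Finset.univ (fun j => P j ^ 2) (Finset.mem_univ i)]
    ring
  have hne' : (Finset.univ.erase i).Nonempty := by
    by_contra h
    rw [Finset.not_nonempty_iff_eq_empty] at h
    rw [h] at h2
    simp at h2
    have := hle i
    linarith
  obtain ⟨j, hj, hjmax⟩ := Finset.exists_max_image (Finset.univ.erase i) P hne'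
  have hji : j ≠ i := Finset.ne_of_mem_erase hj
  refine ⟨i, j, hji.symm, by linarith, ?_⟩
  have h4 : ∑ k ∈ Finset.univ.erase i, P k ^ 2 ≤ P j * (1 - P i) := by
    rw [← h2, Finset.mul_sum]
    refine Finset.sum_le_sum (fun k hk => ?_)
    have := hjmax k hk
    nlinarith [hP k]
  rw [h3] at h4
  have h5 := hle i
  have h6 : 0 ≤ P j := hP j
  -- (1/2 - b) - P i ^2 ≤ P j (1 - P i), P i in [1/2 - b, 1/2 + a]
  have h7 : 1 / 2 - b - (1 / 2 + a) ^ 2 ≤ P j * (1 / 2 + b) := by
    nlinarith [hP i]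
  by_contra hcon
  push Not at hcon
  have h8 : P j * (1 / 2 + b) < (1 / 2 - (4 * b + 4 * a)) * (1 / 2 + b) :=
    mul_lt_mul_of_pos_right hcon (by linarith)
  nlinarith

end Pool.Agent.Riesz
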