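import Mathlib
import Pool.Agent.Riesz.Dependency

set_option autoImplicit false

open Real Finset

namespace Pool.Agent.Riesz

variable {V : Type*} [NormedAddCommGroup V] [InnerProductSpace ℝ V]

/-- product of two nearly half weights, times `4c'`. -/
lemma scal_ll {c' κ δ p q : ℝ} (hκ0 : 0 < κ) (hκ1 : κ ≤ 1 / 100000000) (hδ0 : 0 < δ)
    (hδκ : δ ≤ κ / 16) (hc' : 1 - 2 * δ ≤ c') (hp : 1 / 2 - 5 * κ ≤ p) (hq : 1 / 2 - 5 * κ ≤ q) :
    1 - 21 * κ ≤ 4 * c' * (p * q) := by
  have h1 : (1 / 2 - 5 * κ) * (1 / 2 - 5 * κ) ≤ p * q :=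
    mul_le_mul hp hq (by linarith) (by linarith)
  have h2 : 1 / 4 - 5 * κ ≤ p * q := by nlinarith [mul_pos hκ0 hκ0]
  have h3 : (1 - 2 * δ) * (p * q) ≤ c' * (p * q) :=
    mul_le_mul_of_nonneg_right hc' (by linarith)
  have h4 : (1 - 2 * δ) * (1 / 4 - 5 * κ) ≤ (1 - 2 * δ) * (p * q) :=
    mul_le_mul_of_nonneg_left h2 (by linarith)
  have h5 : 1 / 4 - 5 * κ - δ / 2 ≤ (1 - 2 * δ) * (1 / 4 - 5 * κ) := by
    nlinarith [mul_pos hδ0 hκ0]
  linarith

/-- A deduction from the smallness of the Bregman divergence. -/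
lemma scal_adj {l t κ η : ℝ} (hκ0 : 0 < κ) (hκ1 : κ ≤ 1 / 100000000) (hη0 : 0 < η)
    (hη : η ≤ 1 / 100) (hη2 : η ^ 2 = 10000 * κ) (hl : 1 - 21 * κ ≤ l) (hl1 : l ≤ 1)
    (h : l * (exp t - 1 - t) ≤ κ) : |t + log l| ≤ η / 20 := by
  have hlpos : 0 < l := by linarith
  have h4 : 0 ≤ exp t - 1 - t := by linarith [add_one_le_exp t]
  have hl2 : 1 / 2 ≤ l := by linarith
  have h5 : exp t - 1 - t ≤ 2 * κ := by nlinarith
  have h6 := abs_le_of_bregman (by positivity) (by linarith) h5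
  have h7 : |t| ≤ η / 25 := by
    apply abs_le_of_sq_le_sq _ (by positivity)
    have : (η / 25) ^ 2 = η ^ 2 / 625 := by ring
    rw [this, hη2]
    linarith
  have h8 : -(42 * κ) ≤ log l := by
    have h9 := Real.one_sub_inv_le_log_of_pos hlpos
    have h10 : l⁻¹ ≤ 1 + 42 * κ := by
      rw [inv_eq_one_div, div_le_iff₀ hlpos]
      have : (1 + 42 * κ) * (1 - 21 * κ) ≤ (1 + 42 * κ) * l :=
        mul_le_mul_of_nonneg_left hl (by linarith)
      nlinarith [mul_pos hκ0 hκ0]
    linarith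
  have h9 : log l ≤ 0 := Real.log_nonpos hlpos.le hl1
  have h11 : |log l| ≤ 42 * κ := by
    rw [abs_le]; constructor <;> linarith
  have h12 := abs_add_le t (log l)
  have h13 : 42 * κ ≤ η / 100 := by
    have : κ = η * η / 10000 := by rw [← sq, hη2]; ring
    rw [this]
    nlinarith
  linarith

/-- A deduction for the almost antipodal pairs. -/
lemma scal_anti {κ δ η p q g : ℝ} (hκ0 : 0 < κ) (hκ1 : κ ≤ 1 / 100000000) (hη0 : 0 < η)
    (hη : η ≤ 1 / 100) (hη2 : η ^ 2 = 10000 * κ) (hδ0 : 0 < δ)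
    (hδκ : δ ≤ κ / 16) (hp : 1 / 2 - 5 * κ ≤ p) (hq : 1 / 2 - 5 * κ ≤ q)
    (h : q * g ≤ δ - p + (1 - p - q)) : g ≤ -1 + η := by
  by_contra hcon
  push Not at hcon
  have h9 : q * (-1 + η) < q * g := mul_lt_mul_of_pos_left hcon (by linarith)
  have h13 : 42 * κ ≤ η / 100 := by
    have : κ = η * η / 10000 := by rw [← sq, hη2]; ring
    rw [this]
    nlinarith
  have h14 : (1 / 2 - 5 * κ) * η ≤ q * η := mul_le_mul_of_nonneg_right hq hη0.le
  have h15 : (1 / 4) * η ≤ (1 / 2 - 5 * κ) * η := by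
    apply mul_le_mul_of_nonneg_right _ hη0.le
    linarith
  nlinarith

lemma scal_key {c' κ δ A B : ℝ} (hκ0 : 0 < κ) (hκ1 : κ ≤ 1 / 100000000) (hδ0 : 0 < δ)
    (hδκ : δ ≤ κ / 16) (hc'pos : 0 < c') (hc'lower : 1 - 2 * δ ≤ c')
    (hc'eq : c' * (1 + δ) ^ 2 = 1) (hB : 0 ≤ B) (hA1 : A ≤ (1 + δ) / 2)
    (h : 4 * c' - κ ≤ 16 * c' ^ 2 * (A * B)) : 1 / 2 - κ ≤ B := by
  by_contra hcon
  push Not at hcon
  have h1 : 16 * c' ^ 2 * (A * B) ≤ 16 * c' ^ 2 * ((1 + δ) / 2 * B) :=
    mul_le_mul_of_nonneg_left (mul_le_mul_of_nonneg_right hA1 hB) (by positivity)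
  have h2 : 16 * c' ^ 2 * ((1 + δ) / 2 * B) ≤ 16 * c' ^ 2 * ((1 + δ) / 2 * (1 / 2 - κ)) :=
    mul_le_mul_of_nonneg_left (mul_le_mul_of_nonneg_left hcon.le (by positivity)) (by positivity)
  have h3 : 16 * c' ^ 2 * ((1 + δ) / 2 * (1 / 2 - κ)) = 4 * c' * (c' * (1 + δ)) * (1 - 2 * κ) := by
    ring
  have h4 : c' * (1 + δ) ≤ 1 := by
    nlinarith [hc'eq, mul_pos hc'pos hδ0]
  have h5 : 4 * c' * (c' * (1 + δ)) * (1 - 2 * κ) ≤ 4 * c' * 1 * (1 - 2 * κ) := by
    have : 0 ≤ 1 - 2 * κ := by linarith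
    gcongr
  have h6 : 3 / 4 ≤ c' := by linarith
  nlinarith

lemma rpow_neg_eq_exp {g β : ℝ} (hg : g < 1) : (1 - g) ^ (-β) = exp (-β * log (1 - g)) := by
  rw [Real.rpow_def_of_pos (by linarith), mul_comm]

/-- From near-minimal energy to four points forming (almost) a square. -/
lemma localize [FiniteDimensional ℝ V] {ι : Type*} [Fintype ι] [DecidableEq ι] {x : ι → V}
    {η β : ℝ} (hη0 : 0 < η) (hη : η ≤ 1 / 100) (hβ : 320000 / η ^ 2 ≤ β)
    (hcard : Module.finrank ℝ V + 1 < Fintype.card ι)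
    (hx : ∀ i, ‖x i‖ = 1) (hlt : ∀ i j, i ≠ j → inner ℝ (x i) (x j) < 1)
    (hE : ∑ i, ∑ j, (if i = j then 0 else (1 - inner ℝ (x i) (x j)) ^ (-β))
      ≤ 2 * (4 + η ^ 2 / 20000)) :
    ∃ a b c d : ι, a ≠ c ∧ b ≠ d ∧ a ≠ b ∧ a ≠ d ∧ c ≠ b ∧ c ≠ d ∧
      |β * log (1 - inner ℝ (x a) (x b))| ≤ η / 20 ∧
      |β * log (1 - inner ℝ (x c) (x b))| ≤ η / 20 ∧
      |β * log (1 - inner ℝ (x c) (x d))| ≤ η / 20 ∧
      |β * log (1 - inner ℝ (x a) (x d))| ≤ η / 20 ∧
      inner ℝ (x a) (x c) ≤ -1 + η ∧ inner ℝ (x b) (x d) ≤ -1 + η := by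
  set g : ι → ι → ℝ := fun i j => inner ℝ (x i) (x j) with hg
  have hgsymm : ∀ i j, g i j = g j i := fun i j => real_inner_comm _ _
  set κ : ℝ := η ^ 2 / 10000 with hκ
  have hκ0 : 0 < κ := by positivity
  have hκ1 : κ ≤ 1 / 100000000 := by rw [hκ]; nlinarith
  have hβpos : 0 < β := lt_of_lt_of_le (by positivity) hβ
  set δ : ℝ := 2 / β with hδ
  have hδ0 : 0 < δ := by positivity
  have hδκ : δ ≤ κ / 16 := by
    rw [hδ, hκ, div_le_iff₀ hβpos]
    have h1 : 320000 ≤ β * η ^ 2 := by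
      rwa [div_le_iff₀ (by positivity)] at hβ
    nlinarith
  -- the terms of the energy
  set F : ι → ι → ℝ := fun i j => if i = j then 0 else (1 - g i j) ^ (-β) with hF
  have hFne : ∀ i j, i ≠ j → F i j = exp (-β * log (1 - g i j)) := by
    intro i j hij
    simp only [hF, if_neg hij]
    exact rpow_neg_eq_exp (hlt i j hij)
  have hF0 : ∀ i j, 0 ≤ F i j := by
    intro i j
    by_cases hij : i = j
    · simp [hF, hij]
    · rw [hFne i j hij]; exact (exp_pos _).le
  have hFsymm : ∀ i j, F i j = F j i := by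
    intro i j
    simp only [hF]
    by_cases hij : i = j
    · simp [hij]
    · rw [if_neg hij, if_neg (Ne.symm hij), hgsymm]
  have hE' : ∑ i, ∑ j, F i j ≤ 2 * (4 + κ / 2) := by
    refine hE.trans (le_of_eq ?_)
    rw [hκ]; ring
  -- all inner products at most δ
  have hFle : ∀ i j, i ≠ j → F i j ≤ 5 := by
    intro i j hij
    have h1 : F i j + F j i ≤ ∑ i, ∑ j, F i j := by
      have h2 : ∑ k ∈ ({i, j} : Finset ι), ∑ l, F k l ≤ ∑ k, ∑ l, F k l :=
        Finset.sum_le_sum_of_subset_of_nonneg (Finset.subset_univ _)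
          (fun k _ _ => Finset.sum_nonneg (fun l _ => hF0 k l))
      rw [Finset.sum_pair hij] at h2
      have h3 : F i j ≤ ∑ l, F i l := Finset.single_le_sum (fun l _ => hF0 i l) (Finset.mem_univ j)
      have h4 : F j i ≤ ∑ l, F j l := Finset.single_le_sum (fun l _ => hF0 j l) (Finset.mem_univ i)
      linarith
    rw [hFsymm j i] at h1
    linarith
  have hgle : ∀ i j, i ≠ j → g i j ≤ δ := by
    intro i j hij
    have h1 := hFle i j hij
    rw [hFne i j hij] at h1
    have h2 : -β * log (1 - g i j) ≤ log 5 := by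
      have := Real.log_le_log (exp_pos _) h1
      rwa [log_exp] at this
    have h3 := le_neg_log (hlt i j hij)
    have h4 : log 5 ≤ 2 := by
      rw [Real.log_le_iff_le_exp (by norm_num)]
      have : (2.7 : ℝ) ^ 2 ≤ exp 2 := by
        have h5 : (2.7 : ℝ) ≤ exp 1 := by
          have := Real.exp_one_gt_d9
          linarith
        calc (2.7 : ℝ) ^ 2 ≤ (exp 1) ^ 2 := by gcongr
          _ = exp 2 := by rw [← exp_nat_mul]; norm_num
      norm_num at this
      linarith
    rw [hδ, le_div_iff₀ hβpos]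
    simp only [hg] at h2 h3 ⊢
    nlinarith
  obtain ⟨P, Q, hP, hQ, hP1, hQ1, hPQ, hbar⟩ := exists_weights x hcard
  have hPle := weight_le hx hgle hδ0.le hP hQ hP1 hQ1 hPQ hbar
  have hQle := weight_le hx hgle hδ0.le hQ hP hQ1 hP1 (fun i => (hPQ i).symm) hbar.symm
  -- the Young weights
  set c' : ℝ := 1 / (1 + δ) ^ 2 with hc'
  have hc'pos : 0 < c' := by positivity
  have hc'lower : 1 - 2 * δ ≤ c' := by
    rw [hc', le_div_iff₀ (by positivity)]
    nlinarith [mul_pos hδ0 hδ0, mul_pos (mul_pos hδ0 hδ0) hδ0]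
  have hc'eq : c' * (1 + δ) ^ 2 = 1 := by rw [hc']; field_simp
  set l : ι → ι → ℝ := fun i j => 4 * c' * (P i * Q j) with hl
  have hl0 : ∀ i j, 0 ≤ l i j := by
    intro i j
    have := hP i
    have := hQ j
    simp only [hl]; positivity
  have hl1 : ∀ i j, l i j ≤ 1 := by
    intro i j
    have h1 : P i * Q j ≤ ((1 + δ) / 2) * ((1 + δ) / 2) :=
      mul_le_mul (hPle i) (hQle j) (hQ j) (by linarith)
    simp only [hl]
    calc 4 * c' * (P i * Q j) ≤ 4 * c' * (((1 + δ) / 2) * ((1 + δ) / 2)) :=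
          mul_le_mul_of_nonneg_left h1 (by positivity)
      _ = c' * (1 + δ) ^ 2 := by ring
      _ = 1 := hc'eq
  have hlsum : ∑ i, ∑ j, l i j = 4 * c' := by
    simp only [hl, ← Finset.mul_sum, ← Finset.sum_mul, hQ1, hP1]
    ring
  set L : ι → ι → ℝ := fun i j => -β * log (1 - g i j) with hL
  have hlne : ∀ i j, l i j ≠ 0 → i ≠ j := by
    rintro i j h rfl
    apply h
    simp only [hl]
    rcases hPQ i with h1 | h1 <;> rw [h1] <;> ring
  have hlL : 0 ≤ ∑ i, ∑ j, l i j * L i j := by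
    have h1 : ∀ i j, 4 * c' * β * (P i * Q j * g i j) ≤ l i j * L i j := by
      intro i j
      by_cases h : l i j = 0
      · have h2 : P i * Q j = 0 := by
          have : 4 * c' ≠ 0 := by positivity
          exact (mul_eq_zero.1 h).resolve_left this
        rw [h, h2]; simp
      · have h3 := le_neg_log (hlt i j (hlne i j h))
        have h4 := hP i
        have h5 := hQ j
        simp only [hl, hL, hg]
        have h6 : 0 ≤ 4 * c' * (P i * Q j) * β := by positivity
        nlinarith [mul_le_mul_of_nonneg_left h3 h6]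
    have h2 : ∑ i, ∑ j, 4 * c' * β * (P i * Q j * g i j) ≤ ∑ i, ∑ j, l i j * L i j :=
      Finset.sum_le_sum (fun i _ => Finset.sum_le_sum (fun j _ => h1 i j))
    have h3 : ∑ i, ∑ j, 4 * c' * β * (P i * Q j * g i j)
        = 4 * c' * β * ∑ i, ∑ j, P i * Q j * g i j := by
      simp only [Finset.mul_sum]
    have h4 := sum_weights_inner_nonneg hbar
    rw [h3] at h2
    exact le_trans (mul_nonneg (by positivity) h4) h2
  -- indicator of the support
  set s : ι → ι → ℝ := fun i j => if 0 < P i ∧ 0 < Q j then 1 else 0 with hs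
  have hs2 : ∀ i j, s i j + s j i ≤ 1 := by
    intro i j
    simp only [hs]
    by_cases h1 : 0 < P i ∧ 0 < Q j
    · have : ¬ (0 < P j ∧ 0 < Q i) := by
        rintro ⟨h2, h3⟩
        rcases hPQ i with h4 | h4
        · linarith [h1.1]
        · linarith
      rw [if_pos h1, if_neg this]; norm_num
    · rw [if_neg h1]
      split_ifs <;> norm_num
  have hsF : ∑ i, ∑ j, s i j * F i j ≤ 4 + κ / 2 := by
    have h1 : ∑ i, ∑ j, (s i j + s j i) * F i j ≤ ∑ i, ∑ j, F i j :=
      Finset.sum_le_sum (fun i _ => Finset.sum_le_sum (fun j _ => by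
        nlinarith [hs2 i j, hF0 i j]))
    have h2 : ∑ i, ∑ j, (s i j + s j i) * F i j = 2 * ∑ i, ∑ j, s i j * F i j := by
      have h3 : ∑ i, ∑ j, s j i * F i j = ∑ i, ∑ j, s i j * F i j := by
        rw [Finset.sum_comm]
        exact Finset.sum_congr rfl (fun i _ => Finset.sum_congr rfl (fun j _ => by
          rw [hFsymm j i]))
      simp only [add_mul, Finset.sum_add_distrib, h3]
      ring
    rw [h2] at h1
    linarith
  set B : ι → ι → ℝ := fun i j => s i j * F i j - (l i j * L i j + l i j - l i j * log (l i j)) with hB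
  have hB0 : ∀ i j, 0 ≤ B i j := by
    intro i j
    simp only [hB]
    by_cases h : l i j = 0
    · have : 0 ≤ s i j := by simp only [hs]; split_ifs <;> norm_num
      rw [h]
      have := mul_nonneg this (hF0 i j)
      simpa using this
    · have hPi : 0 < P i := by
        rcases (hP i).eq_or_lt with h1 | h1
        · exfalso; apply h; simp only [hl]; rw [← h1]; ring
        · exact h1
      have hQj : 0 < Q j := by
        rcases (hQ j).eq_or_lt with h1 | h1
        · exfalso; apply h; simp only [hl]; rw [← h1]; ring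
        · exact h1
      have h1 : s i j = 1 := by simp only [hs]; rw [if_pos ⟨hPi, hQj⟩]
      have h2 := young (L := L i j) (hl0 i j)
      rw [h1, one_mul, hFne i j (hlne i j h)]
      simp only [hL] at h2 ⊢
      linarith
  have hBsum : ∑ i, ∑ j, B i j ≤ κ + ∑ i, ∑ j, l i j * log (l i j) := by
    have h1 : ∑ i, ∑ j, B i j = (∑ i, ∑ j, s i j * F i j) - ((∑ i, ∑ j, l i j * L i j)
        + (∑ i, ∑ j, l i j) - ∑ i, ∑ j, l i j * log (l i j)) := by
      simp only [hB, Finset.sum_sub_distrib, Finset.sum_add_distrib]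
    rw [h1, hlsum]
    nlinarith
  have hllog : ∑ i, ∑ j, l i j * (1 - l i j) ≤ - ∑ i, ∑ j, l i j * log (l i j) := by
    rw [← Finset.sum_neg_distrib]
    refine Finset.sum_le_sum (fun i _ => ?_)
    rw [← Finset.sum_neg_distrib]
    exact Finset.sum_le_sum (fun j _ => neg_mul_log_ge (hl0 i j))
  have hBnn : 0 ≤ ∑ i, ∑ j, B i j :=
    Finset.sum_nonneg (fun i _ => Finset.sum_nonneg (fun j _ => hB0 i j))
  have hllogκ : ∑ i, ∑ j, l i j * (1 - l i j) ≤ κ := by linarith
  have hlnn : 0 ≤ ∑ i, ∑ j, l i j * (1 - l i j) :=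
    Finset.sum_nonneg (fun i _ => Finset.sum_nonneg (fun j _ =>
      mul_nonneg (hl0 i j) (by linarith [hl1 i j])))
  have hBκ : ∀ i j, B i j ≤ κ := by
    intro i j
    have h1 : B i j ≤ ∑ j, B i j := Finset.single_le_sum (fun j _ => hB0 i j) (Finset.mem_univ j)
    have h2 : ∑ j, B i j ≤ ∑ i, ∑ j, B i j :=
      Finset.single_le_sum (f := fun i => ∑ j, B i j)
        (fun i _ => Finset.sum_nonneg (fun j _ => hB0 i j)) (Finset.mem_univ i)
    linarith
  -- sums of squares
  have hsq : 4 * c' - κ ≤ 16 * c' ^ 2 * ((∑ i, P i ^ 2) * ∑ j, Q j ^ 2) := by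
    have h1 : ∑ i, ∑ j, l i j * (1 - l i j)
        = 4 * c' - 16 * c' ^ 2 * ((∑ i, P i ^ 2) * ∑ j, Q j ^ 2) := by
      have h2 : ∑ i, ∑ j, l i j * (1 - l i j) = (∑ i, ∑ j, l i j) - ∑ i, ∑ j, l i j ^ 2 := by
        rw [← Finset.sum_sub_distrib]
        refine Finset.sum_congr rfl (fun i _ => ?_)
        rw [← Finset.sum_sub_distrib]
        exact Finset.sum_congr rfl (fun j _ => by ring)
      have h3 : ∑ i, ∑ j, l i j ^ 2 = 16 * c' ^ 2 * ((∑ i, P i ^ 2) * ∑ j, Q j ^ 2) := by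
        rw [Finset.sum_mul_sum, Finset.mul_sum]
        refine Finset.sum_congr rfl (fun i _ => ?_)
        rw [Finset.mul_sum]
        exact Finset.sum_congr rfl (fun j _ => by simp only [hl]; ring)
      rw [h2, hlsum, h3]
    linarith
  have hPsq : ∑ i, P i ^ 2 ≤ (1 + δ) / 2 := by
    calc ∑ i, P i ^ 2 ≤ ∑ i, P i * ((1 + δ) / 2) :=
          Finset.sum_le_sum (fun i _ => by nlinarith [hP i, hPle i])
      _ = (1 + δ) / 2 := by rw [← Finset.sum_mul, hP1, one_mul]
  have hQsq : ∑ i, Q i ^ 2 ≤ (1 + δ) / 2 := by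
    calc ∑ i, Q i ^ 2 ≤ ∑ i, Q i * ((1 + δ) / 2) :=
          Finset.sum_le_sum (fun i _ => by nlinarith [hQ i, hQle i])
      _ = (1 + δ) / 2 := by rw [← Finset.sum_mul, hQ1, one_mul]
  have hPsq0 : 0 ≤ ∑ i, P i ^ 2 := Finset.sum_nonneg (fun i _ => sq_nonneg _)
  have hQsq0 : 0 ≤ ∑ i, Q i ^ 2 := Finset.sum_nonneg (fun i _ => sq_nonneg _)
  have hQlow := scal_key hκ0 hκ1 hδ0 hδκ hc'pos hc'lower hc'eq hQsq0 hPsq hsq
  have hPlow := scal_key hκ0 hκ1 hδ0 hδκ hc'pos hc'lower hc'eq hPsq0 hQsq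
    (by rw [mul_comm (∑ i, Q i ^ 2)]; exact hsq)
  obtain ⟨a, c, hac, hPa, hPc⟩ := two_indices hP hP1 (a := δ / 2) (b := κ) (by positivity) hκ0.le
    (by linarith) (by linarith) (fun i => by linarith [hPle i]) hPlow
  obtain ⟨b, d, hbd, hQb, hQd⟩ := two_indices hQ hQ1 (a := δ / 2) (b := κ) (by positivity) hκ0.le
    (by linarith) (by linarith) (fun i => by linarith [hQle i]) hQlow
  have hmass : 4 * κ + 4 * (δ / 2) ≤ 5 * κ := by linarith
  have hdisj : ∀ i j, 1 / 2 - 5 * κ ≤ P i → 1 / 2 - 5 * κ ≤ Q j → i ≠ j := by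
    rintro i j h1 h2 rfl
    rcases hPQ i with h3 | h3
    · rw [h3] at h1; linarith
    · rw [h3] at h2; linarith
  have hη2 : η ^ 2 = 10000 * κ := by rw [hκ]; ring
  -- adjacent pairs
  have hadj : ∀ i j, 1 / 2 - 5 * κ ≤ P i → 1 / 2 - 5 * κ ≤ Q j →
      |β * log (1 - g i j)| ≤ η / 20 := by
    intro i j hi hj
    have hij := hdisj i j hi hj
    have hll : 1 - 21 * κ ≤ l i j := scal_ll hκ0 hκ1 hδ0 hδκ hc'lower hi hj
    have hlpos : 0 < l i j := by linarith
    have hsij : s i j = 1 := by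
      simp only [hs]; rw [if_pos ⟨by linarith, by linarith⟩]
    have h1 := hBκ i j
    simp only [hB] at h1
    rw [hsij, one_mul, hFne i j hij] at h1
    set t : ℝ := L i j - log (l i j) with ht
    have h2 : exp (-β * log (1 - g i j)) = l i j * exp t := by
      rw [ht, exp_sub, exp_log hlpos]
      simp only [hL]
      field_simp
    have h3 : l i j * (exp t - 1 - t) ≤ κ := by
      rw [h2] at h1
      have : L i j = t + log (l i j) := by rw [ht]; ring
      rw [this] at h1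
      nlinarith
    have h10 : β * log (1 - g i j) = -(t + log (l i j)) := by
      have : L i j = t + log (l i j) := by rw [ht]; ring
      rw [← this]; simp only [hL]; ring
    rw [h10, abs_neg]
    exact scal_adj hκ0 hκ1 hη0 hη hη2 hll (hl1 i j) h3
  -- almost antipodal pairs
  have hanti : ∀ (P' Q' : ι → ℝ), (∀ i, 0 ≤ P' i) → (∀ i, 0 ≤ Q' i) → ∑ i, P' i = 1 →
      ∑ i, Q' i = 1 → (∀ i, P' i = 0 ∨ Q' i = 0) → ∑ i, P' i • x i = ∑ i, Q' i • x i →
      (∀ i, P' i ≤ (1 + δ) / 2) → ∀ i j, i ≠ j → 1 / 2 - 5 * κ ≤ P' i → 1 / 2 - 5 * κ ≤ P' j →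
      g i j ≤ -1 + η := by
    intro P' Q' hP' hQ' hP'1 hQ'1 hPQ' hbar' hPle' i j hij hi hj
    have hQi : Q' i = 0 := by
      rcases hPQ' i with h | h
      · rw [h] at hi; linarith
      · exact h
    have hii : inner ℝ (x i) (x i) = (1 : ℝ) := by rw [real_inner_self_eq_norm_sq, hx]; norm_num
    have h1 : inner ℝ (x i) (∑ k, P' k • x k) = ∑ k, P' k * g i k := by
      rw [inner_sum]; exact Finset.sum_congr rfl (fun k _ => by rw [real_inner_smul_right])
    have h2 : inner ℝ (x i) (∑ k, Q' k • x k) = ∑ k, Q' k * g i k := by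
      rw [inner_sum]; exact Finset.sum_congr rfl (fun k _ => by rw [real_inner_smul_right])
    have h3 : ∑ k, Q' k * g i k ≤ δ := by
      calc ∑ k, Q' k * g i k ≤ ∑ k, Q' k * δ := by
            refine Finset.sum_le_sum (fun k _ => ?_)
            by_cases hk : i = k
            · subst hk; rw [hQi]; simp
            · exact mul_le_mul_of_nonneg_left (hgle i k hk) (hQ' k)
        _ = δ := by rw [← Finset.sum_mul, hQ'1, one_mul]
    have h4 : P' i + P' j * g i j - (1 - P' i - P' j) ≤ ∑ k, P' k * g i k := by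
      have h5 : ∀ k, P' k * (-1) + (if k = i then 2 * P' i else 0)
          + (if k = j then P' j + P' j * g i j else 0) ≤ P' k * g i k := by
        intro k
        by_cases hk : k = i
        · subst hk
          rw [if_pos rfl, if_neg hij]
          simp only [hg]
          rw [hii]; linarith
        · by_cases hk' : k = j
          · subst hk'
            rw [if_neg hk, if_pos rfl]; linarith
          · rw [if_neg hk, if_neg hk', add_zero, add_zero]
            apply mul_le_mul_of_nonneg_left _ (hP' k)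
            have := abs_real_inner_le_norm (x i) (x k)
            rw [hx, hx] at this
            have := (abs_le.1 this).1
            simp only [hg]
            linarith
      have h6 := Finset.sum_le_sum (fun k (_ : k ∈ Finset.univ) => h5 k)
      rw [Finset.sum_add_distrib, Finset.sum_add_distrib, ← Finset.sum_mul, hP'1,
        Finset.sum_ite_eq' Finset.univ i, Finset.sum_ite_eq' Finset.univ j] at h6
      simp only [Finset.mem_univ, if_true] at h6
      linarith
    rw [hbar', h2] at h1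
    have h7 : P' j * g i j ≤ δ - P' i + (1 - P' i - P' j) := by linarith
    exact scal_anti hκ0 hκ1 hη0 hη hη2 hδ0 hδκ hi hj h7
  refine ⟨a, b, c, d, hac, hbd, hdisj a b (by linarith) (by linarith),
    hdisj a d (by linarith) (by linarith), hdisj c b (by linarith) (by linarith),
    hdisj c d (by linarith) (by linarith), hadj a b (by linarith) (by linarith),
    hadj c b (by linarith) (by linarith), hadj c d (by linarith) (by linarith),
    hadj a d (by linarith) (by linarith),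
    hanti P Q hP hQ hP1 hQ1 hPQ hbar hPle a c hac (by linarith) (by linarith),
    hanti Q P hQ hP hQ1 hP1 (fun i => (hPQ i).symm) hbar.symm hQle b d hbd (by linarith)
      (by linarith)⟩

end Pool.Agent.Riesz
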