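import Mathlib
import Pool.Agent.Riesz.Config
import Pool.Agent.Riesz.Large
import Pool.Agent.Riesz.Localize

set_option autoImplicit false

open Real Finset

namespace Pool.Agent.Riesz

section relabel

lemma exists_relabel {ι κ : Type*} [Fintype ι] [Fintype κ] [DecidableEq ι]
    (hcard : Fintype.card ι = Fintype.card κ + 4) {a b c d : ι} (hab : a ≠ b) (hac : a ≠ c)
    (had : a ≠ d) (hbc : b ≠ c) (hbd : b ≠ d) (hcd : c ≠ d) :
    ∃ e : Fin 4 ⊕ κ ≃ ι, e (Sum.inl 0) = a ∧ e (Sum.inl 1) = b ∧ e (Sum.inl 2) = c ∧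
      e (Sum.inl 3) = d := by
  classical
  let f : Fin 4 → ι := ![a, b, c, d]
  have hf : Function.Injective f := by
    intro i j hij
    fin_cases i <;> fin_cases j <;> simp_all [f]
  have hc : Fintype.card κ = Fintype.card ((Set.range f)ᶜ : Set ι) := by
    rw [Fintype.card_compl_set, Set.card_range_of_injective hf, hcard, Fintype.card_fin]
    omega
  let e1 : Fin 4 ≃ Set.range f := Equiv.ofInjective f hf
  let e2 : κ ≃ ((Set.range f)ᶜ : Set ι) := Fintype.equivOfCardEq hc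
  let e : Fin 4 ⊕ κ ≃ ι := (Equiv.sumCongr e1 e2).trans (Equiv.Set.sumCompl (Set.range f))
  refine ⟨e, ?_, ?_, ?_, ?_⟩ <;> simp [e, e1, f]

end relabel

section energy

variable {V : Type*} [NormedAddCommGroup V] [InnerProductSpace ℝ V]
variable {κ : Type*} [Fintype κ] [DecidableEq κ]

/-- The ordered double sum. -/
noncomputable def dsum {ι : Type*} [Fintype ι] [DecidableEq ι] (β : ℝ) (x : ι → V) : ℝ :=
  ∑ i, ∑ j, if i = j then 0 else G β (inner ℝ (x i) (x j))

lemma dsum_relabel {ι ι' : Type*} [Fintype ι] [DecidableEq ι] [Fintype ι'] [DecidableEq ι']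
    (e : ι' ≃ ι) (β : ℝ) (x : ι → V) : dsum β (fun i => x (e i)) = dsum β x := by
  unfold dsum
  rw [← Equiv.sum_comp e]
  refine Finset.sum_congr rfl (fun i _ => ?_)
  rw [← Equiv.sum_comp e]
  refine Finset.sum_congr rfl (fun j _ => ?_)
  simp

lemma dsum_eq (β : ℝ) (u : Fin 4 ⊕ κ → V) :
    dsum β u = 2 * Etot β (u (Sum.inl 0)) (u (Sum.inl 1)) (u (Sum.inl 2)) (u (Sum.inl 3))
      (fun k => u (Sum.inr k)) := by
  unfold dsum
  rw [Fintype.sum_sum_type, Fin.sum_univ_four]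
  simp only [Fintype.sum_sum_type, Fin.sum_univ_four]
  have hc : ∀ (k : κ) (i : Fin 4), inner ℝ (u (Sum.inr k)) (u (Sum.inl i))
      = (inner ℝ (u (Sum.inl i)) (u (Sum.inr k)) : ℝ) := fun k i => real_inner_comm _ _
  have h10 : (inner ℝ (u (Sum.inl 1)) (u (Sum.inl 0)) : ℝ)
    = inner ℝ (u (Sum.inl 0)) (u (Sum.inl 1)) := real_inner_comm _ _
  have h30 : (inner ℝ (u (Sum.inl 3)) (u (Sum.inl 0)) : ℝ)
    = inner ℝ (u (Sum.inl 0)) (u (Sum.inl 3)) := real_inner_comm _ _
  have h12 : (inner ℝ (u (Sum.inl 1)) (u (Sum.inl 2)) : ℝ)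
    = inner ℝ (u (Sum.inl 2)) (u (Sum.inl 1)) := real_inner_comm _ _
  have h32 : (inner ℝ (u (Sum.inl 3)) (u (Sum.inl 2)) : ℝ)
    = inner ℝ (u (Sum.inl 2)) (u (Sum.inl 3)) := real_inner_comm _ _
  have h20 : (inner ℝ (u (Sum.inl 2)) (u (Sum.inl 0)) : ℝ)
    = inner ℝ (u (Sum.inl 0)) (u (Sum.inl 2)) := real_inner_comm _ _
  have h31 : (inner ℝ (u (Sum.inl 3)) (u (Sum.inl 1)) : ℝ)
    = inner ℝ (u (Sum.inl 1)) (u (Sum.inl 3)) := real_inner_comm _ _
  simp [hc, h10, h30, h12, h32, h20, h31, Finset.sum_add_distrib]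
  unfold Etot
  simp only [Finset.sum_add_distrib]
  ring

omit [DecidableEq κ] in
lemma IsSym.lt_one {α γ : ℝ} (hdom : InDom (Fintype.card κ) α γ) {u : Fin 4 ⊕ κ → V}
    (h : IsSym α γ (u (Sum.inl 0)) (u (Sum.inl 1)) (u (Sum.inl 2)) (u (Sum.inl 3))
      (fun k => u (Sum.inr k))) : ∀ p q, p ≠ q → (inner ℝ (u p) (u q) : ℝ) < 1 := by
  obtain ⟨hα, hγ, hden, hom⟩ := hdom
  have hα1 : -α < 1 := by linarith
  have hγ1 : -γ < 1 := by linarith
  have hd1 : 2 * om (Fintype.card κ) α γ - 1 < 1 := by linarith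
  have hil : ∀ (i : Fin 4) k, (inner ℝ (u (Sum.inl i)) (u (Sum.inr k)) : ℝ) < 1 := by
    intro i k
    fin_cases i
    · exact (h.a0 k).trans_lt hα1
    · exact (h.a1 k).trans_lt hα1
    · exact (h.a2 k).trans_lt hα1
    · exact (h.a3 k).trans_lt hα1
  have hii : ∀ i j : Fin 4, i ≠ j → (inner ℝ (u (Sum.inl i)) (u (Sum.inl j)) : ℝ) < 1 := by
    intro i j hij
    fin_cases i <;> fin_cases j
    · exact absurd rfl hij
    · exact h.c01.trans_lt hom
    · exact h.d02.trans_lt hd1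
    · exact h.c03.trans_lt hom
    · rw [real_inner_comm]; exact h.c01.trans_lt hom
    · exact absurd rfl hij
    · rw [real_inner_comm]; exact h.c21.trans_lt hom
    · exact h.d13.trans_lt hd1
    · rw [real_inner_comm]; exact h.d02.trans_lt hd1
    · exact h.c21.trans_lt hom
    · exact absurd rfl hij
    · exact h.c23.trans_lt hom
    · rw [real_inner_comm]; exact h.c03.trans_lt hom
    · rw [real_inner_comm]; exact h.d13.trans_lt hd1
    · rw [real_inner_comm]; exact h.c23.trans_lt hom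
    · exact absurd rfl hij
  intro p q hpq
  rcases p with i | k <;> rcases q with j | l
  · exact hii i j (fun h => hpq (by rw [h]))
  · exact hil i l
  · rw [real_inner_comm]; exact hil j k
  · exact (h.b k l (fun h => hpq (by rw [h]))).trans_lt hγ1

end energy

section key

variable {V : Type*} [NormedAddCommGroup V] [InnerProductSpace ℝ V]

/-- Key statement: low energy configurations are symmetric. -/
lemma key_low {m : ℕ} (hm : 1 ≤ m) {β : ℝ} (hβ : 0 < β) (hL : 10 ^ 16 * (m : ℝ) ^ 4 ≤ log β)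
    {ι : Type*} [Fintype ι] [DecidableEq ι] (hcard : Fintype.card ι = m + 4)
    (hfr : Module.finrank ℝ V = m + 2) {x : ι → V} (hx : ∀ i, ‖x i‖ = 1)
    (hlt : ∀ i j, i ≠ j → (inner ℝ (x i) (x j) : ℝ) < 1) {α γ : ℝ} (hdom : InDom m α γ)
    (hmin : ∀ a g, InDom m a g → Phi m β α γ ≤ Phi m β a g)
    (hlow : dsum β x ≤ 2 * Phi m β α γ) :
    ∃ e : Fin 4 ⊕ Fin m ≃ ι, IsSym α γ (x (e (Sum.inl 0))) (x (e (Sum.inl 1)))
      (x (e (Sum.inl 2))) (x (e (Sum.inl 3))) (fun k => x (e (Sum.inr k))) := by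
  have hm' : (1 : ℝ) ≤ m := by exact_mod_cast hm
  have hm0 : (0 : ℝ) < m := by linarith
  have hB := big_of hm' hβ hL
  obtain ⟨hd, homl, hPhi⟩ := phi_upper hm hβ hL
  obtain ⟨f1, f2, f3, f4, f5⟩ := large_facts hm' hβ hL
  have hle := (hmin _ _ hd).trans hPhi
  set ℓ : ℝ := log β / β with hℓ
  set η : ℝ := 1 / (100000 * (m : ℝ)) with hη
  have hη0 : 0 < η := by positivity
  have hη1 : η ≤ 1 / 100000 := by
    rw [hη]; apply one_div_le_one_div_of_le (by norm_num); linarith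
  have hfd : FiniteDimensional ℝ V := Module.finite_of_finrank_pos (by rw [hfr]; omega)
  have hGeq : dsum β x = ∑ i, ∑ j, (if i = j then 0 else (1 - inner ℝ (x i) (x j)) ^ (-β)) := by
    unfold dsum
    refine Finset.sum_congr rfl (fun i _ => Finset.sum_congr rfl (fun j _ => ?_))
    split_ifs with hij
    · rfl
    · exact G_eq (hlt i j hij)
  have hsmall := hB.small
  have hE : ∑ i, ∑ j, (if i = j then 0 else (1 - inner ℝ (x i) (x j)) ^ (-β))
      ≤ 2 * (4 + η ^ 2 / 20000) := by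
    rw [← hGeq]
    refine hlow.trans ?_
    linarith
  have hβη : 320000 / η ^ 2 ≤ β := by
    have e : 320000 / η ^ 2 = 3200000000000000 * (m : ℝ) ^ 2 := by
      rw [hη]; field_simp; norm_num
    rw [e]
    have h1 : (m : ℝ) ^ 2 ≤ (m : ℝ) ^ 4 := pow_le_pow_right₀ hm' (by norm_num)
    nlinarith
  obtain ⟨a, b, c, d, hac, hbd, hab, had, hcb, hcd, k1, k2, k3, k4, h1, h2⟩ :=
    localize hη0 (by linarith) hβη (by rw [hfr, hcard]; omega) hx hlt hE
  obtain ⟨e, e0, e1, e2, e3⟩ := exists_relabel (κ := Fin m) (by rw [hcard, Fintype.card_fin])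
    hab hac had hcb.symm hbd hcd
  have hcm : (Fintype.card (Fin m) : ℝ) = m := by rw [Fintype.card_fin]
  have hne : ∀ p q, p ≠ q → (inner ℝ (x (e p)) (x (e q)) : ℝ) < 1 := fun p q hpq =>
    hlt _ _ (fun h => hpq (e.injective h))
  have hLL : ∀ g : ℝ, |β * log (1 - g)| ≤ η / 20 →
      |LL β g| ≤ 1 / (100000 * (Fintype.card (Fin m) : ℝ)) / 20 := by
    intro g hg
    unfold LL
    rw [hcm, neg_mul, abs_neg]; exact hg
  have hEt : 2 * Etot β (x (e (Sum.inl 0))) (x (e (Sum.inl 1))) (x (e (Sum.inl 2)))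
      (x (e (Sum.inl 3))) (fun k => x (e (Sum.inr k))) = dsum β x := by
    rw [← dsum_eq β (fun p => x (e p)), dsum_relabel]
  have hLoc : Loc β ℓ (x (e (Sum.inl 0))) (x (e (Sum.inl 1))) (x (e (Sum.inl 2)))
      (x (e (Sum.inl 3))) (fun k : Fin m => x (e (Sum.inr k))) := by
    refine ⟨by rw [hfr, Fintype.card_fin], hx _, hx _, hx _, hx _, fun k => hx _,
      hne _ _ (by simp), hne _ _ (by simp), hne _ _ (by simp), hne _ _ (by simp),
      fun k => hne _ _ (by simp), fun k => hne _ _ (by simp), fun k => hne _ _ (by simp),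
      fun k => hne _ _ (by simp), fun k l hkl => hne _ _ (by simpa using hkl),
      ?_, ?_, ?_, ?_, ?_, ?_, ?_⟩
    · rw [e0, e1]; exact hLL _ k1
    · rw [e0, e3]; exact hLL _ k4
    · rw [e2, e1]; exact hLL _ k2
    · rw [e2, e3]; exact hLL _ k3
    · rw [e0, e2, hcm]; exact h1
    · rw [e1, e3, hcm]; exact h2
    · rw [hcm]
      linarith
  obtain ⟨α', γ', hdom', hPhi', hsym⟩ := local_final (by rw [hcm]; exact hB) hLoc
  rw [hcm] at hdom' hPhi' hsym
  have hchain : Etot β (x (e (Sum.inl 0))) (x (e (Sum.inl 1))) (x (e (Sum.inl 2)))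
      (x (e (Sum.inl 3))) (fun k => x (e (Sum.inr k))) ≤ Phi m β α γ := by linarith
  have hs := hsym (hchain.trans (hmin _ _ hdom'))
  obtain ⟨ha, hg⟩ := Phi_unique hm' hβ hdom hdom' hmin
    (fun a g hag => (hPhi'.trans hchain).trans (hmin a g hag))
  refine ⟨e, ?_⟩
  rcases hg with hg | hg
  · have hm1 : m = 1 := by exact_mod_cast hg
    subst hm1
    have hom : om (Fintype.card (Fin 1)) α γ = om (Fintype.card (Fin 1)) α' γ' := by
      unfold om
      rw [ha]
      simp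
    rw [ha]
    rw [ha] at hom
    refine ⟨hs.a0, hs.a1, hs.a2, hs.a3, ?_, ?_, ?_, ?_, ?_, ?_, ?_⟩
    · intro k l hkl
      exact absurd (Subsingleton.elim k l) hkl
    · rw [hom]; exact hs.c01
    · rw [hom]; exact hs.c03
    · rw [hom]; exact hs.c21
    · rw [hom]; exact hs.c23
    · rw [hom]; exact hs.d02
    · rw [hom]; exact hs.d13
  · rw [ha, hg]; exact hs

end key

section isometry

variable {V : Type*} [NormedAddCommGroup V] [InnerProductSpace ℝ V] [FiniteDimensional ℝ V]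

/-- Two families with the same Gram matrix differ by an orthogonal transformation. -/
lemma exists_isometry {ι : Type*} [Fintype ι] {f g : ι → V}
    (h : ∀ i j, inner ℝ (f i) (f j) = (inner ℝ (g i) (g j) : ℝ)) :
    ∃ A : V ≃ₗᵢ[ℝ] V, ∀ i, A (f i) = g i := by
  classical
  let T : (ι → ℝ) →ₗ[ℝ] V := Fintype.linearCombination ℝ f
  let T' : (ι → ℝ) →ₗ[ℝ] V := Fintype.linearCombination ℝ g
  have hnorm : ∀ c, ‖T' c‖ = ‖T c‖ := by
    intro c
    have h1 : (inner ℝ (T' c) (T' c) : ℝ) = inner ℝ (T c) (T c) := by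
      simp only [T, T', Fintype.linearCombination_apply, sum_inner, inner_sum, inner_smul_left,
        inner_smul_right, h]
    rw [real_inner_self_eq_norm_sq, real_inner_self_eq_norm_sq] at h1
    have h2 := norm_nonneg (T' c)
    have h3 := norm_nonneg (T c)
    nlinarith
  obtain ⟨R, hR⟩ := T.rangeRestrict.exists_rightInverse_of_surjective
    (LinearMap.range_rangeRestrict T)
  have hTR : ∀ v : LinearMap.range T, T (R v) = v := by
    intro v
    have := LinearMap.congr_fun hR v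
    have h2 := congrArg Subtype.val this
    simpa using h2
  let L : LinearMap.range T →ₗᵢ[ℝ] V :=
    { toLinearMap := T'.comp R
      norm_map' := by
        intro v
        change ‖T' (R v)‖ = ‖v‖
        rw [hnorm, hTR]
        rfl }
  let A0 : V →ₗᵢ[ℝ] V := L.extend
  let A : V ≃ₗᵢ[ℝ] V := A0.toLinearIsometryEquiv rfl
  refine ⟨A, fun i => ?_⟩
  have hfi : T (Pi.single i 1) = f i := by
    simp [T, Fintype.linearCombination_apply, Pi.single_apply]
  have hgi : T' (Pi.single i 1) = g i := by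
    simp [T', Fintype.linearCombination_apply, Pi.single_apply]
  have hmem : f i ∈ LinearMap.range T := ⟨_, hfi⟩
  have h1 : A (f i) = L ⟨f i, hmem⟩ := L.extend_apply ⟨f i, hmem⟩
  rw [h1]
  change T' (R ⟨f i, hmem⟩) = g i
  have h2 : T (R ⟨f i, hmem⟩ - Pi.single i 1) = 0 := by
    rw [map_sub, hTR, hfi]
    simp
  have h3 : T' (R ⟨f i, hmem⟩ - Pi.single i 1) = 0 := by
    rw [← norm_eq_zero, hnorm, h2, norm_zero]
  rw [map_sub, hgi, sub_eq_zero] at h3
  exact h3

end isometry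

end Pool.Agent.Riesz
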